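import Pool.Agent.K3h19.Witt.Block2

/-!
# Towers of pairs of Artin-Schreier extensions
-/

set_option autoImplicit false
set_option linter.unusedVariables false
set_option linter.unusedSectionVars false

universe u

open Polynomial

namespace Pool.Agent.K3h19.Witt

open Pool.Agent.W558 Pool.Agent.W498.Tor Pool.Agent.TH188.WP
open Pool.Agent.TH188.WQ (Cp exists_lt lc om_lc)
open Pool.Agent.H176.Mix (Pole ovr_of ovr_to pole_pull Small int_of_base small_om)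

section gv

variable {k L : Type u} [Field k] [Field L] [Algebra k L] {T0 I0 : Type} [Fintype I0]
  {M0 : LM (⊥ : Subalgebra k L) ⊤ T0 I0}

/-- The extension `K` of `L` has a model over the model `M0`. -/
def GV (W : VS M0) {G : Type} (g : G → L)
    (K : Type u) [Field K] [Algebra k K] [Algebra L K] [IsScalarTower k L K] : Prop :=
  ∃ (T I : Type) (_ : Finite T) (_ : Fintype I) (M : LM (⊥ : Subalgebra k K) ⊤ T I)
    (π : T → T0) (Θ : I → I0 → ℤ) (Γ : G → I → ℤ),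
    AV W M π Θ ∧ Fn M (fun b => algebraMap L K (g b)) Γ ∧ Frc M

lemma GV.mono {W W' : VS M0} (hW : ∀ t (κ : Type u) [Field κ] [Algebra k κ]
    (ψ : M0.A t →ₐ[k] κ) (v : LT ψ (M0.x t)), W' t κ ψ v → W t κ ψ v)
    {G : Type} {g : G → L} {K : Type u} [Field K]
    [Algebra k K] [Algebra L K] [IsScalarTower k L K] (hM : GV W g K) :
    GV W' g K := by
  obtain ⟨T, I, hT, hI, M, π, Θ, Γ, hS, hF, hR⟩ := hM
  exact ⟨T, I, hT, hI, M, π, Θ, Γ, hS.mono hW, hF, hR⟩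

/-- Transport. -/
theorem GV.surj {W : VS M0} {G : Type} {g : G → L} {K : Type u} [Field K]
    [Algebra k K] [Algebra L K] [IsScalarTower k L K] (hM : GV W g K)
    (K1 : Type u) [Field K1] [Algebra k K1] [Algebra L K1] [Algebra K K1]
    [IsScalarTower k L K1] [IsScalarTower k K K1] [IsScalarTower L K K1]
    (hsurj : Function.Surjective (algebraMap K K1)) : GV W g K1 := by
  obtain ⟨T, I, hT, hI, M, π, Θ, Γ, hS, hFn, hFrc⟩ := hM
  refine ⟨T, I, hT, hI, mapLM (K := K1) M, π, Θ, Γ, hS.surj K1 hsurj, ?_, frc_map hFrc hsurj⟩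
  have h1 := fn_map (K := K1) hFn
  have e2 : (fun b => algebraMap K K1 (algebraMap L K (g b))) =
      fun b => algebraMap L K1 (g b) :=
    funext fun b => (IsScalarTower.algebraMap_apply L K K1 _).symm
  rw [e2] at h1
  exact h1

/-- The beginning. -/
theorem gv_init [Finite T0] (W : VS M0) {G : Type} {g : G → L} {Γ : G → I0 → ℤ} (hG : Fn M0 g Γ)
    (hR : Frc M0) : GV W g L :=
  ⟨T0, I0, inferInstance, inferInstance, M0, id, _, Γ, AV.refl W, hG, hR⟩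

end gv

section dmn

variable {p : ℕ} [Fact p.Prime] {k L K : Type u} [Field k] [CharP k p] [Field L]
  [Field K] [Algebra k L] [Algebra k K] [Algebra L K] [IsScalarTower k L K]
  {T0 I0 T I : Type} [Fintype I0] [Fintype I] {M0 : LM (⊥ : Subalgebra k L) ⊤ T0 I0}
  {M : LM (⊥ : Subalgebra k K) ⊤ T I} {π : T → T0} {Θ : I → I0 → ℤ}

/-- Domination is preserved. -/
lemma dmn_pull (ho : Pool.Agent.TH188.WQ.Ovr M0 M π Θ) (hR : Frc M) {m : ℕ} {n0 n1 : I0 → ℤ}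
    (hn0 : ∀ i, n0 i ≤ 0) {h0 : T0 → L} (hA : ∀ t, h0 t ∈ M0.A t) {y : T → K}
    (hy : ∀ t, Small M0 n0 (π t) (y t)) (hyA : ∀ t, y t ∈ M.A t)
    (hA' : ∀ t, algebraMap L K (h0 (π t)) + y t ∈ M.A t) (t : T) {κ : Type u}
    [Field κ] [Algebra k κ] (φ : M.A t →ₐ[k] κ) (ψ : M0.A (π t) →ₐ[k] κ)
    (hψ : ∀ a (ha : a ∈ M0.A (π t)), φ ⟨algebraMap L K a, ho.le t a ha⟩ = ψ ⟨a, ha⟩)
    (hD : Dmn p m M0 n0 h0 hA n1 (π t) ψ) :
    Dmn p m M (fun i => ∑ i0, Θ i i0 * n0 i0) (fun t => algebraMap L K (h0 (π t)) + y t) hA'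
      (fun i => ∑ i0, Θ i i0 * n1 i0) t φ := by
  obtain ⟨⟨l, hl, hl0⟩, h2, h3⟩ := hD
  have hp : Pole M t φ (fun i => ∑ i0, Θ i i0 * n0 i0) := by
    obtain ⟨i, hΘ, hi⟩ := exists_comp (ovr_to ho) t φ l (by rw [hψ]; exact hl0)
    refine ⟨i, ?_, hi⟩
    refine Finset.sum_neg' (fun i1 _ => ?_) ⟨l, Finset.mem_univ _, ?_⟩
    · exact mul_nonpos_of_nonneg_of_nonpos (ho.Θ0 i i1) (hn0 i1)
    · exact mul_neg_of_pos_of_neg hΘ hl
  refine ⟨hp, ?_, ?_⟩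
  · have e1 : (⟨algebraMap L K (h0 (π t)) + y t, hA' t⟩ : M.A t) =
        ⟨algebraMap L K (h0 (π t)), ho.le t _ (hA (π t))⟩ + ⟨y t, hyA t⟩ := rfl
    rw [e1, map_add, small_zero ho hR t hn0 (hy t) (fun i => rfl) (hyA t) κ φ hp, add_zero, hψ]
    exact h2
  · intro i hi
    have h7 : ∑ i0, Θ i i0 * ((m : ℤ) * n0 i0) ≤ ∑ i0, Θ i i0 * ((p : ℤ) * n1 i0) := by
      refine Finset.sum_le_sum fun l _ => ?_
      rcases lt_or_eq_of_le (ho.Θ0 i l) with h8 | h8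
      · refine mul_le_mul_of_nonneg_left (h3 l ?_) h8.le
        rw [← hψ]
        exact Pool.Agent.W32.WT.zero_pull (ovr_to ho) t φ i l h8 hi
      · rw [← h8, zero_mul, zero_mul]
    have h8 : ∑ i0, Θ i i0 * ((m : ℤ) * n0 i0) = (m : ℤ) * ∑ i0, Θ i i0 * n0 i0 := by
      rw [Finset.mul_sum]
      exact Finset.sum_congr rfl fun i _ => by ring
    have h9 : ∑ i0, Θ i i0 * ((p : ℤ) * n1 i0) = (p : ℤ) * ∑ i0, Θ i i0 * n1 i0 := by
      rw [Finset.mul_sum]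
      exact Finset.sum_congr rfl fun i _ => by ring
    rw [h8, h9] at h7
    exact h7

end dmn

section step

variable {p : ℕ} [Fact p.Prime] {k L : Type u} [Field k] [PerfectField k] [CharP k p] [Field L]
  [Algebra k L] {T0 I0 : Type} [Finite T0] [Fintype I0] {M0 : LM (⊥ : Subalgebra k L) ⊤ T0 I0}

/-- The condition after a step. -/
def WN (W : VS M0) (p m : ℕ) (n0 : I0 → ℤ) (h0 : T0 → L)
    (hA : ∀ t, h0 t ∈ M0.A t) (n1 : I0 → ℤ) (h1 : T0 → L) (h1A : ∀ t, h1 t ∈ M0.A t) : VS M0 :=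
  fun t κ _ _ ψ v => W t κ ψ v ∧ WB p m M0 n0 h0 hA n1 h1 h1A t κ ψ v

/-- One step of a tower. -/
theorem gv_step {W : VS M0} {G : Type} {g : G → L} (K K0 K1 : Type u)
    [Field K] [Algebra k K] [Algebra L K] [IsScalarTower k L K] [CharP K p]
    [Field K0] [Algebra k K0] [Algebra L K0] [Algebra K K0]
    [IsScalarTower k L K0] [IsScalarTower k K K0] [IsScalarTower L K K0] [CharP K0 p]
    [Field K1] [Algebra k K1] [Algebra L K1] [Algebra K K1] [Algebra K0 K1]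
    [IsScalarTower k L K1] [IsScalarTower k K K1] [IsScalarTower k K0 K1] [IsScalarTower L K K1]
    [IsScalarTower L K0 K1] [IsScalarTower K K0 K1] [CharP K1 p]
    (hM : GV W g K) {f g' : L} {n0 n1 : I0 → ℤ} {h0 h1 b : T0 → L} (hn0 : ∀ i, n0 i ≤ 0)
    (hA : ∀ t, h0 t ∈ M0.A t) (h0e : ∀ t, f = (∏ i, M0.x t i ^ n0 i) * h0 t)
    (hn1 : ∀ i, n1 i ≤ 0) (h1A : ∀ t, h1 t ∈ M0.A t)
    (h1e : ∀ t, g' = b t ^ p - b t + (∏ i, M0.x t i ^ n1 i) * h1 t)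
    {m : ℕ} {Φ : k[X]} (hΦ : Φ.natDegree = m) (hpm : ¬ p ∣ m)
    (hc0 : ∀ t (κ : Type u) [Field κ] [Algebra k κ] (ψ : M0.A t →ₐ[k] κ), Pole M0 t ψ n0 →
      ∃ v : LT ψ (M0.x t), W t κ ψ v ∧ om v n0 (hA t) ≠ 0)
    (hc1 : ∀ t (κ : Type u) [Field κ] [Algebra k κ] (ψ : M0.A t →ₐ[k] κ), Pole M0 t ψ n1 →
      ¬ Dmn p m M0 n0 h0 hA n1 t ψ → ∃ v : LT ψ (M0.x t), W t κ ψ v ∧
        (Pole M0 t ψ n0 → om v n0 (hA t) = 0) ∧ om v n1 (h1A t) ≠ 0)
    (sK : K) (hsK : ∀ t, Small M0 n0 t (sK * algebraMap L K (∏ i, M0.x t i ^ (-n0 i))))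
    (z : K0) (hz : z ^ p - z = algebraMap L K0 f + algebraMap K K0 sK)
    (hgen0 : IntermediateField.adjoin K {z} = ⊤) (gK : K0)
    (hgK : ∀ t, ∃ b' : K0, Small M0 n1 t
      ((gK - (b' ^ p - b')) * algebraMap L K0 (∏ i, M0.x t i ^ (-n1 i))))
    (w : K1) (hw : w ^ p - w = algebraMap L K1 g' + algebraMap K0 K1 (aeval z Φ + gK))
    (hgen1 : IntermediateField.adjoin K0 {w} = ⊤) :
    GV (WN W p m n0 h0 hA n1 h1 h1A) g K1 := by
  classical
  have hp : p.Prime := Fact.out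
  obtain ⟨T, I, hT, hI, M, π, Θ, Γ, hS, hG, hR⟩ := hM
  let y : T → K := fun t => sK * algebraMap L K (∏ i, M0.x (π t) i ^ (-n0 i))
  have hyA : ∀ t, y t ∈ M.A t := fun t => int_of_base hS.ov hR t (hsK (π t)).1
  have hhA : ∀ t, algebraMap L K (h0 (π t)) ∈ M.A t := fun t => hS.ov.le t _ (hA (π t))
  have hA' : ∀ t, algebraMap L K (h0 (π t)) + y t ∈ M.A t := fun t =>
    (M.A t).add_mem (hhA t) (hyA t)
  have h1A' : ∀ t, algebraMap L K (h1 (π t)) ∈ M.A t := fun t => hS.ov.le t _ (h1A (π t))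
  -- the forms
  have hom0 : ∀ t (κ : Type u) [Field κ] [Algebra k κ] (φ : M.A t →ₐ[k] κ)
      (ψ : M0.A (π t) →ₐ[k] κ) (v0 : LT ψ (M0.x (π t))) (v : LT φ (M.x t)), Cp v0 v Θ →
      Pole M t φ (fun i => ∑ i0, Θ i i0 * n0 i0) →
      om v (fun i => ∑ i0, Θ i i0 * n0 i0) (hA' t) = om v0 n0 (hA (π t)) := by
    intro t κ _ _ φ ψ v0 v hv hpole
    have e1 : om v (fun i => ∑ i0, Θ i i0 * n0 i0) (hA' t) =
        om v (fun i => ∑ i0, Θ i i0 * n0 i0) (hhA t) +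
        om v (fun i => ∑ i0, Θ i i0 * n0 i0) (hyA t) := by
      rw [om_eq, om_eq, om_eq, ← ow_add]
      rfl
    rw [e1, small_om hS.ov hR t hn0 (hsK (π t)) (fun i => rfl) (hyA t) κ φ hpole v, add_zero]
    exact hv.om n0 (hA (π t)) (hhA t)
  have hpullp : ∀ t (κ : Type u) [Field κ] [Algebra k κ] (φ : M.A t →ₐ[k] κ)
      (ψ : M0.A (π t) →ₐ[k] κ),
      (∀ a (ha : a ∈ M0.A (π t)), φ ⟨algebraMap L K a, hS.ov.le t a ha⟩ = ψ ⟨a, ha⟩) →
      ∀ {n : I0 → ℤ}, (∀ i, n i ≤ 0) → Pole M t φ (fun i => ∑ i0, Θ i i0 * n i0) →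
        Pole M0 (π t) ψ n := by
    intro t κ _ _ φ ψ hψ n hn hpole
    exact pole_pull hS.ov t φ ψ hψ hn (fun i => rfl) hpole
  have hmon : ∀ t (n : I0 → ℤ), ∏ i, M.x t i ^ (∑ i0, Θ i i0 * n i0) =
      algebraMap L K (∏ i, M0.x (π t) i ^ n i) := fun t n =>
    (Pool.Agent.W32.WT.mon_pull (ovr_to hS.ov) t n).symm
  have hinv : ∀ t (n : I0 → ℤ), algebraMap L K (∏ i, M0.x (π t) i ^ n i) *
      algebraMap L K (∏ i, M0.x (π t) i ^ (-n i)) = 1 := by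
    intro t n
    rw [← map_mul, ← Finset.prod_mul_distrib, ← map_one (algebraMap L K)]
    congr 1
    refine Finset.prod_eq_one fun i _ => ?_
    rw [← zpow_add₀ (M0.x0 (π t) i), add_neg_cancel, zpow_zero]
  have hN : NAS p M (algebraMap L K f + sK) (fun i => ∑ i0, Θ i i0 * n0 i0) (fun _ => 0)
      (fun t => algebraMap L K (h0 (π t)) + y t) := by
    refine ⟨?_, hA', ?_, ?_⟩
    · intro i
      exact Finset.sum_nonpos fun i0 _ =>
        mul_nonpos_of_nonneg_of_nonpos (hS.ov.Θ0 i i0) (hn0 i0)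
    · intro t
      rw [hmon, zero_pow hp.ne_zero, sub_zero, zero_add, h0e (π t), map_mul]
      change _ = algebraMap L K (∏ i, M0.x (π t) i ^ n0 i) * (algebraMap L K (h0 (π t)) +
        sK * algebraMap L K (∏ i, M0.x (π t) i ^ (-n0 i)))
      linear_combination -sK * hinv t n0
    · intro t κ _ _ φ hpole
      obtain ⟨v0, hv1, hv2⟩ := hc0 (π t) κ (φ.comp (Pool.Agent.TH188.WQ.ci (hS.ov.le t)))
        (hpullp t κ φ _ (fun a ha => rfl) hn0 hpole)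
      obtain ⟨v, hv⟩ := hS.lf t κ φ _ (fun a ha => rfl) v0 hv1
      refine ⟨v, ?_⟩
      rw [hom0 t κ φ _ v0 v hv hpole]
      exact hv2
  have hn1' : ∀ i, ∑ i0, Θ i i0 * n1 i0 ≤ 0 := fun i => Finset.sum_nonpos fun i0 _ =>
    mul_nonpos_of_nonneg_of_nonpos (hS.ov.Θ0 i i0) (hn1 i0)
  have hDm : ∀ t (κ : Type u) [Field κ] [Algebra k κ] (φ : M.A t →ₐ[k] κ)
      (ψ : M0.A (π t) →ₐ[k] κ),
      (∀ a (ha : a ∈ M0.A (π t)), φ ⟨algebraMap L K a, hS.ov.le t a ha⟩ = ψ ⟨a, ha⟩) →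
      ¬ Dmn p m M (fun i => ∑ i0, Θ i i0 * n0 i0) (fun t => algebraMap L K (h0 (π t)) + y t) hN.hA
        (fun i => ∑ i0, Θ i i0 * n1 i0) t φ → ¬ Dmn p m M0 n0 h0 hA n1 (π t) ψ := by
    intro t κ _ _ φ ψ hψ h1 h2
    exact h1 (dmn_pull hS.ov hR hn0 hA (fun t => hsK (π t)) hyA hA' t φ ψ hψ h2)
  obtain ⟨T', I', hT', hI', M', π', Θ', Γ', hS', hG', hR'⟩ :=
    block (L := K) (K0 := K0) (K := K1) hN hR hG hn1' h1A'
      (g' := algebraMap L K g') (b := fun t => algebraMap L K (b (π t))) (by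
        intro t
        rw [hmon, h1e (π t), map_add, map_sub, map_pow, map_mul]) hΦ hpm (by
        intro t κ _ _ φ hpole hnd
        obtain ⟨v0, hv1, hv2, hv3⟩ := hc1 (π t) κ
          (φ.comp (Pool.Agent.TH188.WQ.ci (hS.ov.le t)))
          (hpullp t κ φ _ (fun a ha => rfl) hn1 hpole) (hDm t κ φ _ (fun a ha => rfl) hnd)
        obtain ⟨v, hv⟩ := hS.lf t κ φ _ (fun a ha => rfl) v0 hv1
        refine ⟨v, fun hp0 => ?_, ?_⟩
        · rw [hom0 t κ φ _ v0 v hv hp0]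
          exact hv2 (hpullp t κ φ _ (fun a ha => rfl) hn0 hp0)
        · rw [hv.om n1 (h1A (π t)) (h1A' t)]
          exact hv3) z (by
        rw [hz, map_add, ← IsScalarTower.algebraMap_apply L K K0]) hgen0 gK (by
        intro t
        obtain ⟨b', hb'⟩ := hgK (π t)
        refine ⟨b', ?_⟩
        have h2 := small_pull (K1 := K0) hS.ov t hn1 hb'
        have h3 : algebraMap K K0 (∏ i, M.x t i ^ (-∑ i0, Θ i i0 * n1 i0)) =
            algebraMap L K0 (∏ i, M0.x (π t) i ^ (-n1 i)) := by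
          have h4 : ∀ i, -∑ i0, Θ i i0 * n1 i0 = ∑ i0, Θ i i0 * (-n1 i0) := by
            intro i
            rw [← Finset.sum_neg_distrib]
            exact Finset.sum_congr rfl fun i0 _ => by ring
          simp only [h4]
          rw [hmon t (fun i => -n1 i), ← IsScalarTower.algebraMap_apply L K K0]
        rw [h3]
        exact h2) w (by
        rw [hw, IsScalarTower.algebraMap_apply L K K1]) hgen1
  have e2 : (fun b => algebraMap K K1 (algebraMap L K (g b))) =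
      fun b => algebraMap L K1 (g b) :=
    funext fun b => (IsScalarTower.algebraMap_apply L K K1 _).symm
  rw [e2] at hG'
  refine ⟨T', I', hT', hI', M', fun t => π (π' t), fun i1 i0 => ∑ i, Θ' i1 i * Θ i i0, Γ', ?_,
    hG', hR'⟩
  refine AV.next hS.ov hS' ?_
  intro t κ _ _ φ ψ hψ v0 hv0
  obtain ⟨v, hv⟩ := hS.lf t κ φ ψ hψ v0 hv0.1
  refine ⟨v, hv, fun hp0 => ?_, fun hp1 hnd => ?_⟩
  · rw [hom0 t κ φ ψ v0 v hv hp0]
    exact hv0.2.1 (hpullp t κ φ ψ hψ hn0 hp0)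
  · rw [hv.om n1 (h1A (π t)) (h1A' t)]
    exact hv0.2.2 (hpullp t κ φ ψ hψ hn1 hp1) (hDm t κ φ ψ hψ hnd)

end step

end Pool.Agent.K3h19.Witt
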