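import Pool.Agent.H176.Mix.MT
import Pool.Agent.K3h19.Witt.Tower

/-!
# Purely inseparable extensions over the models of towers
The proof is the one of `Pool.Agent.H176.Mix.model_tow`.
-/

set_option autoImplicit false
set_option linter.unusedVariables false
set_option linter.unusedSectionVars false

universe u

open Polynomial

namespace Pool.Agent.K3h19.Witt

open Pool.Agent.W558 Pool.Agent.TH214
open Pool.Agent.TH188.WQ (pw)
open Pool.Agent.H176.Mix (Pole ovr_of ovr_to tower_add' tower_mul')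

section mixed

variable (p : ℕ) [Fact p.Prime] {k L K : Type u} [Field k] [PerfectField k] [CharP k p] [Field L]
  [Field K] [Algebra k L] [Algebra k K] [Algebra L K] [IsScalarTower k L K]

/-- The functions `F` keep a joint normal form. -/
theorem nfj_of_AV {k L : Type u} [Field k] [Field L] [Algebra k L] {T0 I0 : Type} [Fintype I0]
    {M0 : LM (⊥ : Subalgebra k L) ⊤ T0 I0} {W : VS M0} {K : Type u} [Field K] [Algebra k K]
    [Algebra L K] [IsScalarTower k L K] {T I : Type} [Fintype I]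
    {M : LM (⊥ : Subalgebra k K) ⊤ T I} {π : T → T0} {Θ : I → I0 → ℤ}
    (hS : AV W M π Θ) {p : ℕ} {ν : Type} {F : ν → L} {m : ν → I0 → ℤ}
    {b c : T0 → ν → L} (hc : ∀ t u, c t u ∈ M0.A t)
    (hF : ∀ t u, F u = b t u ^ p + (∏ i, M0.x t i ^ m u i) * c t u)
    (hln : ∀ t (κ : Type u) [Field κ] [Algebra k κ] (ψ : M0.A t →ₐ[k] κ) (u : ν),
      ∃ v : LT ψ (M0.x t), om v (m u) (hc t u) ≠ 0 ∧ (∀ l, l ≠ u → om v (m l) (hc t l) = 0) ∧
        W t κ ψ v) :
    NFJ p M (fun u => algebraMap L K (F u)) (fun u i => ∑ i0, Θ i i0 * m u i0)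
      (fun t u => algebraMap L K (b (π t) u)) (fun t u => algebraMap L K (c (π t) u)) := by
  refine ⟨fun t u => hS.ov.le t _ (hc (π t) u), ?_, ?_⟩
  · intro t u
    change algebraMap L K (F u) = _
    rw [hF (π t) u, map_add, map_pow, map_mul,
      ← Pool.Agent.W32.WT.mon_pull (ovr_to hS.ov) t (m u)]
  · intro t κ _ _ φ u
    let ψ : M0.A (π t) →ₐ[k] κ := φ.comp (Pool.Agent.TH188.WQ.ci (hS.ov.le t))
    obtain ⟨v0, h1, h2, h3⟩ := hln (π t) κ ψ u
    obtain ⟨v, hv⟩ := hS.lf t κ φ ψ (fun a ha => rfl) v0 h3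
    refine ⟨v, ?_, ?_⟩
    · rw [hv.om (m u) (hc (π t) u) (hS.ov.le t _ (hc (π t) u))]
      exact h1
    · intro l hl
      rw [hv.om (m l) (hc (π t) l) (hS.ov.le t _ (hc (π t) l))]
      exact h2 l hl

/-- Models of the extensions by `p`-th roots of the extensions which have a model. -/
theorem gv_insep {T0 I0 ν G : Type} [Finite T0] [Fintype I0] [Fintype ν]
    {M : LM (⊥ : Subalgebra k L) ⊤ T0 I0} {W : VS M} {g : G → L} (S : Set K)
    (hM : GV W g (IntermediateField.adjoin L S))
    {F : ν → L} {m : ν → I0 → ℤ} {b c : T0 → ν → L}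
    (hc : ∀ t u, c t u ∈ M.A t)
    (hF : ∀ t u, F u = b t u ^ p + (∏ i, M.x t i ^ m u i) * c t u)
    (hln : ∀ t (κ : Type u) [Field κ] [Algebra k κ] (ψ : M.A t →ₐ[k] κ) (u : ν),
      ∃ v : LT ψ (M.x t), om v (m u) (hc t u) ≠ 0 ∧ (∀ l, l ≠ u → om v (m l) (hc t l) = 0) ∧
        W t κ ψ v) {q : ℕ} (w : Fin q → K)
    (hw : (∀ l, ∃ lam : ν → k, ∃ b ∈ IntermediateField.adjoin L S,
        w l ^ p = algebraMap L K (∑ u, algebraMap k L (lam u) * F u) + b ^ p) ∨
      ((∀ u, ∃ i, g i = F u) ∧ (∀ u, F u ≠ 0) ∧ ∀ l, ∃ e : ν → ℤ,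
        ∃ b ∈ IntermediateField.adjoin L S, b ≠ 0 ∧
        w l ^ p = algebraMap L K (∏ u, F u ^ e u) * b ^ p))
    (hgen : IntermediateField.adjoin L (S ∪ Set.range w) = ⊤) :
    ∃ (T I : Type) (_ : Finite T) (_ : Fintype I) (M' : LM (⊥ : Subalgebra k K) ⊤ T I)
      (Γ' : G → I → ℤ), Fn M' (fun b => algebraMap L K (g b)) Γ' ∧ Frc M' ∧
        Dm M.A (algebraMap L K) M' := by
  classical
  have hp : p.Prime := Fact.out
  have hcK : CharP K p := charP_of_injective_algebraMap (algebraMap k K).injective p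
  have hcL : CharP L p := charP_of_injective_algebraMap (algebraMap k L).injective p
  have hgen1 : ∀ w' : Fin q → K,
      (∀ l, w l ∈ IntermediateField.adjoin L (S ∪ Set.range w')) →
      IntermediateField.adjoin L (S ∪ Set.range w') = ⊤ := by
    intro w' hw'
    rw [eq_top_iff, ← hgen, IntermediateField.adjoin_le_iff]
    rintro y (hy | ⟨l, rfl⟩)
    · exact IntermediateField.subset_adjoin L _ (Or.inl hy)
    · exact hw' l
  have hle : ∀ w' : Fin q → K, IntermediateField.adjoin L S ≤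
      IntermediateField.adjoin L (S ∪ Set.range w') := fun w' =>
    IntermediateField.adjoin.mono L _ _ Set.subset_union_left
  obtain ⟨w', hw, hgen⟩ : ∃ w' : Fin q → K, ((∀ l, ∃ (lam : ν → k),
        w' l ^ p = algebraMap L K (∑ u, algebraMap k L (lam u) * F u)) ∨
      ((∀ u, ∃ i, g i = F u) ∧ (∀ u, F u ≠ 0) ∧ ∀ l, ∃ (e : ν → ℤ),
        w' l ^ p = algebraMap L K (∏ u, F u ^ e u))) ∧
      IntermediateField.adjoin L (S ∪ Set.range w') = ⊤ := by
    rcases hw with hw | ⟨hFg, hF0, hw⟩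
    · choose lam b hb hlam using hw
      refine ⟨fun l => w l - b l, Or.inl fun l => ⟨lam l, ?_⟩, hgen1 _ fun l => ?_⟩
      · rw [sub_pow_char, hlam, add_sub_cancel_right]
      · have h1 := add_mem (IntermediateField.subset_adjoin L (S ∪ Set.range
          fun l => w l - b l) (Or.inr ⟨l, rfl⟩)) (hle (fun l => w l - b l) (hb l))
        rwa [sub_add_cancel] at h1
    · choose e b hb hb0 he using hw
      refine ⟨fun l => w l * (b l)⁻¹, Or.inr ⟨hFg, hF0, fun l => ⟨e l, ?_⟩⟩,
        hgen1 _ fun l => ?_⟩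
      · rw [mul_pow, inv_pow, he, mul_assoc, mul_inv_cancel₀ (pow_ne_zero _ (hb0 l)), mul_one]
      · have h1 := mul_mem (IntermediateField.subset_adjoin L (S ∪ Set.range
          fun l => w l * (b l)⁻¹) (Or.inr ⟨l, rfl⟩)) (hle (fun l => w l * (b l)⁻¹) (hb l))
        rwa [mul_assoc, inv_mul_cancel₀ (hb0 l), mul_one] at h1
  clear hgen1
  let K1 := IntermediateField.adjoin L S
  have tK1 : IsScalarTower k K1 K := IsScalarTower.of_algebraMap_eq fun c => rfl
  have hcK1 : CharP K1 p := charP_of_injective_algebraMap (algebraMap k K1).injective p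
  have h3 : GV W g K1 := hM
  obtain ⟨T, I, hT, hI, M1, π, Θ, Γ1, hS, hF1, hR1⟩ := h3
  have hNJ := nfj_of_AV hS hc hF hln
  -- the generation
  have hgen2 : ∀ w'' : Fin q → K, (∀ l, w' l ∈ IntermediateField.adjoin K1 (Set.range w'')) →
      IntermediateField.adjoin K1 (Set.range w'') = ⊤ := by
    intro w'' hw''
    rw [← IntermediateField.restrictScalars_eq_top_iff (K := L), eq_top_iff, ← hgen,
      IntermediateField.adjoin_le_iff]
    rintro y (hy | ⟨l, rfl⟩)
    · have h1 : y ∈ K1 := IntermediateField.subset_adjoin L _ hy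
      exact IntermediateField.algebraMap_mem (IntermediateField.adjoin K1 (Set.range w''))
        (⟨y, h1⟩ : K1)
    · exact hw'' l
  have hdm : ∀ {T2 I2 : Type} (M2 : LM (⊥ : Subalgebra k K) ⊤ T2 I2),
      Dm M1.A (algebraMap K1 K) M2 → Dm M.A (algebraMap L K) M2 := by
    intro T2 I2 M2 hD t
    obtain ⟨s, hs⟩ := hD t
    refine ⟨π s, fun x hx => ?_⟩
    rw [IsScalarTower.algebraMap_apply L K1 K]
    exact hs _ (hS.ov.le s x hx)
  have hgK : (fun b => algebraMap K1 K (algebraMap L K1 (g b))) =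
      fun b => algebraMap L K (g b) :=
    funext fun b => (IsScalarTower.algebraMap_apply L K1 K (g b)).symm
  rcases hw with hw | ⟨hFg, hF0, hw⟩
  · choose lw hlw using hw
    obtain ⟨T2, I2, hT2, hI2, M2, Γ2, hF2, hR2, hD2⟩ := tower_add' p M1 K hNJ hF1 hR1 q w' lw (by
      intro l
      rw [hlw, map_sum, map_sum]
      refine Finset.sum_congr rfl fun u _ => ?_
      rw [map_mul, map_mul, ← IsScalarTower.algebraMap_apply L K1 K,
        ← IsScalarTower.algebraMap_apply k L K, ← IsScalarTower.algebraMap_apply k K1 K])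
      (hgen2 w' fun l => IntermediateField.subset_adjoin K1 _ ⟨l, rfl⟩)
    rw [hgK] at hF2
    exact ⟨T2, I2, hT2, hI2, M2, Γ2, hF2, hR2, hdm M2 hD2⟩
  · choose e hlw using hw
    have hF0K : ∀ u, algebraMap L K (F u) ≠ 0 := fun u =>
      (_root_.map_ne_zero (algebraMap L K)).2 (hF0 u)
    -- the correction
    let y : Fin q → L := fun l => ∏ u, F u ^ (e l u / (p : ℤ))
    have hy0 : ∀ l, y l ≠ 0 := fun l =>
      Finset.prod_ne_zero_iff.2 fun u _ => zpow_ne_zero _ (hF0 u)
    let w'' : Fin q → K := fun l => w' l * (algebraMap L K (y l))⁻¹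
    have hval : ∀ (e : ℤ), (((e : ZMod p).val : ℕ) : ℤ) = e % p := by
      intro e
      exact ZMod.val_intCast e
    have hyp : ∀ l, (∏ u, F u ^ e l u) =
        pw p F (fun u => ((e l u : ℤ) : ZMod p)) * y l ^ p := by
      intro l
      change _ = (∏ u, F u ^ (((e l u : ℤ) : ZMod p)).val) *
        ((∏ u, F u ^ (e l u / (p : ℤ)))) ^ p
      rw [← Finset.prod_pow, ← Finset.prod_mul_distrib]
      refine Finset.prod_congr rfl fun u _ => ?_
      rw [← zpow_natCast, ← zpow_natCast (F u ^ (e l u / (p : ℤ))), ← zpow_mul,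
        ← zpow_add₀ (hF0 u), hval]
      congr 1
      rw [mul_comm (e l u / (p : ℤ))]
      exact (Int.emod_add_mul_ediv _ _).symm
    obtain ⟨T2, I2, hT2, hI2, M2, Γ2, hF2, hR2, hD2⟩ := tower_mul' p M1 K hNJ hF1 hR1 (by
        intro u
        obtain ⟨i, hi⟩ := hFg u
        exact Submonoid.subset_closure ⟨i, congrArg (algebraMap L K1) hi⟩) (by
        intro u
        exact (_root_.map_ne_zero (algebraMap L K1)).2 (hF0 u)) q w''
      (fun l u => ((e l u : ℤ) : ZMod p)) (by
        intro l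
        change (w' l * (algebraMap L K (y l))⁻¹) ^ p = _
        rw [mul_pow, inv_pow, ← map_pow, hlw, hyp, map_mul, mul_assoc,
          mul_inv_cancel₀ ((_root_.map_ne_zero (algebraMap L K)).2 (pow_ne_zero _ (hy0 l))),
          mul_one]
        unfold pw
        rw [map_prod, map_prod]
        refine Finset.prod_congr rfl fun u _ => ?_
        rw [map_pow, map_pow, ← IsScalarTower.algebraMap_apply L K1 K])
      (hgen2 w'' (by
        intro l
        have h2 : w' l = w'' l * algebraMap L K (y l) := by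
          change w' l = w' l * (algebraMap L K (y l))⁻¹ * algebraMap L K (y l)
          rw [mul_assoc, inv_mul_cancel₀ ((_root_.map_ne_zero (algebraMap L K)).2 (hy0 l)),
            mul_one]
        rw [h2]
        refine mul_mem (IntermediateField.subset_adjoin K1 _ ⟨l, rfl⟩) ?_
        rw [IsScalarTower.algebraMap_apply L K1 K]
        exact IntermediateField.algebraMap_mem _ _))
    rw [hgK] at hF2
    exact ⟨T2, I2, hT2, hI2, M2, Γ2, hF2, hR2, hdm M2 hD2⟩

end mixed

end Pool.Agent.K3h19.Witt
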