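import Pool.Agent.H176.Mix.Tow

/-!
# Functions of the form `u ^ p - u` have no clean poles
-/

set_option autoImplicit false
set_option linter.unusedVariables false
set_option linter.unusedSectionVars false

universe u

open Polynomial

namespace Pool.Agent.K3h19.Witt

open Pool.Agent.W558 Pool.Agent.TH188.WP
open Pool.Agent.H176.Mix (Pole int_mem)

section

variable {p : ℕ} [Fact p.Prime] {k L : Type u} [Field k] [CharP k p] [Field L] [Algebra k L]
  {T I : Type} [Fintype I] {B : LM (⊥ : Subalgebra k L) ⊤ T I}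

/-- Integrality. -/
lemma as_mem (hR : Frc B) (t : T) {u a b : L} (ha : a ∈ B.A t) (hb : b ∈ B.A t)
    (h : u ^ p = a * u + b) : u ∈ B.A t := by
  have hp : p.Prime := Fact.out
  refine int_mem hR t ⟨X ^ p - (C ⟨a, ha⟩ * X + C ⟨b, hb⟩), ?_, ?_⟩
  · apply monic_X_pow_sub
    refine lt_of_le_of_lt (degree_linear_le) ?_
    exact_mod_cast hp.one_lt
  · rw [← aeval_def, map_sub, map_add, map_mul, map_pow, aeval_X, aeval_C, aeval_C]
    change u ^ p - (a * u + b) = 0
    rw [h, sub_self]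

lemma mon_dvd (t : T) {E : I → ℤ} (hE : ∀ j, 0 ≤ E j) {i : I} (hi : 1 ≤ E i) :
    ∃ r ∈ B.A t, ∏ j, B.x t j ^ E j = B.x t i * r := by
  classical
  refine ⟨∏ j, B.x t j ^ (E j - if j = i then 1 else 0), mon_mem (B.xA t) _ fun j => Or.inl ?_,
    ?_⟩
  · split_ifs with h
    · rw [h]; omega
    · have := hE j; omega
  · rw [← Finset.mul_prod_erase Finset.univ _ (Finset.mem_univ i),
      ← Finset.mul_prod_erase Finset.univ (fun j => B.x t j ^
        (E j - if j = i then 1 else 0)) (Finset.mem_univ i), ← mul_assoc]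
    congr 1
    · rw [if_pos rfl, ← zpow_one_add₀ (B.x0 t i)]
      congr 1
      ring
    · refine Finset.prod_congr rfl fun j hj => ?_
      rw [if_neg (Finset.ne_of_mem_erase hj), sub_zero]

lemma ceil_facts {p : ℕ} (hp : 2 ≤ p) {n : ℤ} (hn : n ≤ 0) :
    0 ≤ (-n + p - 1) / (p : ℤ) ∧ 0 ≤ p * ((-n + p - 1) / (p : ℤ)) + n ∧
    0 ≤ -n - (-n + p - 1) / (p : ℤ) ∧ (n ≤ -2 → 1 ≤ -n - (-n + p - 1) / (p : ℤ)) ∧
    (n = -1 → (-n + p - 1) / (p : ℤ) = 1) := by
  have hp' : (2 : ℤ) ≤ p := by exact_mod_cast hp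
  have h1 : (p : ℤ) * ((-n + p - 1) / (p : ℤ)) ≤ -n + p - 1 := Int.mul_ediv_self_le (by omega)
  have h2 : -n + p - 1 < (p : ℤ) * ((-n + p - 1) / (p : ℤ)) + p :=
    Int.lt_mul_ediv_self_add (by omega)
  generalize (-n + p - 1) / (p : ℤ) = s at h1 h2
  have hs0 : 0 ≤ s := by
    by_contra hcon
    push Not at hcon
    nlinarith
  have hps : 0 ≤ p * s + n := by omega
  refine ⟨hs0, hps, ?_, ?_, ?_⟩
  · by_contra hcon
    push Not at hcon
    have h3 : -n + 1 ≤ s := by omega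
    nlinarith
  · intro hn2
    by_contra hcon
    push Not at hcon
    have h3 : -n ≤ s := by omega
    nlinarith
  · intro hn1
    subst hn1
    have h3 : 0 < s := by
      by_contra hcon
      push Not at hcon
      have : s = 0 := by omega
      subst this
      omega
    have h4 : s < 2 := by
      by_contra hcon
      push Not at hcon
      nlinarith
    omega

/-- The logarithmic form of `u ^ p - u` vanishes at the poles. -/
theorem pole_root (hR : Frc B) (t : T) {n : I → ℤ} (hn : ∀ i, n i ≤ 0) {h : L}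
    (hA : h ∈ B.A t) {u : L} (hu : u ^ p - u = (∏ i, B.x t i ^ n i) * h) (κ : Type u) [Field κ]
    [Algebra k κ] (φ : B.A t →ₐ[k] κ) (hp : Pole B t φ n) (v : LT φ (B.x t)) :
    om v n hA = 0 := by
  classical
  have hpp : p.Prime := Fact.out
  have hx0 := B.x0 t
  have hsm := B.sm t
  obtain ⟨i, hi, hi0⟩ := hp
  let s : I → ℤ := fun j => (-n j + p - 1) / (p : ℤ)
  have hs := fun j => ceil_facts hpp.two_le (hn j)
  let w : L := (∏ j, B.x t j ^ s j) * u
  have e1 : w ^ p = (∏ j, B.x t j ^ (((p : ℤ) - 1) * s j)) * w +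
      (∏ j, B.x t j ^ ((p : ℤ) * s j + n j)) * h := by
    have e2 : (∏ j, B.x t j ^ s j) ^ p = (∏ j, B.x t j ^ (((p : ℤ) - 1) * s j)) *
        ∏ j, B.x t j ^ s j := by
      rw [← Finset.prod_pow, ← Finset.prod_mul_distrib]
      refine Finset.prod_congr rfl fun j _ => ?_
      rw [← zpow_natCast, ← zpow_mul, ← zpow_add₀ (hx0 j)]
      congr 1
      ring
    have e3 : (∏ j, B.x t j ^ s j) ^ p * (∏ j, B.x t j ^ n j) =
        ∏ j, B.x t j ^ ((p : ℤ) * s j + n j) := by
      rw [← Finset.prod_pow, ← Finset.prod_mul_distrib]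
      refine Finset.prod_congr rfl fun j _ => ?_
      rw [← zpow_natCast, ← zpow_mul, ← zpow_add₀ (hx0 j), mul_comm (s j)]
    have e4 : u ^ p = u + (∏ j, B.x t j ^ n j) * h := by linear_combination hu
    change ((∏ j, B.x t j ^ s j) * u) ^ p = _ * ((∏ j, B.x t j ^ s j) * u) + _
    rw [mul_pow, e4, ← e3]
    linear_combination u * e2
  have hm1 : ∀ j, 0 ≤ ((p : ℤ) - 1) * s j := fun j =>
    mul_nonneg (by have := hpp.one_le; omega) (hs j).1
  have hwA : w ∈ B.A t := as_mem hR t (mon_mem (B.xA t) _ fun j => Or.inl (hm1 j))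
    ((B.A t).mul_mem (mon_mem (B.xA t) _ fun j => Or.inl (hs j).2.1) hA) e1
  have e5 : (∏ j, B.x t j ^ (-n j)) * u = (∏ j, B.x t j ^ (-n j - s j)) * w := by
    change _ = _ * ((∏ j, B.x t j ^ s j) * u)
    rw [← mul_assoc, ← Finset.prod_mul_distrib]
    congr 1
    refine Finset.prod_congr rfl fun j _ => ?_
    rw [← zpow_add₀ (hx0 j)]
    congr 1
    ring
  obtain ⟨E, w', hw', hE, hEi, e6⟩ : ∃ (E : I → ℤ) (w' : L), w' ∈ B.A t ∧ (∀ j, 0 ≤ E j) ∧
      1 ≤ E i ∧ (∏ j, B.x t j ^ (-n j)) * u = (∏ j, B.x t j ^ E j) * w' := by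
    by_cases h2 : n i ≤ -2
    · exact ⟨fun j => -n j - s j, w, hwA, fun j => (hs j).2.2.1, (hs i).2.2.2.1 h2, e5⟩
    · have h3 : n i = -1 := by omega
      have h4 : s i = 1 := (hs i).2.2.2.2 h3
      have hp2 : (2 : ℤ) ≤ p := by exact_mod_cast hpp.two_le
      obtain ⟨r1, hr1, hr1'⟩ := mon_dvd (B := B) t hm1 (i := i) (by rw [h4]; omega)
      obtain ⟨r2, hr2, hr2'⟩ := mon_dvd (B := B) t (fun j => (hs j).2.1) (i := i) (by
        change 1 ≤ p * s i + n i
        rw [h4, h3]; omega)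
      have h5 : (⟨B.x t i, B.xA t i⟩ : B.A t) ∣ (⟨w, hwA⟩ : B.A t) ^ p := by
        refine ⟨⟨r1, hr1⟩ * ⟨w, hwA⟩ + ⟨r2, hr2⟩ * ⟨h, hA⟩, ?_⟩
        apply Subtype.ext
        change w ^ p = B.x t i * (r1 * w + r2 * h)
        rw [e1, hr1']
        change _ + (∏ j, B.x t j ^ ((p : ℤ) * ((-n j + p - 1) / (p : ℤ)) + n j)) * h = _
        rw [hr2']
        ring
      obtain ⟨⟨w', hw'⟩, hw''⟩ := dvd_of_dvd_pow' (B.snc t) (B.xA t) i _ p h5
      have h6 : w = B.x t i * w' := congrArg Subtype.val hw''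
      refine ⟨fun j => -n j - s j + if j = i then 1 else 0, w', hw', ?_, ?_, ?_⟩
      · intro j
        have := (hs j).2.2.1
        change 0 ≤ -n j - s j + _
        change 0 ≤ -n j - s j at this
        split_ifs <;> omega
      · have := (hs i).2.2.1
        change 0 ≤ -n i - s i at this
        change 1 ≤ -n i - s i + _
        rw [if_pos rfl]
        omega
      · rw [e5, h6, ← mul_assoc]
        congr 1
        have h7 : B.x t i = ∏ j, B.x t j ^ (if j = i then (1 : ℤ) else 0) := by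
          rw [Finset.prod_eq_single i]
          · rw [if_pos rfl, zpow_one]
          · intro j _ hj
            rw [if_neg hj, zpow_zero]
          · intro h
            exact absurd (Finset.mem_univ i) h
        conv_lhs => rw [h7]
        rw [← Finset.prod_mul_distrib]
        refine Finset.prod_congr rfl fun j _ => ?_
        rw [← zpow_add₀ (hx0 j)]
  have hEm : ∏ j, B.x t j ^ E j ∈ B.A t := mon_mem (B.xA t) _ fun j => Or.inl (hE j)
  have hc : h + (∏ j, B.x t j ^ E j) * w' ∈ B.A t := (B.A t).add_mem hA ((B.A t).mul_mem hEm hw')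
  have e7 : (∏ j, B.x t j ^ n j) * (h + (∏ j, B.x t j ^ E j) * w') = u ^ p := by
    have e8 : (∏ j, B.x t j ^ n j) * (∏ j, B.x t j ^ (-n j)) = 1 := by
      rw [← Finset.prod_mul_distrib]
      refine Finset.prod_eq_one fun j _ => ?_
      rw [← zpow_add₀ (hx0 j), add_neg_cancel, zpow_zero]
    rw [← e6]
    linear_combination -hu + u * e8
  have h8 := ow_root p (φ := φ) (fun z hz => as_mem (p := p) hR t (B.A t).zero_mem hz
    (by rw [zero_mul, zero_add])) (B.snc t) (B.xA t) hx0 v n ⟨_, hc⟩ u e7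
  have h9 : (⟨_, hc⟩ : B.A t) = ⟨h, hA⟩ + ⟨_, hEm⟩ * ⟨w', hw'⟩ := rfl
  have hlog : LM' v E ⟨_, hEm⟩ := mon_log v (B.xA t) hx0 E fun j => Or.inl (hE j)
  rw [h9, ow_add, ow_mon v hlog] at h8
  obtain ⟨r, hr, hr'⟩ := mon_dvd (B := B) t hE hEi
  have h10 : φ ⟨_, hEm⟩ = 0 := by
    have e9 : (⟨_, hEm⟩ : B.A t) = ⟨B.x t i, B.xA t i⟩ * ⟨r, hr⟩ := Subtype.ext hr'
    rw [e9, map_mul, hi0, zero_mul]
  rw [h10, zero_mul, add_zero] at h8
  exact h8

/-- If a function in normal form is of the form `b ^ p - b`, it has no poles. -/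
theorem no_pole (hR : Frc B) {f : L} {n : I → ℤ} {a h : T → L} (hN : NAS p B f n a h) {b : L}
    (hb : b ^ p - b = f) (t : T) (κ : Type u) [Field κ] [Algebra k κ] (φ : B.A t →ₐ[k] κ) :
    ¬ Pole B t φ n := by
  intro hp
  have hcL : CharP L p := charP_of_injective_algebraMap (algebraMap k L).injective p
  obtain ⟨v, hv⟩ := hN.ln t κ φ hp
  refine hv (pole_root hR t hN.n0 (hN.hA t) (u := b - a t) ?_ κ φ hp v)
  have h1 := hN.eq t
  rw [sub_pow_char]
  linear_combination hb + h1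

/-- A function without zeros is invertible. -/
lemma inv_of_no_zero (t : T) {a : L} (ha : a ∈ B.A t) (h0 : a ≠ 0)
    (h : ∀ (κ : Type u) [Field κ] [Algebra k κ] (φ : B.A t →ₐ[k] κ), φ ⟨a, ha⟩ ≠ 0) :
    a⁻¹ ∈ B.A t := by
  by_cases hu : IsUnit (⟨a, ha⟩ : B.A t)
  · obtain ⟨⟨b, c, hbc, hcb⟩, hb⟩ := hu
    change b = _ at hb
    have h1 : a * (c : L) = 1 := by
      have := congrArg Subtype.val hbc
      rw [hb] at this
      exact this
    rw [inv_eq_of_mul_eq_one_right h1]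
    exact c.2
  · obtain ⟨m, hm, hle⟩ := exists_max_ideal_of_mem_nonunits hu
    let _ : Field (B.A t ⧸ m) := Ideal.Quotient.field m
    exact absurd (Ideal.Quotient.eq_zero_iff_mem.2 hle) (h (B.A t ⧸ m) (Ideal.Quotient.mkₐ k m))

end

end Pool.Agent.K3h19.Witt
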