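import Pool.Agent.K3h19.Witt.ZStep
import Pool.Agent.K3h19.Witt.Root

/-!
# Lifting of logarithmic tangent vectors which satisfy a condition
-/

set_option autoImplicit false
set_option linter.unusedVariables false
set_option linter.unusedSectionVars false

universe u

open Polynomial

namespace Pool.Agent.K3h19.Witt

open Pool.Agent.W558 Pool.Agent.W498.Tor
open Pool.Agent.TH188.WQ (Cp exists_lt)
open Pool.Agent.H176.Mix (Pole ovr_of ovr_to pole_pull)

section av

variable {k L : Type u} [Field k] [Field L] [Algebra k L] {T0 I0 : Type} [Fintype I0]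

/-- A condition on the logarithmic tangent vectors at the points of a model. -/
abbrev VS (M0 : LM (⊥ : Subalgebra k L) ⊤ T0 I0) :=
  ∀ (t : T0) (κ : Type u) [Field κ] [Algebra k κ] (ψ : M0.A t →ₐ[k] κ), LT ψ (M0.x t) → Prop

variable {M0 : LM (⊥ : Subalgebra k L) ⊤ T0 I0}

/-- The model `M` of the extension `K` of `L` lies over the model `M0` of `L`; logarithmic tangent
vectors which satisfy the condition `W` can be lifted. -/
structure AV (W : VS M0) {K : Type u} [Field K] [Algebra k K] [Algebra L K] [IsScalarTower k L K]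
    {T I : Type} [Fintype I] (M : LM (⊥ : Subalgebra k K) ⊤ T I) (π : T → T0)
    (Θ : I → I0 → ℤ) : Prop where
  ov : Pool.Agent.TH188.WQ.Ovr M0 M π Θ
  lf : ∀ t (κ : Type u) [Field κ] [Algebra k κ] (φ : M.A t →ₐ[k] κ) (ψ : M0.A (π t) →ₐ[k] κ),
    (∀ a (ha : a ∈ M0.A (π t)), φ ⟨algebraMap L K a, ov.le t a ha⟩ = ψ ⟨a, ha⟩) →
    ∀ v0 : LT ψ (M0.x (π t)), W (π t) κ ψ v0 → ∃ v : LT φ (M.x t), Cp v0 v Θ

/-- The form of `x ^ n * h` vanishes if the point is a pole. -/
def WP (M0 : LM (⊥ : Subalgebra k L) ⊤ T0 I0) (n : I0 → ℤ) (h : T0 → L)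
    (hA : ∀ t, h t ∈ M0.A t) : VS M0 :=
  fun t κ _ _ ψ v => Pole M0 t ψ n → om v n (hA t) = 0

variable {K : Type u} [Field K] [Algebra k K] [Algebra L K] [IsScalarTower k L K] {T I : Type}
  [Fintype I] {M : LM (⊥ : Subalgebra k K) ⊤ T I} {π : T → T0} {Θ : I → I0 → ℤ}

theorem AV.of_clift {n : I0 → ℤ} {h : T0 → L} {hA : ∀ t, h t ∈ M0.A t}
    (ho : Pool.Agent.W558.Ovr M0 M π Θ) (hC : CLift ho n h hA) : AV (WP M0 n h hA) M π Θ := by
  refine ⟨ovr_of ho, ?_⟩
  intro t κ _ _ φ ψ hψ v0 hW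
  have h1 : φ.comp (Pool.Agent.W558.ci (ho.le t)) = ψ := AlgHom.ext fun a => hψ a a.2
  subst h1
  obtain ⟨v, hv1, hv2⟩ := hC t κ φ v0 hW
  exact ⟨v, fun a ha ha' => rfl, fun a ha ha' => hv1 a ha, hv2⟩

/-- The next step. -/
theorem AV.next [Finite T] {W : VS M0} {K1 : Type u} [Field K1] [Algebra k K1]
    [Algebra L K1] [Algebra K K1] [IsScalarTower k L K1] [IsScalarTower k K K1]
    [IsScalarTower L K K1] {T1 I1 : Type} [Fintype I1]
    {M1 : LM (⊥ : Subalgebra k K1) ⊤ T1 I1} {π1 : T1 → T} {Θ1 : I1 → I → ℤ} {W1 : VS M}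
    (ho : Pool.Agent.TH188.WQ.Ovr M0 M π Θ) (hS1 : AV W1 M1 π1 Θ1)
    (h : ∀ t (κ : Type u) [Field κ] [Algebra k κ] (φ : M.A t →ₐ[k] κ)
      (ψ : M0.A (π t) →ₐ[k] κ),
      (∀ a (ha : a ∈ M0.A (π t)), φ ⟨algebraMap L K a, ho.le t a ha⟩ = ψ ⟨a, ha⟩) →
      ∀ v0 : LT ψ (M0.x (π t)), W (π t) κ ψ v0 →
      ∃ v : LT φ (M.x t), Cp v0 v Θ ∧ W1 t κ φ v) :
    AV W M1 (fun t => π (π1 t)) (fun i1 i0 => ∑ i, Θ1 i1 i * Θ i i0) := by
  refine ⟨ho.comp hS1.ov, ?_⟩
  intro t κ _ _ φ ψ hψ v0 hK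
  have hle := ho.le (π1 t)
  have hψ' : ∀ a (ha : a ∈ M0.A (π (π1 t))), (φ.comp (Pool.Agent.TH188.WQ.ci (hS1.ov.le t)))
      ⟨algebraMap L K a, hle a ha⟩ = ψ ⟨a, ha⟩ := by
    intro a ha
    rw [← hψ a ha]
    change φ ⟨_, _⟩ = _
    congr 1
    exact Subtype.ext (IsScalarTower.algebraMap_apply L K K1 a).symm
  obtain ⟨v, hv, hvW⟩ := h (π1 t) κ (φ.comp (Pool.Agent.TH188.WQ.ci (hS1.ov.le t))) ψ hψ' v0 hK
  obtain ⟨v1, hc1⟩ := hS1.lf t κ φ _ (fun a ha => rfl) v hvW
  exact ⟨v1, hv.comp hle hc1⟩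

theorem AV.mono {W W' : VS M0} (hS : AV W M π Θ)
    (h : ∀ t (κ : Type u) [Field κ] [Algebra k κ] (ψ : M0.A t →ₐ[k] κ) (v : LT ψ (M0.x t)),
      W' t κ ψ v → W t κ ψ v) : AV W' M π Θ :=
  ⟨hS.ov, fun t κ _ _ φ ψ hψ v0 hv => hS.lf t κ φ ψ hψ v0 (h _ _ _ _ hv)⟩

/-- Transport. -/
theorem AV.surj {W : VS M0} (hS : AV W M π Θ) (K1 : Type u) [Field K1] [Algebra k K1]
    [Algebra L K1] [Algebra K K1] [IsScalarTower k L K1] [IsScalarTower k K K1]
    [IsScalarTower L K K1] (hsurj : Function.Surjective (algebraMap K K1)) :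
    AV W (mapLM (K := K1) M) π Θ := by
  classical
  have hinj : Function.Injective (em k K K1) := em_inj
  have key : ∀ a, algebraMap L K1 a = em k K K1 (algebraMap L K a) := fun a =>
    IsScalarTower.algebraMap_apply L K K1 a
  have hmon : ∀ t (m : I → ℤ), ∏ i, (mapLM (K := K1) M).x t i ^ m i =
      em k K K1 (∏ i, M.x t i ^ m i) := by
    intro t m
    rw [map_prod]
    refine Finset.prod_congr rfl fun i _ => ?_
    rw [map_zpow₀]
    rfl
  have hle : ∀ t, ∀ a ∈ M0.A (π t), algebraMap L K1 a ∈ (mapLM (K := K1) M).A t := by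
    intro t a ha
    rw [key]
    exact ⟨_, hS.ov.le t a ha, rfl⟩
  refine ⟨⟨hle, ?_, hS.ov.Θ0⟩, ?_⟩
  · intro t i0
    rw [hmon, key, hS.ov.x]
  · intro t κ _ _ φ ψ hψ v0 hK
    obtain ⟨v, hv⟩ := hS.lf t κ (φ.comp (eqv (K := K1) (M.A t)).toAlgHom) ψ (by
      intro a ha
      rw [← hψ a ha]
      change φ (eqv (K := K1) (M.A t) ⟨_, _⟩) = φ ⟨_, _⟩
      congr 1
      exact Subtype.ext (key a).symm) v0 hK
    obtain ⟨v', he, hD⟩ := exists_lt M t φ v
    refine ⟨v', ?_, ?_, ?_⟩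
    · intro a ha ha'
      exact hψ a ha
    · intro a ha ha'
      have h1 := hD (algebraMap L K a) (hS.ov.le t a ha) ((key a) ▸ ha')
      have e1 : (⟨algebraMap L K1 a, ha'⟩ : (mapLM (K := K1) M).A t) =
        ⟨em k K K1 (algebraMap L K a), (key a) ▸ ha'⟩ := Subtype.ext (key a)
      rw [e1, h1, hv.dd a ha]
    · intro i0
      rw [he]
      exact hv.ee i0

/-- The identity. -/
theorem AV.refl (W : VS M0) :
    AV (K := L) W M0 id (by classical exact fun i j => if i = j then 1 else 0) := by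
  classical
  refine ⟨⟨fun t a ha => ha, ?_, ?_⟩, ?_⟩
  · intro t i0
    change M0.x t i0 = _
    rw [Finset.prod_eq_single i0]
    · rw [if_pos rfl, zpow_one]
    · intro b _ hb
      rw [if_neg hb, zpow_zero]
    · intro h
      exact absurd (Finset.mem_univ _) h
  · intro i j
    split_ifs <;> norm_num
  · intro t κ _ _ φ ψ hψ v0 _
    have hφψ : φ = ψ := AlgHom.ext fun a => hψ a a.2
    subst hφψ
    refine ⟨v0, fun a ha ha' => rfl, fun a ha ha' => rfl, ?_⟩
    intro i0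
    rw [Finset.sum_eq_single i0]
    · rw [if_pos rfl]; push_cast; rw [one_mul]
    · intro b _ hb
      rw [if_neg hb]; push_cast; rw [zero_mul]
    · intro h
      exact absurd (Finset.mem_univ _) h

lemma ovr_ov {T' I' : Type} [Fintype I'] {M' : LM (⊥ : Subalgebra k K) ⊤ T' I'} {π' : T' → T}
    {Θ' : I' → I → ℤ} (hO : Ov M M' π' Θ') (hΘ : ∀ i' i, 0 ≤ Θ' i' i) :
    Pool.Agent.TH188.WQ.Ovr (k := k) (L := K) (N := K) M M' π' Θ' :=
  ⟨fun t a ha => hO.le t ha, fun t i => hO.x t i, hΘ⟩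

/-- Logarithmic modifications. -/
theorem AV.ov' [Finite T] {W : VS M0} (hS : AV W M π Θ) {T' I' : Type} [Fintype I']
    {M' : LM (⊥ : Subalgebra k K) ⊤ T' I'} {π' : T' → T}
    {Θ' : I' → I → ℤ} (hO : Ov M M' π' Θ') (hΘ : ∀ i' i, 0 ≤ Θ' i' i) :
    AV W M' (fun t => π (π' t)) (fun i' i0 => ∑ i, Θ' i' i * Θ i i0) := by
  have h1 : AV (K := K) (M0 := M) (fun _ _ _ _ _ _ => True) M' π' Θ' := by
    refine ⟨ovr_ov hO hΘ, ?_⟩
    intro t κ _ _ φ ψ hψ v0 _
    have hφψ : φ.comp (Subalgebra.inclusion (hO.le t)) = ψ := AlgHom.ext fun a => hψ a a.2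
    subst hφψ
    obtain ⟨v, hv1, hv2⟩ := hO.lt t κ φ v0
    exact ⟨v, fun a ha ha' => rfl, fun a ha ha' => hv1 a ha, hv2⟩
  refine AV.next hS.ov h1 ?_
  intro t κ _ _ φ ψ hψ v0 hv
  obtain ⟨v, hv⟩ := hS.lf t κ φ ψ hψ v0 hv
  exact ⟨v, hv, trivial⟩

/-- Monomials on the image of a model. -/
lemma fn_map {G : Type} {g : G → L} {Γ : G → I0 → ℤ} (hG : Fn M0 g Γ) :
    Fn (mapLM (K := K) M0) (fun b => algebraMap L K (g b)) Γ := by
  intro b t
  obtain ⟨w, hw0, hw, hw', h1⟩ := hG b t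
  have hinj : Function.Injective (em k L K) := em_inj
  refine ⟨em k L K w, (map_ne_zero_iff _ hinj).2 hw0, ⟨w, hw, rfl⟩,
    ⟨w⁻¹, hw', map_inv₀ (em k L K) w⟩, ?_⟩
  have h2 : ∏ i, (mapLM (K := K) M0).x t i ^ Γ b i = em k L K (∏ i, M0.x t i ^ Γ b i) := by
    rw [map_prod]
    refine Finset.prod_congr rfl fun i _ => ?_
    rw [map_zpow₀]
    rfl
  rw [h2, ← map_mul]
  exact congrArg _ h1

lemma frc_map (hR : Frc M0) (hsurj : Function.Surjective (algebraMap L K)) :
    Frc (mapLM (K := K) M0) := by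
  intro t x
  have hinj : Function.Injective (em k L K) := em_inj
  obtain ⟨l, rfl⟩ := hsurj x
  obtain ⟨c, hc, d, hd, hd0, h1⟩ := hR t l
  refine ⟨em k L K c, ⟨c, hc, rfl⟩, em k L K d, ⟨d, hd, rfl⟩,
    (map_ne_zero_iff _ hinj).2 hd0, ?_⟩
  change em k L K l = _
  rw [h1, map_mul, map_inv₀]

end av

section asstep

variable {p : ℕ} [Fact p.Prime] {k L K : Type u} [Field k] [PerfectField k] [CharP k p] [Field L]
  [Field K] [Algebra k L] [Algebra k K] [Algebra L K] [IsScalarTower k L K] [CharP L p] [CharP K p]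
  {T I G : Type} [Finite T] [Fintype I] {B : LM (⊥ : Subalgebra k L) ⊤ T I} {f : L} {n0 : I → ℤ}
  {a0 h0 : T → L} {g : G → L} {Γ : G → I → ℤ}

omit [PerfectField k] in
lemma surj_of_deg {b : L} (hb : b ^ p - b = f) {z : K} (hz : z ^ p - z = algebraMap L K f)
    (hgen0 : IntermediateField.adjoin L {z} = ⊤) : Function.Surjective (algebraMap L K) ∧
      ∃ b' : L, b' ^ p - b' = f ∧ algebraMap L K b' = z := by
  have h1 : (z - algebraMap L K b) ^ p = z - algebraMap L K b := by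
    rw [sub_pow_char]
    have h2 : algebraMap L K b ^ p - algebraMap L K b = z ^ p - z := by
      rw [← map_pow, ← map_sub, hb, hz]
    linear_combination -h2
  obtain ⟨c, hc⟩ := Pool.Agent.W558.zc_of_pow p _ h1
  have h2 : z = algebraMap L K (b + zc p L c) := by
    rw [map_add, alg_zc]
    linear_combination hc
  refine ⟨?_, b + zc p L c, ?_, h2.symm⟩
  · have h4 : IntermediateField.adjoin L {z} = ⊥ := by
      rw [IntermediateField.adjoin_simple_eq_bot_iff, h2]
      exact IntermediateField.algebraMap_mem _ _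
    rw [h4] at hgen0
    intro y
    have h5 : y ∈ (⊤ : IntermediateField L K) := trivial
    rw [← hgen0] at h5
    exact IntermediateField.mem_bot.1 h5
  · rw [add_pow_char, Pool.Agent.W558.zc_pow]
    linear_combination hb

/-- One Artin-Schreier extension. -/
theorem as_step (hN : NAS p B f n0 a0 h0) (hR : Frc B) (hG : Fn B g Γ) (z : K)
    (hz : z ^ p - z = algebraMap L K f) (hgen0 : IntermediateField.adjoin L {z} = ⊤) :
    ∃ (T' I' : Type) (_ : Finite T') (_ : Fintype I') (M' : LM (⊥ : Subalgebra k K) ⊤ T' I')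
      (π : T' → T) (Θ : I' → I → ℤ) (Γ' : G → I' → ℤ),
      AV (WP B n0 h0 hN.hA) M' π Θ ∧ Fn M' (fun b => algebraMap L K (g b)) Γ' ∧ Frc M' := by
  classical
  have hp : p.Prime := Fact.out
  have hall := wt_pack.{u}
  by_cases hzL : ∃ b : L, b ^ p - b = f
  · obtain ⟨b, hb⟩ := hzL
    obtain ⟨hsurj, -⟩ := surj_of_deg hb hz hgen0
    refine ⟨T, I, inferInstance, inferInstance, mapLM (K := K) B, id, _, Γ,
      (AV.refl (WP B n0 h0 hN.hA)).surj K hsurj, fn_map hG, frc_map hR hsurj⟩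
  · push Not at hzL
    have hgen : ∀ y : K, ∃ P : L[X], aeval z P = y := by
      intro y
      have hint : IsIntegral L z := by
        refine ⟨X ^ p - (X + C f), ?_, ?_⟩
        · apply monic_X_pow_sub
          rw [degree_X_add_C]
          exact_mod_cast hp.one_lt
        · rw [← aeval_def, map_sub, map_add, map_pow, aeval_X, aeval_C, ← hz]
          ring
      have h8 : y ∈ Algebra.adjoin L {z} := by
        have h9 : y ∈ (IntermediateField.adjoin L {z}).toSubalgebra := by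
          rw [hgen0]; trivial
        rwa [IntermediateField.adjoin_simple_toSubalgebra_of_isAlgebraic hint.isAlgebraic] at h9
      rw [Algebra.adjoin_singleton_eq_range_aeval] at h8
      exact h8
    have hirr : Irreducible (X ^ p - X - C f : L[X]) := hall.irr p L f hzL
    have hF : Prime (X ^ p - X - C f : L[X]) := hirr.prime
    have hz0 : aeval z (X ^ p - X - C f : L[X]) = 0 := by
      rw [map_sub, map_sub, map_pow, aeval_X, aeval_C, hz, sub_self]
    have hmon : (X ^ p - X - C f : L[X]).Monic := by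
      have h1 : (X ^ p - X - C f : L[X]) = X ^ p - (X + C f) := by ring
      rw [h1]
      apply monic_X_pow_sub
      rw [degree_X_add_C]
      exact_mod_cast hp.one_lt
    have hz' : ∀ P : L[X], aeval z P = 0 ↔ (X ^ p - X - C f : L[X]) ∣ P := by
      intro P
      have h1 : minpoly L z = X ^ p - X - C f :=
        (minpoly.eq_of_irreducible_of_monic hirr hz0 hmon).symm
      rw [← h1]
      exact (minpoly.dvd_iff).symm
    let N' := FractionRing L[X]
    let Z : N' := algebraMap L[X] N' X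
    have hZ : ∀ P : L[X], aeval Z P = algebraMap L[X] N' P := by
      intro P
      have h1 : aeval Z = IsScalarTower.toAlgHom L L[X] N' := by
        ext; simp [Z]
      rw [h1]; rfl
    have htr : Transcendental L Z := by
      rw [transcendental_iff]
      intro P hP
      rw [hZ] at hP
      exact (FaithfulSMul.algebraMap_eq_zero_iff L[X] N').1 hP
    have hfr : ∀ x : N', ∃ P P' : L[X], P' ≠ 0 ∧ x * aeval Z P' = aeval Z P := by
      intro x
      obtain ⟨P, P', hP, rfl⟩ := IsFractionRing.div_surjective (A := L[X]) x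
      have h0 := nonZeroDivisors.ne_zero hP
      refine ⟨P, P', h0, ?_⟩
      rw [hZ, hZ, div_mul_cancel₀ _ (alg_ne_zero h0)]
    have hQ : IsQA p Z f (FQ (k := k) hF) := by
      intro x
      simp only [hZ]
      exact mem_FQ hF
    obtain ⟨T1, I1, hT1, hI1, M1, y1, c1, μ1, Γ1, hP1, hL1, hF1⟩ :=
      hall.bun p k L N' T I G B f n0 _ h0 g Γ hN hR hG hzL Z
        htr hfr (FQ (k := k) hF) hQ
    obtain ⟨T2, I2, hT2, hI2, M2, y2, c2, μ2, Γ2, hP2, hL2, hF2, hfin⟩ :=
      hall.ppr p k L N' T I T1 I1 G B f n0 _ h0 M1 _ (FQ (k := k) hF) y1 c1 μ1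
        (fun b => algebraMap L N' (g b)) Γ1 hN hP1 hL1 hF1
    have eF : Z ^ p - Z - algebraMap L N' f = algebraMap L[X] N' (X ^ p - X - C f) := by
      rw [← hZ, map_sub, map_sub, map_pow, aeval_X, aeval_C]
    rw [eF] at hP2
    obtain ⟨T3, I3, hT3, hI3, M3, π', Θ', ho, Γ3, hCL, hF3, hR3⟩ :=
      hall.pcut p k L N' K T I T2 I2 G B f n0 _ h0 M2 _ (FQ (k := k) hF) y2 c2 μ2
        g Γ2
        hN hP2 hL2 hF2 hfin (mem_FQ_of hF) (alg_ne_zero hF.ne_zero) (piZ hF z hz')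
        (piZ_eq_zero hF z hz') (piZ_surj hF z hz' hgen) (FQ_total hF) (by
          intro l hl
          have h1 : algebraMap L N' l = algebraMap L[X] N' (C l) := by
            rw [← hZ, aeval_C]
          have h2 : (⟨algebraMap L N' l, hl⟩ : FQ (k := k) hF) =
              ⟨algebraMap L[X] N' (C l), mem_FQ_of hF⟩ := Subtype.ext h1
          rw [h2, piZ_alg, aeval_C])
    exact ⟨T3, I3, hT3, hI3, M3, π', Θ', Γ3, AV.of_clift ho hCL, hF3, hR3⟩

end asstep

end Pool.Agent.K3h19.Witt
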