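import Pool.Agent.K3h19.Witt.WNas

/-!
# Two successive Artin-Schreier extensions
-/

set_option autoImplicit false
set_option linter.unusedVariables false
set_option linter.unusedSectionVars false

universe u

open Polynomial

namespace Pool.Agent.K3h19.Witt

open Pool.Agent.W558 Pool.Agent.W498.Tor Pool.Agent.TH188.WP
open Pool.Agent.TH188.WQ (Cp exists_lt lc om_lc)
open Pool.Agent.H176.Mix (Pole ovr_of ovr_to pole_pull Small int_of_base small_om)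

section defs

variable {k L : Type u} [Field k] [Field L] [Algebra k L] {T I : Type} [Fintype I]

/-- At the point `ψ` the poles of `Φ (z)` dominate those of `x ^ n1`. -/
def Dmn (p m : ℕ) (B : LM (⊥ : Subalgebra k L) ⊤ T I) (n0 : I → ℤ) (h0 : T → L)
    (hA : ∀ t, h0 t ∈ B.A t) (n1 : I → ℤ) (t : T) {κ : Type u} [Field κ] [Algebra k κ]
    (ψ : B.A t →ₐ[k] κ) : Prop :=
  Pole B t ψ n0 ∧ ψ ⟨h0 t, hA t⟩ ≠ 0 ∧
    ∀ l, ψ ⟨B.x t l, B.xA t l⟩ = 0 → (m : ℤ) * n0 l ≤ p * n1 l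

/-- The condition on the logarithmic tangent vectors which can be lifted. -/
def WB (p m : ℕ) (B : LM (⊥ : Subalgebra k L) ⊤ T I) (n0 : I → ℤ) (h0 : T → L)
    (hA : ∀ t, h0 t ∈ B.A t) (n1 : I → ℤ) (h1 : T → L) (h1A : ∀ t, h1 t ∈ B.A t) : VS B :=
  fun t κ _ _ ψ v => (Pole B t ψ n0 → om v n0 (hA t) = 0) ∧
    (Pole B t ψ n1 → ¬ Dmn p m B n0 h0 hA n1 t ψ → om v n1 (h1A t) = 0)

end defs

section block

variable {p : ℕ} [Fact p.Prime] {k L K : Type u} [Field k] [PerfectField k] [CharP k p] [Field L]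
  [Field K] [Algebra k L] [Algebra k K] [Algebra L K] [IsScalarTower k L K] [CharP L p] [CharP K p]
  {T0 I0 T I : Type} [Fintype I0] [Fintype I]
  {B : LM (⊥ : Subalgebra k L) ⊤ T0 I0} {M : LM (⊥ : Subalgebra k K) ⊤ T I}
  {π : T → T0} {Θ : I → I0 → ℤ}
  {ho : Pool.Agent.W558.Ovr B M π Θ} {n0 : I0 → ℤ} {h0 : T0 → L} {hA : ∀ t, h0 t ∈ B.A t} {z : K}
  {y : T → K} {μ : I → ℤ} {m : ℕ} {n1 : I0 → ℤ}

omit [PerfectField k] in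
/-- If the poles of `g` dominate on a component, they are not dominated at the image point. -/
lemma not_dmn (hZ : ZM p ho n0 h0 hA z y μ m n1) (t : T) {κ : Type u} [Field κ]
    [Algebra k κ] (φ : M.A t →ₐ[k] κ) {i : I} (hi : ∑ i0, Θ i i0 * n1 i0 < (m : ℤ) * μ i)
    (hi0 : φ ⟨M.x t i, M.xA t i⟩ = 0) (ψ : B.A (π t) →ₐ[k] κ)
    (hψ : ∀ a (ha : a ∈ B.A (π t)), φ ⟨algebraMap L K a, ho.le t a ha⟩ = ψ ⟨a, ha⟩) :
    ¬ Dmn p m B n0 h0 hA n1 (π t) ψ := by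
  rintro ⟨⟨i0, h1, h2⟩, h3, h4⟩
  have hpp : (0 : ℤ) < p := by exact_mod_cast (Fact.out : p.Prime).pos
  obtain ⟨-, h5⟩ := hZ.dm t κ φ ⟨i0, h1, by rw [hψ]; exact h2⟩ (by rw [hψ]; exact h3)
  have h6 := h5 i hi0
  have h7 : ∑ i0, Θ i i0 * ((m : ℤ) * n0 i0) ≤ ∑ i0, Θ i i0 * ((p : ℤ) * n1 i0) := by
    refine Finset.sum_le_sum fun l _ => ?_
    rcases lt_or_eq_of_le (ho.Θ0 i l) with h8 | h8
    · refine mul_le_mul_of_nonneg_left (h4 l ?_) h8.le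
      rw [← hψ]
      exact Pool.Agent.W32.WT.zero_pull ho t φ i l h8 hi0
    · rw [← h8, zero_mul, zero_mul]
  have h8 : ∑ i0, Θ i i0 * ((m : ℤ) * n0 i0) = (m : ℤ) * ∑ i0, Θ i i0 * n0 i0 := by
    rw [Finset.mul_sum]
    exact Finset.sum_congr rfl fun i _ => by ring
  have h9 : ∑ i0, Θ i i0 * ((p : ℤ) * n1 i0) = (p : ℤ) * ∑ i0, Θ i i0 * n1 i0 := by
    rw [Finset.mul_sum]
    exact Finset.sum_congr rfl fun i _ => by ring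
  rw [h8, h9, ← h6] at h7
  have h10 : (p : ℤ) * ((m : ℤ) * μ i) ≤ (p : ℤ) * ∑ i0, Θ i i0 * n1 i0 := by
    linarith [h7]
  have h11 := le_of_mul_le_mul_left h10 hpp
  omega

omit [PerfectField k] in
/-- The normal form of `g + Φ (z)`. -/
theorem nas_w (hZ : ZM p ho n0 h0 hA z y μ m n1) (hS : AV (WP B n0 h0 hA) M π Θ)
    {Φ : k[X]} (hΦ : Φ.natDegree = m)
    (hpm : ¬ p ∣ m) (hn1 : ∀ i0, n1 i0 ≤ 0) {h1 : T0 → L} (h1A : ∀ t, h1 t ∈ B.A t)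
    {h' : T → K} (h'A : ∀ t, h' t ∈ M.A t)
    (hh' : ∀ t (κ : Type u) [Field κ] [Algebra k κ] (φ : M.A t →ₐ[k] κ) (v : LT φ (M.x t)),
      Pole M t φ (fun i => ∑ i0, Θ i i0 * n1 i0) →
      om v (fun i => ∑ i0, Θ i i0 * n1 i0) (h'A t) =
        om v (fun i => ∑ i0, Θ i i0 * n1 i0) (ho.le t _ (h1A (π t))))
    (hcmp : ∀ t, (∀ i, (m : ℤ) * μ i ≤ ∑ i0, Θ i i0 * n1 i0 ∨ (M.x t i)⁻¹ ∈ M.A t) ∨
        (∀ i, ∑ i0, Θ i i0 * n1 i0 ≤ (m : ℤ) * μ i ∨ (M.x t i)⁻¹ ∈ M.A t))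
    (hln : ∀ t (κ : Type u) [Field κ] [Algebra k κ] (ψ : B.A t →ₐ[k] κ), Pole B t ψ n1 →
      ¬ Dmn p m B n0 h0 hA n1 t ψ → ∃ v : LT ψ (B.x t),
        (Pole B t ψ n0 → om v n0 (hA t) = 0) ∧ om v n1 (h1A t) ≠ 0)
    {f : K} {b : T → K}
    (hf : ∀ t, f = b t ^ p - b t + ((∏ i, M.x t i ^ ∑ i0, Θ i i0 * n1 i0) * h' t + aeval z Φ)) :
    NAS p M f (NN μ m fun i => ∑ i0, Θ i i0 * n1 i0) b
      (HH M μ m (fun i => ∑ i0, Θ i i0 * n1 i0) h' z Φ) := by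
  refine ⟨?_, HH_mem hZ hΦ _ h'A, ?_, ?_⟩
  · intro i
    have h1 := min_le_left ((m : ℤ) * μ i) (∑ i0, Θ i i0 * n1 i0)
    have h2 : (m : ℤ) * μ i ≤ 0 :=
      mul_nonpos_of_nonneg_of_nonpos (Int.natCast_nonneg m) (hZ.m0 i)
    exact h1.trans h2
  · intro t
    have hx0 := M.x0 t
    have e1 : (∏ i, M.x t i ^ NN μ m (fun i => ∑ i0, Θ i i0 * n1 i0) i) *
        (∏ i, M.x t i ^ (∑ i0, Θ i i0 * n1 i0 - NN μ m (fun i => ∑ i0, Θ i i0 * n1 i0) i)) =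
        ∏ i, M.x t i ^ ∑ i0, Θ i i0 * n1 i0 := by
      rw [← Finset.prod_mul_distrib]
      refine Finset.prod_congr rfl fun i _ => ?_
      rw [← zpow_add₀ (hx0 i)]
      congr 1
      ring
    have e2 : (∏ i, M.x t i ^ NN μ m (fun i => ∑ i0, Θ i i0 * n1 i0) i) *
        (∏ i, M.x t i ^ (-NN μ m (fun i => ∑ i0, Θ i i0 * n1 i0) i)) = 1 := by
      rw [← Finset.prod_mul_distrib]
      refine Finset.prod_eq_one fun i _ => ?_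
      rw [← zpow_add₀ (hx0 i), add_neg_cancel, zpow_zero]
    unfold HH
    rw [hf t]
    linear_combination -h' t * e1 - aeval z Φ * e2
  · intro t κ _ _ φ hpole
    by_cases hc : ∃ i, ∑ i0, Θ i i0 * n1 i0 < (m : ℤ) * μ i ∧ φ ⟨M.x t i, M.xA t i⟩ = 0
    · obtain ⟨i, hi, hi0⟩ := hc
      obtain ⟨c, hc0, hc⟩ := case1 hZ hΦ _ h'A hcmp t κ φ hi hi0
      have hmi : (m : ℤ) * μ i ≤ 0 :=
        mul_nonpos_of_nonneg_of_nonpos (Int.natCast_nonneg m) (hZ.m0 i)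
      have hp1 : Pole M t φ (fun i => ∑ i0, Θ i i0 * n1 i0) := ⟨i, lt_of_lt_of_le hi hmi, hi0⟩
      let ψ : B.A (π t) →ₐ[k] κ := φ.comp (Pool.Agent.TH188.WQ.ci (hS.ov.le t))
      have hψ : ∀ a (ha : a ∈ B.A (π t)), φ ⟨algebraMap L K a, ho.le t a ha⟩ = ψ ⟨a, ha⟩ :=
        fun a ha => rfl
      have hp2 : Pole B (π t) ψ n1 := pole_pull hS.ov t φ ψ hψ hn1 (fun i => rfl) hp1
      obtain ⟨v0, hv1, hv2⟩ := hln (π t) κ ψ hp2 (not_dmn hZ t φ hi hi0 ψ hψ)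
      obtain ⟨v, hv⟩ := hS.lf t κ φ ψ hψ v0 hv1
      refine ⟨v, ?_⟩
      rw [hc v, hh' t κ φ v hp1, hv.om n1 (h1A (π t)) (ho.le t _ (h1A (π t)))]
      exact mul_ne_zero hc0 hv2
    · push Not at hc
      obtain ⟨v, -, -, hv⟩ := case2 hZ hΦ hpm hn1 h1A h'A hh' t κ φ (fun i hi => by
        by_contra hcon
        push Not at hcon
        exact hc i hcon hi) hpole
      exact ⟨v, hv⟩

omit [PerfectField k] in
/-- The lift of logarithmic tangent vectors. -/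
theorem lift_w (hZ : ZM p ho n0 h0 hA z y μ m n1) (hS : AV (WP B n0 h0 hA) M π Θ)
    {Φ : k[X]} (hΦ : Φ.natDegree = m)
    (hpm : ¬ p ∣ m) (hn1 : ∀ i0, n1 i0 ≤ 0) {h1 : T0 → L} (h1A : ∀ t, h1 t ∈ B.A t)
    {h' : T → K} (h'A : ∀ t, h' t ∈ M.A t)
    (hh' : ∀ t (κ : Type u) [Field κ] [Algebra k κ] (φ : M.A t →ₐ[k] κ) (v : LT φ (M.x t)),
      Pole M t φ (fun i => ∑ i0, Θ i i0 * n1 i0) →
      om v (fun i => ∑ i0, Θ i i0 * n1 i0) (h'A t) =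
        om v (fun i => ∑ i0, Θ i i0 * n1 i0) (ho.le t _ (h1A (π t))))
    (hcmp : ∀ t, (∀ i, (m : ℤ) * μ i ≤ ∑ i0, Θ i i0 * n1 i0 ∨ (M.x t i)⁻¹ ∈ M.A t) ∨
        (∀ i, ∑ i0, Θ i i0 * n1 i0 ≤ (m : ℤ) * μ i ∨ (M.x t i)⁻¹ ∈ M.A t))
    (t : T) (κ : Type u) [Field κ] [Algebra k κ] (φ : M.A t →ₐ[k] κ)
    (ψ : B.A (π t) →ₐ[k] κ)
    (hψ : ∀ a (ha : a ∈ B.A (π t)), φ ⟨algebraMap L K a, hS.ov.le t a ha⟩ = ψ ⟨a, ha⟩)
    (v0 : LT ψ (B.x (π t))) (hv0 : WB p m B n0 h0 hA n1 h1 h1A (π t) κ ψ v0) :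
    ∃ v : LT φ (M.x t), Cp v0 v Θ ∧
      WP M (NN μ m fun i => ∑ i0, Θ i i0 * n1 i0)
        (HH M μ m (fun i => ∑ i0, Θ i i0 * n1 i0) h' z Φ)
        (HH_mem hZ hΦ (fun i => ∑ i0, Θ i i0 * n1 i0) h'A) t κ φ v := by
  obtain ⟨v, hv⟩ := hS.lf t κ φ ψ hψ v0 hv0.1
  by_cases hpole : Pole M t φ (NN μ m fun i => ∑ i0, Θ i i0 * n1 i0)
  · by_cases hc : ∃ i, ∑ i0, Θ i i0 * n1 i0 < (m : ℤ) * μ i ∧ φ ⟨M.x t i, M.xA t i⟩ = 0
    · obtain ⟨i, hi, hi0⟩ := hc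
      obtain ⟨c, hc0, hc⟩ := case1 hZ hΦ _ h'A hcmp t κ φ hi hi0
      have hmi : (m : ℤ) * μ i ≤ 0 :=
        mul_nonpos_of_nonneg_of_nonpos (Int.natCast_nonneg m) (hZ.m0 i)
      have hp1 : Pole M t φ (fun i => ∑ i0, Θ i i0 * n1 i0) := ⟨i, lt_of_lt_of_le hi hmi, hi0⟩
      have hp2 : Pole B (π t) ψ n1 := pole_pull hS.ov t φ ψ hψ hn1 (fun i => rfl) hp1
      refine ⟨v, hv, fun _ => ?_⟩
      rw [hc v, hh' t κ φ v hp1, hv.om n1 (h1A (π t)) (ho.le t _ (h1A (π t))),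
        hv0.2 hp2 (not_dmn hZ t φ hi hi0 ψ hψ), mul_zero]
    · push Not at hc
      obtain ⟨v1, hv1, hv2, hv3⟩ := case2 hZ hΦ hpm hn1 h1A h'A hh' t κ φ (fun i hi => by
        by_contra hcon
        push Not at hcon
        exact hc i hcon hi) hpole
      generalize hr : om v1 (NN μ m fun i => ∑ i0, Θ i i0 * n1 i0)
        (HH_mem hZ hΦ (fun i => ∑ i0, Θ i i0 * n1 i0) h'A t) = r at hv3
      generalize hs : om v (NN μ m fun i => ∑ i0, Θ i i0 * n1 i0)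
        (HH_mem hZ hΦ (fun i => ∑ i0, Θ i i0 * n1 i0) h'A t) = s
      refine ⟨lc 1 (-(s / r)) v v1, ⟨hv.vv, ?_, ?_⟩, fun _ => ?_⟩
      · intro a ha ha'
        change (TV.comb 1 (-(s / r)) v.D v1.D).D _ = _
        rw [TV.comb_D, hv1 a ha, hv.dd a ha, mul_zero, add_zero, one_mul]
      · intro i0
        change ∑ i, (Θ i i0 : κ) * (1 * v.e i + -(s / r) * v1.e i) = _
        have e1 : ∑ i, (Θ i i0 : κ) * (1 * v.e i + -(s / r) * v1.e i) =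
            ∑ i, (Θ i i0 : κ) * v.e i + -(s / r) * ∑ i, (Θ i i0 : κ) * v1.e i := by
          rw [Finset.mul_sum, ← Finset.sum_add_distrib]
          exact Finset.sum_congr rfl fun i _ => by ring
        rw [e1, hv2 i0, mul_zero, add_zero]
        exact hv.ee i0
      · rw [om_lc, hr, hs]
        field_simp
        ring
  · exact ⟨v, hv, fun h => absurd h hpole⟩

end block

end Pool.Agent.K3h19.Witt
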