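import Pool.Agent.K3h19.Witt.Block

/-!
# Two successive Artin-Schreier extensions: the model
-/

set_option autoImplicit false
set_option linter.unusedVariables false
set_option linter.unusedSectionVars false

universe u

open Polynomial

namespace Pool.Agent.K3h19.Witt

open Pool.Agent.W558 Pool.Agent.W498.Tor Pool.Agent.TH188.WP
open Pool.Agent.TH188.WQ (Cp exists_lt lc om_lc)
open Pool.Agent.H176.Mix (Pole ovr_of ovr_to pole_pull Small int_of_base small_om)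

section small

variable {k L : Type u} [Field k] [Field L] [Algebra k L] {T0 I0 : Type} [Fintype I0]
  {M0 : LM (⊥ : Subalgebra k L) ⊤ T0 I0}
  {K : Type u} [Field K] [Algebra k K] [Algebra L K] [IsScalarTower k L K]
  {T I : Type} [Fintype I] {M : LM (⊥ : Subalgebra k K) ⊤ T I} {π : T → T0}
  {Θ : I → I0 → ℤ}

/-- Small functions vanish at the poles. -/
lemma small_zero (ho : Pool.Agent.TH188.WQ.Ovr M0 M π Θ) (hR : Frc M) (t : T) {m : I0 → ℤ}
    (hm : ∀ i, m i ≤ 0) {y : K} (hy : Small M0 m (π t) y) {N : I → ℤ}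
    (hN : ∀ i, N i = ∑ i0, Θ i i0 * m i0) (hyA : y ∈ M.A t)
    (κ : Type u) [Field κ] [Algebra k κ] (φ : M.A t →ₐ[k] κ) (hp : Pole M t φ N) :
    φ ⟨y, hyA⟩ = 0 := by
  classical
  have := M.sm t
  obtain ⟨i, hi, h0⟩ := hp
  rw [hN] at hi
  obtain ⟨i0, _, hi0⟩ := Finset.exists_lt_of_sum_lt (s := Finset.univ)
    (f := fun i0 => Θ i i0 * m i0) (g := fun _ => (0 : ℤ)) (by simpa using hi)
  have hn1 : m i0 < 0 := by
    rcases lt_or_eq_of_le (hm i0) with h1 | h1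
    · exact h1
    · rw [h1, mul_zero] at hi0
      exact absurd hi0 (lt_irrefl _)
  have hΘ1 : 0 < Θ i i0 := by
    rcases lt_or_eq_of_le (ho.Θ0 i i0) with h1 | h1
    · exact h1
    · rw [← h1, zero_mul] at hi0
      exact absurd hi0 (lt_irrefl _)
  obtain ⟨e, he, hint⟩ := hy.2 i0 hn1
  have hc := int_of_base ho hR t hint
  have hx0 : algebraMap L K (M0.x (π t) i0) ≠ 0 := by
    rw [_root_.map_ne_zero]
    exact M0.x0 _ _
  have hz : φ ⟨algebraMap L K (M0.x (π t) i0), ho.le t _ (M0.xA (π t) i0)⟩ = 0 :=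
    Pool.Agent.W32.WT.zero_pull (ovr_to ho) t φ i i0 hΘ1 h0
  have h1 : (⟨y, hyA⟩ : M.A t) ^ e =
      ⟨algebraMap L K (M0.x (π t) i0), ho.le t _ (M0.xA (π t) i0)⟩ * ⟨_, hc⟩ := by
    apply Subtype.ext
    change y ^ e = algebraMap L K (M0.x (π t) i0) * (y ^ e * algebraMap L K (M0.x (π t) i0)⁻¹)
    rw [map_inv₀]
    field_simp
  have h2 := congrArg φ h1
  rw [map_pow, map_mul, hz, zero_mul] at h2
  exact (pow_eq_zero_iff he.ne').1 h2

/-- Small functions are small over a model which lies over the given one. -/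
lemma small_pull (ho : Pool.Agent.TH188.WQ.Ovr M0 M π Θ) (t : T) {m : I0 → ℤ}
    (hm : ∀ i, m i ≤ 0) {K1 : Type u} [Field K1] [Algebra k K1] [Algebra L K1] [Algebra K K1]
    [IsScalarTower k L K1] [IsScalarTower k K K1] [IsScalarTower L K K1] {y : K1}
    (hy : Small M0 m (π t) y) : Small M (fun i => ∑ i0, Θ i i0 * m i0) t y := by
  classical
  have hint : ∀ {w : K1}, IsIntegral (M0.A (π t)) w → IsIntegral (M.A t) w := by
    rintro w ⟨P, hP, hP0⟩
    let φ : M0.A (π t) →+* M.A t := (Pool.Agent.TH188.WQ.ci (ho.le t)).toRingHom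
    refine ⟨P.map φ, hP.map φ, ?_⟩
    rw [eval₂_map]
    have h1 : (algebraMap (M.A t) K1).comp φ = algebraMap (M0.A (π t)) K1 := by
      ext a
      change algebraMap K K1 (algebraMap L K a) = algebraMap L K1 a
      exact (IsScalarTower.algebraMap_apply L K K1 _).symm
    rw [h1]
    exact hP0
  refine ⟨hint hy.1, ?_⟩
  intro i hi
  obtain ⟨i0, _, hi0⟩ := Finset.exists_lt_of_sum_lt (s := Finset.univ)
    (f := fun i0 => Θ i i0 * m i0) (g := fun _ => (0 : ℤ)) (by simpa using hi)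
  have hn1 : m i0 < 0 := by
    rcases lt_or_eq_of_le (hm i0) with h1 | h1
    · exact h1
    · rw [h1, mul_zero] at hi0
      exact absurd hi0 (lt_irrefl _)
  have hΘ1 : 0 < Θ i i0 := by
    rcases lt_or_eq_of_le (ho.Θ0 i i0) with h1 | h1
    · exact h1
    · rw [← h1, zero_mul] at hi0
      exact absurd hi0 (lt_irrefl _)
  obtain ⟨e, he, h1⟩ := hy.2 i0 hn1
  refine ⟨e, he, ?_⟩
  obtain ⟨r, hr, hr'⟩ := mon_dvd (B := M) t (E := fun l => Θ l i0) (fun j => ho.Θ0 j i0) (i := i)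
    (by omega)
  have hx0 : algebraMap L K1 (M0.x (π t) i0) ≠ 0 := by
    rw [_root_.map_ne_zero]
    exact M0.x0 _ _
  have h2 : algebraMap L K1 (M0.x (π t) i0) = algebraMap K K1 (M.x t i) * algebraMap K K1 r := by
    rw [IsScalarTower.algebraMap_apply L K K1, ho.x, hr', map_mul]
  have hr0 : IsIntegral (M.A t) (algebraMap K K1 r) := by
    have h3 : algebraMap K K1 r = algebraMap (M.A t) K1 ⟨r, hr⟩ := rfl
    rw [h3]
    exact isIntegral_algebraMap
  have h3 : y ^ e * algebraMap K K1 (M.x t i)⁻¹ =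
      (y ^ e * algebraMap L K1 (M0.x (π t) i0)⁻¹) * algebraMap K K1 r := by
    have h4 : algebraMap K K1 (M.x t i) ≠ 0 := left_ne_zero_of_mul (h2 ▸ hx0)
    have h5 : algebraMap K K1 r ≠ 0 := right_ne_zero_of_mul (h2 ▸ hx0)
    rw [map_inv₀, map_inv₀, h2]
    field_simp
  rw [h3]
  exact (hint h1).mul hr0

end small

section block

variable {p : ℕ} [Fact p.Prime] {k L K0 K : Type u} [Field k] [PerfectField k] [CharP k p] [Field L]
  [Field K0] [Field K] [Algebra k L] [Algebra k K0] [Algebra L K0] [IsScalarTower k L K0]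
  [Algebra k K] [Algebra L K] [Algebra K0 K] [IsScalarTower k L K] [IsScalarTower k K0 K]
  [IsScalarTower L K0 K] [CharP L p] [CharP K0 p] [CharP K p]
  {T I G : Type} [Finite T] [Fintype I] {B : LM (⊥ : Subalgebra k L) ⊤ T I} {f g' : L}
  {n0 n1 : I → ℤ} {h0 h1 b : T → L} {g : G → L} {Γ : G → I → ℤ}

/-- Two Artin-Schreier extensions, where the second one is given by a polynomial in the generator
of the first one. -/
theorem block (hN : NAS p B f n0 (fun _ => 0) h0) (hR : Frc B) (hG : Fn B g Γ)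
    (hn1 : ∀ i, n1 i ≤ 0) (h1A : ∀ t, h1 t ∈ B.A t)
    (h1e : ∀ t, g' = b t ^ p - b t + (∏ i, B.x t i ^ n1 i) * h1 t)
    {m : ℕ} {Φ : k[X]} (hΦ : Φ.natDegree = m) (hpm : ¬ p ∣ m)
    (hln : ∀ t (κ : Type u) [Field κ] [Algebra k κ] (ψ : B.A t →ₐ[k] κ), Pole B t ψ n1 →
      ¬ Dmn p m B n0 h0 hN.hA n1 t ψ → ∃ v : LT ψ (B.x t),
        (Pole B t ψ n0 → om v n0 (hN.hA t) = 0) ∧ om v n1 (h1A t) ≠ 0)
    (z : K0) (hz : z ^ p - z = algebraMap L K0 f)
    (hgen0 : IntermediateField.adjoin L {z} = ⊤) (gK : K0)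
    (hsm : ∀ t, ∃ b' : K0, Small B n1 t
      ((gK - (b' ^ p - b')) * algebraMap L K0 (∏ i, B.x t i ^ (-n1 i))))
    (w : K) (hw : w ^ p - w = algebraMap L K g' + algebraMap K0 K (aeval z Φ + gK))
    (hgen1 : IntermediateField.adjoin K0 {w} = ⊤) :
    ∃ (T' I' : Type) (_ : Finite T') (_ : Fintype I') (M' : LM (⊥ : Subalgebra k K) ⊤ T' I')
      (π : T' → T) (Θ : I' → I → ℤ) (Γ' : G → I' → ℤ),
      AV (WB p m B n0 h0 hN.hA n1 h1 h1A) M' π Θ ∧ Fn M' (fun b => algebraMap L K (g b)) Γ' ∧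
        Frc M' := by
  classical
  obtain ⟨T1, I1, hT1, hI1, M, π, Θ, y, μ, Γ1, ho, hS, hG1, hR1, hZ, hcmp⟩ :=
    zstep (K := K0) hN hR hG z hz hgen0 m n1 hn1
  choose bb hbb using fun t => hsm (π t)
  let yy : T1 → K0 := fun t => (gK - (bb t ^ p - bb t)) *
    algebraMap L K0 (∏ i, B.x (π t) i ^ (-n1 i))
  have hyA : ∀ t, yy t ∈ M.A t := fun t => int_of_base hS.ov hR1 t (hbb t).1
  have hhA : ∀ t, algebraMap L K0 (h1 (π t)) ∈ M.A t := fun t => ho.le t _ (h1A (π t))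
  let h' : T1 → K0 := fun t => algebraMap L K0 (h1 (π t)) + yy t
  have h'A : ∀ t, h' t ∈ M.A t := fun t => (M.A t).add_mem (hhA t) (hyA t)
  have hh' : ∀ t (κ : Type u) [Field κ] [Algebra k κ] (φ : M.A t →ₐ[k] κ) (v : LT φ (M.x t)),
      Pole M t φ (fun i => ∑ i0, Θ i i0 * n1 i0) →
      om v (fun i => ∑ i0, Θ i i0 * n1 i0) (h'A t) =
        om v (fun i => ∑ i0, Θ i i0 * n1 i0) (ho.le t _ (h1A (π t))) := by
    intro t κ _ _ φ v hp
    have e1 : om v (fun i => ∑ i0, Θ i i0 * n1 i0) (h'A t) =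
        om v (fun i => ∑ i0, Θ i i0 * n1 i0) (hhA t) +
        om v (fun i => ∑ i0, Θ i i0 * n1 i0) (hyA t) := by
      rw [om_eq, om_eq, om_eq, ← ow_add]
      rfl
    rw [e1, small_om hS.ov hR1 t hn1 (hbb t) (fun i => rfl) (hyA t) κ φ hp v, add_zero]
  have hNw : NAS p M (algebraMap L K0 g' + (aeval z Φ + gK))
      (NN μ m fun i => ∑ i0, Θ i i0 * n1 i0)
      (fun t => algebraMap L K0 (b (π t)) + bb t)
      (HH M μ m (fun i => ∑ i0, Θ i i0 * n1 i0) h' z Φ) := by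
    refine nas_w hZ hS hΦ hpm hn1 h1A h'A hh' hcmp hln ?_
    intro t
    have e1 : algebraMap L K0 (∏ i, B.x (π t) i ^ n1 i) =
        ∏ i, M.x t i ^ ∑ i0, Θ i i0 * n1 i0 := Pool.Agent.W32.WT.mon_pull ho t n1
    have e2 : algebraMap L K0 (∏ i, B.x (π t) i ^ n1 i) *
        algebraMap L K0 (∏ i, B.x (π t) i ^ (-n1 i)) = 1 := by
      rw [← map_mul, ← Finset.prod_mul_distrib, ← map_one (algebraMap L K0)]
      congr 1
      refine Finset.prod_eq_one fun i _ => ?_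
      rw [← zpow_add₀ (B.x0 (π t) i), add_neg_cancel, zpow_zero]
    rw [← e1, h1e (π t), map_add, map_sub, map_pow, map_mul, add_pow_char]
    change _ = _ + (algebraMap L K0 (∏ i, B.x (π t) i ^ n1 i) *
        (algebraMap L K0 (h1 (π t)) + (gK - (bb t ^ p - bb t)) *
          algebraMap L K0 (∏ i, B.x (π t) i ^ (-n1 i))) + _)
    linear_combination -(gK - (bb t ^ p - bb t)) * e2
  obtain ⟨T2, I2, hT2, hI2, M2, π2, Θ2, Γ2, hS2, hG2, hR2⟩ :=
    as_step (K := K) hNw hR1 hG1 w (by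
      rw [hw, map_add (algebraMap K0 K) (algebraMap L K0 g'),
        ← IsScalarTower.algebraMap_apply L K0 K]) hgen1
  have e2 : (fun b => algebraMap K0 K (algebraMap L K0 (g b))) =
      fun b => algebraMap L K (g b) :=
    funext fun b => (IsScalarTower.algebraMap_apply L K0 K _).symm
  rw [e2] at hG2
  refine ⟨T2, I2, hT2, hI2, M2, fun t => π (π2 t), fun i1 i0 => ∑ i, Θ2 i1 i * Θ i i0, Γ2, ?_,
    hG2, hR2⟩
  refine AV.next hS.ov hS2 ?_
  intro t κ _ _ φ ψ hψ v0 hv0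
  exact lift_w hZ hS hΦ hpm hn1 h1A h'A hh' hcmp t κ φ ψ hψ v0 hv0

end block

end Pool.Agent.K3h19.Witt
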