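import Pool.Agent.K3h19.Witt.Iter
import Pool.Agent.W369.WT.PCut

/-!
# Restriction of a model to the divisor of `F`, with more information
Follows `Pool.Agent.W369.WT.PCut` (helper369).
-/

set_option autoImplicit false
set_option linter.unusedVariables false
set_option linter.unusedSectionVars false

universe u

open Polynomial

namespace Pool.Agent.K3h19.Witt

open Pool.Agent.W558 Pool.Agent.W973.CUT Pool.Agent.W973.CUT2 Pool.Agent.W177.WD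
open Pool.Agent.W174.WA Pool.Agent.W369.WT

section zm

variable {k L K : Type u} [Field k] [Field L] [Field K] [Algebra k L] [Algebra k K]
  [Algebra L K] [IsScalarTower k L K] {T0 I0 T I : Type} [Fintype I0] [Fintype I]

/-- The model `M` of the Artin-Schreier extension of `L` generated by `z` over the model `B` of `L`:
up to a constant, `z` is the product of the monomial with the exponents `μ` and of `y`. -/
structure ZM (p : ℕ) [CharP K p] {B : LM (⊥ : Subalgebra k L) ⊤ T0 I0}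
    {M : LM (⊥ : Subalgebra k K) ⊤ T I} {π : T → T0} {Θ : I → I0 → ℤ} (ho : Ovr B M π Θ)
    (n0 : I0 → ℤ) (h0 : T0 → L) (hA : ∀ t, h0 t ∈ B.A t) (z : K) (y : T → K) (μ : I → ℤ)
    (m : ℕ) (nn : I0 → ℤ) : Prop where
  yA : ∀ t, y t ∈ M.A t
  m0 : ∀ i, μ i ≤ 0
  zq : ∀ t, ∃ d : ZMod p, z = (∏ i, M.x t i ^ μ i) * y t + zc p K d
  vt : ∀ t (κ : Type u) [Field κ] [Algebra k κ] (φ : M.A t →ₐ[k] κ),
    (∃ i, μ i < 0 ∧ φ ⟨M.x t i, M.xA t i⟩ = 0) →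
    ∃ v : LT φ (M.x t),
      (∀ a (ha : a ∈ B.A (π t)), v.D.D ⟨algebraMap L K a, ho.le t a ha⟩ = 0) ∧
      (∀ i0, ∑ i, (Θ i i0 : κ) * v.e i = 0) ∧ om v μ (yA t) = φ ⟨y t, yA t⟩
  sy : ∀ i, μ i < 0 → (m : ℤ) * μ i ≤ ∑ i0, Θ i i0 * nn i0 →
    ∀ t (κ : Type u) [Field κ] [Algebra k κ] (φ : M.A t →ₐ[k] κ),
      φ ⟨M.x t i, M.xA t i⟩ = 0 → φ ⟨y t, yA t⟩ ≠ 0
  dm : ∀ t (κ : Type u) [Field κ] [Algebra k κ] (φ : M.A t →ₐ[k] κ),
    (∃ i0, n0 i0 < 0 ∧ φ ⟨algebraMap L K (B.x (π t) i0), ho.le t _ (B.xA (π t) i0)⟩ = 0) →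
    φ ⟨algebraMap L K (h0 (π t)), ho.le t _ (hA (π t))⟩ ≠ 0 →
    φ ⟨y t, yA t⟩ ≠ 0 ∧ ∀ i, φ ⟨M.x t i, M.xA t i⟩ = 0 →
      (p : ℤ) * μ i = ∑ i0, Θ i i0 * n0 i0

end zm

section chart

variable {k L N : Type u} [Field k] [Field L] [Field N] [Algebra k L] [Algebra k N]
  [Algebra L N] [IsScalarTower k L N] {T0 I0 T I : Type} [Fintype I0] [Fintype I]

/-- The local equation of the divisor. -/
lemma chart3 (p : ℕ) [Fact p.Prime] [CharP k p] (B : LM (⊥ : Subalgebra k L) ⊤ T0 I0)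
    (M : LM (⊥ : Subalgebra k N) ⊤ T I) (F : N) (Q : Subalgebra k N) (y r : T → N) (π : T → T0)
    (Θ : I → I0 → ℤ) (h0 : T0 → L) (n0 : I0 → ℤ) (c μ : I → ℤ)
    (hPS : PAS p M F Q y (fun t => algebraMap L N (h0 (π t))) r c μ)
    (hPT : PAT p B M π Θ F Q y h0 n0 c μ) (hF : Fin2 M y c) (t : T) :
    ∃ f ∈ M.A t, ∃ u, u ≠ 0 ∧ u ∈ Q ∧ u⁻¹ ∈ Q ∧ F = u * f ∧
      (∀ (κ : Type u) [Field κ] [Algebra k κ] (φ : M.A t →ₐ[k] κ) (hf : f ∈ M.A t),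
        φ ⟨f, hf⟩ = 0 → ∃ D : TV φ, D.D ⟨f, hf⟩ ≠ 0 ∧
          ∀ i, φ ⟨M.x t i, M.xA t i⟩ = 0 → D.D ⟨M.x t i, M.xA t i⟩ = 0) ∧
      (∀ (κ : Type u) [Field κ] [Algebra k κ] (φ : M.A t →ₐ[k] κ) (hf : f ∈ M.A t),
        φ ⟨f, hf⟩ = 0 → ∀ v : LT φ (ox (y t) (M.x t)),
          v.e none + ∑ i, (μ i : κ) * v.e (some i) = 0 →
          ((∃ i0, n0 i0 < 0 ∧
            φ ⟨algebraMap L N (B.x (π t) i0), hPT.ov.le t _ (B.xA (π t) i0)⟩ = 0) →
            om v (fun o => o.elim 0 c) (hPS.hA t) = 0) →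
          v.D.D ⟨f, hf⟩ = 0 ∨ VT B M t (π t) (hPT.ov.le t) Θ φ ⟨f, hf⟩) ∧
      (∀ (κ : Type u) [Field κ] [Algebra k κ] (φ : M.A t →ₐ[k] κ) (hf : f ∈ M.A t),
        φ ⟨f, hf⟩ = 0 → ∀ v : LT φ (ox (y t) (M.x t)),
          v.D.D ⟨algebraMap L N (h0 (π t)), hPS.hA t⟩ = 0 →
          ∑ i, (c i : κ) * v.e (some i) = 0 →
          (∃ i, μ i < 0 ∧ φ ⟨M.x t i, M.xA t i⟩ = 0) → v.D.D ⟨f, hf⟩ = 0) ∧
      (∀ (κ : Type u) [Field κ] [Algebra k κ] (φ : M.A t →ₐ[k] κ) (hf : f ∈ M.A t),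
        φ ⟨f, hf⟩ = 0 → (∃ i, (μ i < 0 ∨ c i < 0) ∧ φ ⟨M.x t i, M.xA t i⟩ = 0) →
          φ ⟨algebraMap L N (h0 (π t)), hPS.hA t⟩ ≠ 0 →
          φ ⟨y t, hPS.yA t⟩ ≠ 0 ∧ ∀ i, φ ⟨M.x t i, M.xA t i⟩ = 0 → c i = 0) := by
  have hx0 := M.x0 t
  have hy0 := hPS.y0 t
  have hpp : p ≠ 0 := (Fact.out : p.Prime).ne_zero
  have hp2 : (2 : ℤ) ≤ p := by exact_mod_cast (Fact.out : p.Prime).two_le
  have m0 : ∀ i, 0 ≤ -((p : ℤ) - 1) * μ i := by
    intro i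
    have := hPS.m0 i
    nlinarith
  have hxQ : ∀ i, M.x t i ∈ Q := fun i => hPS.AQ t (M.xA t i)
  have hyQ : y t ∈ Q := hPS.AQ t (hPS.yA t)
  have hz : ∀ (n : ℤ) i, M.x t i ^ n ∈ Q := fun n i =>
    zpow_mem_of (hxQ i) (Or.inr (hPS.xQ t i))
  have hP0 : ∀ m : I → ℤ, ∏ i, M.x t i ^ m i ≠ 0 := fun m =>
    Finset.prod_ne_zero_iff.2 fun i _ => zpow_ne_zero _ (hx0 i)
  have hPQ : ∀ m : I → ℤ, ∏ i, M.x t i ^ m i ∈ Q := fun m => Q.prod_mem fun i _ => hz _ i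
  have hPQ' : ∀ m : I → ℤ, (∏ i, M.x t i ^ m i)⁻¹ ∈ Q := fun m => by
    rw [← Finset.prod_inv_distrib]
    refine Q.prod_mem fun i _ => ?_
    rw [← zpow_neg]
    exact hz _ i
  have hneg : ∀ m : I → ℤ, ∏ i, M.x t i ^ (-m i) = (∏ i, M.x t i ^ m i)⁻¹ := fun m => by
    rw [← Finset.prod_inv_distrib]
    exact Finset.prod_congr rfl fun i _ => zpow_neg _ _
  have hsub : ∀ m m' : I → ℤ, ∏ i, M.x t i ^ (m i - m' i) =
      (∏ i, M.x t i ^ m i) * (∏ i, M.x t i ^ m' i)⁻¹ := fun m m' => by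
    rw [← hneg, ← Finset.prod_mul_distrib]
    refine Finset.prod_congr rfl fun i _ => ?_
    rw [← zpow_add₀ (hx0 i), sub_eq_add_neg]
  have heq := hPS.eq t
  rcases hF t with h1 | ⟨h1, h2⟩
  · -- first case
    have hXm : ∀ i, 0 ≤ -c i ∨ (M.x t i)⁻¹ ∈ M.A t := by
      intro i
      rcases h1 i with h | h
      · left; omega
      · exact Or.inr h
    have hYm : ∀ i, 0 ≤ -((p : ℤ) - 1) * μ i - c i ∨ (M.x t i)⁻¹ ∈ M.A t := by
      intro i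
      rcases h1 i with h | h
      · left
        have := m0 i
        omega
      · exact Or.inr h
    have hXA : (∏ i, M.x t i ^ (-c i)) * y t ^ p ∈ M.A t :=
      (M.A t).mul_mem ((M.A t).prod_mem fun i _ => zpow_mem_of (M.xA t i) (hXm i))
        ((M.A t).pow_mem (hPS.yA t) p)
    have hYA : (∏ i, M.x t i ^ (-((p : ℤ) - 1) * μ i - c i)) * y t ∈ M.A t :=
      (M.A t).mul_mem ((M.A t).prod_mem fun i _ => zpow_mem_of (M.xA t i) (hYm i)) (hPS.yA t)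
    -- the second term vanishes at the poles
    have hYz : ∀ (κ : Type u) [Field κ] [Algebra k κ] (φ : M.A t →ₐ[k] κ),
        (∃ i, (μ i < 0 ∨ c i < 0) ∧ φ ⟨M.x t i, M.xA t i⟩ = 0) → φ ⟨_, hYA⟩ = 0 := by
      intro κ _ _ φ ⟨i, hmc, hi⟩
      have hni := Pool.Agent.W174.WA.not_inv (φ := φ) (hx0 i) (M.xA t i) hi
      have hci : c i ≤ 0 := (h1 i).resolve_right hni
      have hpos : 0 < -((p : ℤ) - 1) * μ i - c i := by
        rcases hmc with h | h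
        · nlinarith
        · have := m0 i
          omega
      have hz : ZE φ ((∏ i, M.x t i ^ (-((p : ℤ) - 1) * μ i - c i)) * y t) :=
        ZE.mul_left (ZE.prod _ (fun j => zpow_mem_of (M.xA t j) (hYm j)) i
          (ZE.zpow (hx0 i) (M.xA t i) _ hpos hi)) (hPS.yA t)
      exact hz.2
    refine ⟨(∏ i, M.x t i ^ (-c i)) * y t ^ p -
      (∏ i, M.x t i ^ (-((p : ℤ) - 1) * μ i - c i)) * y t - algebraMap L N (h0 (π t)),
      (M.A t).sub_mem ((M.A t).sub_mem hXA hYA) (hPS.hA t),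
      (∏ i, M.x t i ^ ((p : ℤ) * μ i)) * ∏ i, M.x t i ^ c i,
      mul_ne_zero (hP0 _) (hP0 _), Q.mul_mem (hPQ _) (hPQ _), ?_, ?_, ?_, ?_, ?_, ?_⟩
    · rw [mul_inv]
      exact Q.mul_mem (hPQ' _) (hPQ' _)
    · rw [hneg, hsub (fun i => -((p : ℤ) - 1) * μ i) c]
      have := hP0 c
      conv_lhs => rw [heq]
      rw [mul_assoc]
      congr 1
      field_simp
    · intro κ _ _ φ hf hφ
      exact va p M F Q y _ r c μ hPS t h1 m0 κ φ hXA hYA hf hφ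
    · intro κ _ _ φ hf hφ v hv hom
      exact ta p B M F Q y r π Θ h0 n0 c μ hPS hPT t h1 m0 κ φ hXA hYA hf hφ v hv hom
    · intro κ _ _ φ hf hφ v hvh hvc ⟨i, hi, hi0⟩
      rw [da p M t (y t) (algebraMap L N (h0 (π t))) c μ (hPS.yA t) (hPS.hA t) m0 h1 κ φ v hXA hYA
        hf, hvh, hvc, hYz κ φ ⟨i, Or.inl hi, hi0⟩]
      ring
    · intro κ _ _ φ hf hφ hpole hh
      have e1 : (⟨_, hf⟩ : M.A t) = ⟨_, hXA⟩ - ⟨_, hYA⟩ - ⟨algebraMap L N (h0 (π t)), hPS.hA t⟩ :=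
        rfl
      rw [e1, map_sub, map_sub, hYz κ φ hpole, sub_zero, sub_eq_zero] at hφ
      have hX0 : φ ⟨_, hXA⟩ ≠ 0 := by rw [hφ]; exact hh
      constructor
      · intro hy
        apply hX0
        have hz : ZE φ (y t ^ p * (∏ i, M.x t i ^ (-c i))) := by
          refine ZE.mul_left ?_ ((M.A t).prod_mem fun i _ => zpow_mem_of (M.xA t i) (hXm i))
          refine ⟨(M.A t).pow_mem (hPS.yA t) p, ?_⟩
          have e2 : (⟨y t ^ p, (M.A t).pow_mem (hPS.yA t) p⟩ : M.A t) = ⟨y t, hPS.yA t⟩ ^ p := rfl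
          rw [e2, map_pow, hy, zero_pow hpp]
        rw [mul_comm] at hz
        exact hz.2
      · intro i hi
        by_contra hc
        apply hX0
        have hci : c i ≤ 0 :=
          (h1 i).resolve_right (Pool.Agent.W174.WA.not_inv (φ := φ) (hx0 i) (M.xA t i) hi)
        have hz : ZE φ ((∏ i, M.x t i ^ (-c i)) * y t ^ p) :=
          ZE.mul_left (ZE.prod _ (fun j => zpow_mem_of (M.xA t j) (hXm j)) i
            (ZE.zpow (hx0 i) (M.xA t i) _ (by omega) hi)) ((M.A t).pow_mem (hPS.yA t) p)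
        exact hz.2
  · -- second case
    have hXA : (∏ i, M.x t i ^ (c i)) * (y t)⁻¹ ^ p ∈ M.A t :=
      (M.A t).mul_mem ((M.A t).prod_mem fun i _ => zpow_mem_of (M.xA t i) (h1 i))
        ((M.A t).pow_mem h2 p)
    have hYA : (∏ i, M.x t i ^ (-((p : ℤ) - 1) * μ i)) * ((y t)⁻¹ ^ p * y t) ∈ M.A t :=
      (M.A t).mul_mem ((M.A t).prod_mem fun i _ => zpow_mem_of (M.xA t i) (Or.inl (m0 i)))
        ((M.A t).mul_mem ((M.A t).pow_mem h2 p) (hPS.yA t))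
    have hYz : ∀ (κ : Type u) [Field κ] [Algebra k κ] (φ : M.A t →ₐ[k] κ),
        (∃ i, (μ i < 0 ∨ c i < 0) ∧ φ ⟨M.x t i, M.xA t i⟩ = 0) → φ ⟨_, hYA⟩ = 0 := by
      intro κ _ _ φ ⟨i, hmc, hi⟩
      have hni := Pool.Agent.W174.WA.not_inv (φ := φ) (hx0 i) (M.xA t i) hi
      have hci : 0 ≤ c i := (h1 i).resolve_right hni
      have hpos : 0 < -((p : ℤ) - 1) * μ i := by
        rcases hmc with h | h
        · nlinarith
        · omega
      have hz : ZE φ ((∏ i, M.x t i ^ (-((p : ℤ) - 1) * μ i)) * ((y t)⁻¹ ^ p * y t)) :=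
        ZE.mul_left (ZE.prod _ (fun j => zpow_mem_of (M.xA t j) (Or.inl (m0 j))) i
          (ZE.zpow (hx0 i) (M.xA t i) _ hpos hi)) ((M.A t).mul_mem ((M.A t).pow_mem h2 p)
            (hPS.yA t))
      exact hz.2
    refine ⟨1 - (∏ i, M.x t i ^ (-((p : ℤ) - 1) * μ i)) * ((y t)⁻¹ ^ p * y t) -
      (∏ i, M.x t i ^ (c i)) * (y t)⁻¹ ^ p * algebraMap L N (h0 (π t)),
      (M.A t).sub_mem ((M.A t).sub_mem (M.A t).one_mem hYA) ((M.A t).mul_mem hXA (hPS.hA t)),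
      (∏ i, M.x t i ^ ((p : ℤ) * μ i)) * y t ^ p,
      mul_ne_zero (hP0 _) (pow_ne_zero _ hy0), Q.mul_mem (hPQ _) (Q.pow_mem hyQ p), ?_, ?_, ?_, ?_,
      ?_, ?_⟩
    · rw [mul_inv, ← inv_pow]
      exact Q.mul_mem (hPQ' _) (Q.pow_mem (hPS.yQ t) p)
    · conv_lhs => rw [heq]
      have := pow_ne_zero p hy0
      rw [mul_assoc]
      congr 1
      rw [inv_pow]
      field_simp
    · intro κ _ _ φ hf hφ
      exact vb p M F Q y _ r c μ hPS t h1 h2 m0 κ φ hXA hYA hf hφ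
    · intro κ _ _ φ hf hφ v hv hom
      exact tb p B M F Q y r π Θ h0 n0 c μ hPS hPT t h1 h2 m0 κ φ hXA hYA hf hφ v hv hom
    · intro κ _ _ φ hf hφ v hvh hvc ⟨i, hi, hi0⟩
      have hom0 : om v (fun o => o.elim 0 c) (hPS.hA t) = 0 := by
        rw [om, Fintype.sum_option]
        simp only [Option.elim_none, Option.elim_some, Int.cast_zero, zero_mul, zero_add]
        rw [hvh, hvc, mul_zero, add_zero]
      rw [db p M t (y t) (algebraMap L N (h0 (π t))) c μ (hPS.y0 t) (hPS.yA t) (hPS.hA t) m0 h1 h2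
        κ φ v hXA hYA hf, hom0, hYz κ φ ⟨i, Or.inl hi, hi0⟩]
      ring
    · intro κ _ _ φ hf hφ hpole hh
      have e1 : (⟨_, hf⟩ : M.A t) = 1 - ⟨_, hYA⟩ - ⟨_, hXA⟩ *
        ⟨algebraMap L N (h0 (π t)), hPS.hA t⟩ := rfl
      rw [e1, map_sub, map_sub, map_one, map_mul, hYz κ φ hpole, sub_zero, sub_eq_zero] at hφ
      refine ⟨(UN.of_inv hy0 (hPS.yA t) h2 (φ := φ)).2, ?_⟩
      intro i hi
      by_contra hc
      have hci : 0 ≤ c i :=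
        (h1 i).resolve_right (Pool.Agent.W174.WA.not_inv (φ := φ) (hx0 i) (M.xA t i) hi)
      have hz : ZE φ ((∏ i, M.x t i ^ (c i)) * (y t)⁻¹ ^ p) :=
        ZE.mul_left (ZE.prod _ (fun j => zpow_mem_of (M.xA t j) (h1 j)) i
          (ZE.zpow (hx0 i) (M.xA t i) _ (by omega) hi)) ((M.A t).pow_mem h2 p)
      have hz' : φ ⟨_, hXA⟩ = 0 := hz.2
      rw [hz', zero_mul] at hφ
      exact one_ne_zero hφ

end chart

end Pool.Agent.K3h19.Witt
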