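import Pool.Agent.K3h19.Witt.Cut
import Pool.Agent.W558.WT.All

/-!
# Restriction of a model to the divisor of `F`, with more information
Follows `Pool.Agent.W369.WT.PCut` (helper369).
-/

set_option autoImplicit false
set_option linter.unusedVariables false
set_option linter.unusedSectionVars false

universe u

open Polynomial

namespace Pool.Agent.K3h19.Witt

open Pool.Agent.W558 Pool.Agent.W973.CUT Pool.Agent.W973.CUT2 Pool.Agent.W177.WD
open Pool.Agent.W174.WA Pool.Agent.W369.WT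

/-- A component of the boundary over a pole. -/
lemma exists_comp {k L N : Type u} [Field k] [Field L] [Field N] [Algebra k L] [Algebra k N]
    [Algebra L N] [IsScalarTower k L N] {T0 I0 T I : Type} [Fintype I0] [Fintype I]
    {B : LM (⊥ : Subalgebra k L) ⊤ T0 I0} {M : LM (⊥ : Subalgebra k N) ⊤ T I}
    {π : T → T0} {Θ : I → I0 → ℤ} (ov : Ovr B M π Θ) (t : T) {κ : Type u} [Field κ] [Algebra k κ]
    (φ : M.A t →ₐ[k] κ) (i0 : I0)
    (h : φ ⟨algebraMap L N (B.x (π t) i0), ov.le t _ (B.xA (π t) i0)⟩ = 0) :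
    ∃ i, 0 < Θ i i0 ∧ φ ⟨M.x t i, M.xA t i⟩ = 0 := by
  by_contra hcon
  push Not at hcon
  have h1 : UN φ (∏ i, M.x t i ^ Θ i i0) := by
    refine UN.prod _ _ fun i _ => UN.zpow (M.x0 t i) (M.xA t i) _ (Or.inl (ov.Θ0 i i0)) ?_
    intro hi
    by_contra hne
    have := ov.Θ0 i i0
    exact hcon i (by omega) hi
  rw [← ov.x] at h1
  exact h1.2 h

theorem zcut (p : ℕ) [Fact p.Prime] {k L N K : Type u} [Field k] [PerfectField k]
    [CharP k p] [Field L] [Field N] [Field K] [Algebra k L] [Algebra k N] [Algebra L N]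
    [IsScalarTower k L N] [Algebra k K] [Algebra L K] [IsScalarTower k L K] [CharP N p]
    [CharP K p] {T0 I0 T I G : Type} [Fintype I0] [Finite T] [Fintype I]
    {B : LM (⊥ : Subalgebra k L) ⊤ T0 I0} {f' : L} {n0 : I0 → ℤ} {h0 : T0 → L}
    {M : LM (⊥ : Subalgebra k N) ⊤ T I} {F : N} {Q : Subalgebra k N} {y : T → N} {c μ : I → ℤ}
    {g : G → L} {Γ : G → I → ℤ} {π0 : T → T0} {Θ : I → I0 → ℤ}
    (hN : NAS p B f' n0 (fun _ => 0) h0) (hPT : PAT p B M π0 Θ F Q y h0 n0 c μ) (hLq : Lq M Q)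
    (hFn : Fn M (fun b => algebraMap L N (g b)) Γ) (hF2 : Fin2 M y c)
    (hFQ : F ∈ Q) (hF0 : F ≠ 0) (π : Q →ₐ[k] K)
    (hπ : ∀ q : Q, π q = 0 ↔ ∃ r ∈ Q, (q : N) = F * r) (hsurj : Function.Surjective π)
    (hQ : ∀ x : N, x ∈ Q ∨ x⁻¹ ∈ Q)
    (hcomp0 : ∀ (l : L) (hl : algebraMap L N l ∈ Q), π ⟨algebraMap L N l, hl⟩ = algebraMap L K l)
    (Z : N) (hZQ : Z ∈ Q) (hFZ : F = Z ^ p - Z - algebraMap L N f') (m : ℕ) (nn : I0 → ℤ)
    (hBd : ∀ i, ¬ Bd M y μ Θ nn m i) :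
    ∃ (M' : LM (⊥ : Subalgebra k K) ⊤ T I) (y' : T → K) (ho : Ovr B M' π0 Θ),
      CLift ho n0 h0 hN.hA ∧ Fn M' (fun b => algebraMap L K (g b)) Γ ∧ Frc M' ∧
      ZM p ho n0 h0 hN.hA (π ⟨Z, hZQ⟩) y' μ m nn := by
  classical
  have hpas : WT_pas.{u} := wt_pas
  have hloc : S2_loc.{u} := loc_main
  have hT := nonempty_T M
  obtain ⟨h, r, hPS0⟩ := hpas p k L N T0 I0 T I B f' n0 _ h0 M F Q y c μ hN ⟨π0, Θ, hPT⟩
  have hh : h = fun t => algebraMap L N (h0 (π0 t)) := by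
    funext t
    have h1 := hPS0.eq t
    have h2 := hPT.eq t
    have hp1 : ∏ i, M.x t i ^ ((p : ℤ) * μ i) ≠ 0 :=
      Finset.prod_ne_zero_iff.2 fun i _ => zpow_ne_zero _ (M.x0 t i)
    have hp2 : ∏ i, M.x t i ^ c i ≠ 0 :=
      Finset.prod_ne_zero_iff.2 fun i _ => zpow_ne_zero _ (M.x0 t i)
    rw [h2] at h1
    have h3 := mul_left_cancel₀ hp1 h1
    exact (mul_left_cancel₀ hp2 (sub_right_injective h3)).symm
  subst hh
  have hcomp : ∀ l, algebraMap L N l ∈ Q → pq π (algebraMap L N l) = algebraMap L K l := by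
    intro l hl
    rw [pq_of π hl]
    exact hcomp0 l hl
  have hAQ := hPT.AQ
  choose f hfA u hu0 huQ huQ' hFu hv hv2 hv3 hv4 using
    chart3 p B M F Q y r π0 Θ h0 n0 c μ hPS0 hPT hF2
  have hf0 : ∀ t, f t ≠ 0 := by
    intro t h0
    apply hF0
    rw [hFu t, h0, mul_zero]
  have hFπ : pq π F = 0 := by
    rw [pq_of π hFQ, hπ]
    exact ⟨1, Q.one_mem, (mul_one F).symm⟩
  have hfπ : ∀ t, pq π (f t) = 0 := by
    intro t
    have h1 : f t = (u t)⁻¹ * F := by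
      rw [hFu t, ← mul_assoc, inv_mul_cancel₀ (hu0 t), one_mul]
    rw [h1, pq_mul π (huQ' t) hFQ, hFπ, mul_zero]
  have hker0 : ∀ a ∈ Q, pq π a = 0 → ∃ r ∈ Q, a = F * r := by
    intro a ha h0
    rw [pq_of π ha, hπ] at h0
    exact h0
  have hmin : ∀ t, RingHom.ker (qm π (M.A t) (hAQ t)) ∈
      (Ideal.span {(⟨f t, hfA t⟩ : M.A t)}).minimalPrimes := by
    intro t
    refine ⟨⟨RingHom.ker_isPrime _, ?_⟩, ?_⟩
    · rw [Ideal.span_singleton_le_iff_mem, RingHom.mem_ker, qm_apply π (hAQ t) (hfA t)]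
      exact Subtype.ext (hfπ t)
    · rintro P'' ⟨hp'', hle''⟩ hPle ⟨a, ha⟩ haker
      have ha0 : pq π a = 0 := by
        rw [RingHom.mem_ker, qm_apply π (hAQ t) ha] at haker
        exact congrArg Subtype.val haker
      obtain ⟨r, hr, har⟩ := hker0 a (hAQ t ha) ha0
      obtain ⟨α, hα, β, hβ, hβ0, hβQ, hαβ⟩ := hLq t (u t * r) (Q.mul_mem (huQ t) hr)
      have h3 : (⟨β, hβ⟩ : M.A t) * ⟨a, ha⟩ = ⟨f t, hfA t⟩ * ⟨α, hα⟩ := by
        apply Subtype.ext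
        change β * a = f t * α
        rw [har, ← hαβ, hFu t]
        ring
      have h4 : (⟨β, hβ⟩ : M.A t) * ⟨a, ha⟩ ∈ P'' := by
        rw [h3]
        exact P''.mul_mem_right _ (hle'' (Ideal.mem_span_singleton_self _))
      rcases hp''.mem_or_mem h4 with h5 | h5
      · exfalso
        have h6 := hPle h5
        rw [RingHom.mem_ker, qm_apply π (hAQ t) hβ] at h6
        exact pq_ne π hβ0 (hAQ t hβ) hβQ (congrArg Subtype.val h6)
      · exact h5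
  have hv0 : ∀ t (κ : Type u) [Field κ] [Algebra k κ] (φ : M.A t →ₐ[k] κ),
      φ ⟨f t, hfA t⟩ = 0 → ∃ D : TV φ, D.D ⟨f t, hfA t⟩ ≠ 0 := by
    intro t κ _ _ φ hφ
    obtain ⟨δ, h1, -⟩ := hv t κ φ (hfA t) hφ
    exact ⟨δ, h1⟩
  have hker : ∀ t, LK π (M.A t) (f t) := by
    intro t m' hm' hPm'
    have hsm := M.sm t
    have hsq : Algebra.Smooth k (M.A t ⧸ Ideal.span {(⟨f t, hfA t⟩ : M.A t)}) :=
      smooth_quot _ (hv0 t)
    obtain ⟨e, he, h1⟩ := local_ker hloc (k := k) (⟨f t, hfA t⟩ : M.A t)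
      (RingHom.ker (qm π (M.A t) (hAQ t))) m' (hmin t) hm' (by
        rintro ⟨a, ha⟩ haker
        rw [RingHom.mem_ker, qm_apply π (hAQ t) ha] at haker
        exact hPm' a ha (congrArg Subtype.val haker))
    refine ⟨e, he, fun a ha h0 => ?_⟩
    obtain ⟨b', hb'⟩ := h1 ⟨a, ha⟩ (by
      rw [RingHom.mem_ker, qm_apply π (hAQ t) ha]
      exact Subtype.ext h0)
    have h2 : (e : N) * a = f t * b' := congrArg Subtype.val hb'
    rw [h2, mul_div_cancel_left₀ _ (hf0 t)]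
    exact b'.2
  have hsm' : ∀ t, Algebra.Smooth k (im π (M.A t) (hAQ t)) := by
    intro t
    have := M.sm t
    exact smooth_im2 π hloc (hAQ t) (hfA t) (hfπ t) (hmin t) (hv0 t)
  have hK' : ∀ x : N, (∃ a b : Q, π b ≠ 0 ∧ x * b = a) ∨ (∃ a b : Q, π b ≠ 0 ∧ x⁻¹ * b = a) := by
    intro x
    rcases hQ x with h1 | h1
    · left
      exact ⟨⟨x, h1⟩, 1, by rw [map_one]; exact one_ne_zero, by simp⟩
    · right
      exact ⟨⟨x⁻¹, h1⟩, 1, by rw [map_one]; exact one_ne_zero, by simp⟩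
  obtain ⟨M', hA', hx'⟩ := exists_model2 π hK' M hAQ hPT.xQ f hfA hf0 hfπ hker hsm'
    (fun t => snc_option M t (f t) (hfA t) (hv t))
  have hA't : ∀ t, M'.A t = im π (M.A t) (hAQ t) := fun t => congrFun hA' t
  have hx't : ∀ t, M'.x t = fun i => pq π (M.x t i) := fun t => congrFun hx' t
  have hgQ : ∀ b, algebraMap L N (g b) ∈ Q := by
    intro b
    obtain ⟨t⟩ := hT
    obtain ⟨w, h0, h1, h2, h3⟩ := hFn b t
    change algebraMap L N (g b) = _ at h3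
    rw [h3]
    exact Q.mul_mem (hAQ t h1) (Q.prod_mem fun i _ =>
      zpow_mem_of (hAQ t (M.xA t i)) (Or.inr (hPT.xQ t i)))
  have hmon : ∀ t (e : I → ℤ), ∏ i, M'.x t i ^ e i = pq π (∏ i, M.x t i ^ e i) := by
    intro t e
    rw [hx't, pq_prod π _ _ fun i _ => zpow_mem_of (hAQ t (M.xA t i)) (Or.inr (hPT.xQ t i))]
    refine Finset.prod_congr rfl fun i _ => ?_
    exact (pq_zpow π (M.x0 t i) (hAQ t (M.xA t i)) (hPT.xQ t i) _).symm
  have hmonQ : ∀ t (e : I → ℤ), ∏ i, M.x t i ^ e i ∈ Q := fun t e =>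
    Q.prod_mem fun i _ => zpow_mem_of (hAQ t (M.xA t i)) (Or.inr (hPT.xQ t i))
  have ho : Ovr B M' π0 Θ := by
    refine ⟨?_, ?_, hPT.ov.Θ0⟩
    · intro t a ha
      have h1 := hPT.ov.le t a ha
      rw [hA't, ← hcomp a (hAQ t h1)]
      exact pq_mem π (hAQ t) h1
    · intro t i0
      have h1 := hPT.ov.le t _ (B.xA (π0 t) i0)
      rw [hmon, ← hcomp _ (hAQ t h1), hPT.ov.x t i0]
  -- the points of the image
  have pt : ∀ t (κ : Type u) [Field κ] [Algebra k κ] (φ' : M'.A t →ₐ[k] κ),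
      ∃ φ : M.A t →ₐ[k] κ, (∀ a (ha : a ∈ M.A t) (ha' : pq π a ∈ M'.A t),
        φ ⟨a, ha⟩ = φ' ⟨pq π a, ha'⟩) ∧ φ ⟨f t, hfA t⟩ = 0 ∧
        ∀ v : LT φ (ox (y t) (M.x t)), v.D.D ⟨f t, hfA t⟩ = 0 →
          ∃ v' : LT φ' (M'.x t), (∀ a (ha : a ∈ M.A t) (ha' : pq π a ∈ M'.A t),
            v'.D.D ⟨pq π a, ha'⟩ = v.D.D ⟨a, ha⟩) ∧ ∀ i, v'.e i = v.e (some i) := by
    intro t κ _ _ φ'
    have hAt := hA't t
    have hxt := hx't t
    generalize M'.A t = A' at φ' hAt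
    generalize M'.x t = x' at hxt
    subst hAt hxt
    let φ : M.A t →ₐ[k] κ := φ'.comp (qm π (M.A t) (hAQ t))
    have hφ : ∀ a (ha : a ∈ M.A t), φ ⟨a, ha⟩ = φ' ⟨pq π a, pq_mem π (hAQ t) ha⟩ := by
      intro a ha
      change φ' (qm π (M.A t) (hAQ t) ⟨a, ha⟩) = _
      rw [qm_apply π (hAQ t) ha]
    refine ⟨φ, fun a ha ha' => hφ a ha, ?_, ?_⟩
    · rw [hφ]
      have : (⟨pq π (f t), pq_mem π (hAQ t) (hfA t)⟩ : im π (M.A t) (hAQ t)) = 0 :=
        Subtype.ext (hfπ t)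
      rw [this, map_zero]
    · intro v hvf
      obtain ⟨E, hE⟩ := desc2 π (hAQ t) (hfA t) (hf0 t) (hfπ t) (hker t) φ' v.D hvf
      refine ⟨⟨E, fun i => v.e (some i), ?_⟩, fun a ha ha' => hE a ha, fun i => rfl⟩
      intro i hi
      refine (hE _ (M.xA t i)).trans ?_
      refine (v.hx (some i) (M.xA t i)).trans ?_
      congr 1
      exact hφ _ _
  have hyA' : ∀ t, pq π (y t) ∈ M'.A t := by
    intro t
    rw [hA't]
    exact pq_mem π (hAQ t) (hPT.yA t)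
  have hxA' : ∀ t i, pq π (M.x t i) ∈ M'.A t := by
    intro t i
    rw [hA't]
    exact pq_mem π (hAQ t) (M.xA t i)
  have hxz : ∀ t (κ : Type u) [Field κ] [Algebra k κ] (φ' : M'.A t →ₐ[k] κ) i,
      φ' ⟨M'.x t i, M'.xA t i⟩ = φ' ⟨pq π (M.x t i), hxA' t i⟩ := by
    intro t κ _ _ φ' i
    congr 1
    exact Subtype.ext (congrFun (hx't t) i)
  refine ⟨M', fun t => pq π (y t), ho, ?_, ?_, ?_, ?_⟩
  · intro t κ _ _ φ' v0 hpole
    exact lift_chart p B M F y π0 Θ h0 n0 c μ hPS0.hA hPT π hcomp t (f t) (hfA t) (hf0 t) (hfπ t)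
      (hker t) (fun κ _ _ φ hφ v h1 h2 => hv2 t κ φ (hfA t) hφ v h1 h2) (M'.A t) (M'.x t)
      (hA't t) (hx't t) (ho.le t) κ φ' v0 hpole
  · intro a t
    obtain ⟨w, h0, h1, h2, h3⟩ := hFn a t
    change algebraMap L N (g a) = _ at h3
    rw [hmon]
    refine ⟨pq π w, pq_ne π h0 (hAQ t h1) (hAQ t h2), ?_, ?_, ?_⟩
    · rw [hA't]
      exact pq_mem π (hAQ t) h1
    · rw [← pq_inv π h0 (hAQ t h1) (hAQ t h2), hA't]
      exact pq_mem π (hAQ t) h2
    · change algebraMap L K (g a) = _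
      rw [← hcomp _ (hgQ a), h3, pq_mul π (hAQ t h1) (hmonQ t _)]
  · intro t x
    obtain ⟨q, rfl⟩ := hsurj x
    obtain ⟨α, hα, β, hβ, hβ0, hβQ, hαβ⟩ := hLq t q q.2
    rw [hA't]
    have h1 : pq π β ≠ 0 := pq_ne π hβ0 (hAQ t hβ) hβQ
    refine ⟨pq π α, pq_mem π (hAQ t) hα, pq π β, pq_mem π (hAQ t) hβ, h1, ?_⟩
    rw [eq_mul_inv_iff_mul_eq₀ h1, ← pq_coe π q, ← pq_mul π q.2 (hAQ t hβ), hαβ]
  · refine ⟨hyA', hPT.m0, ?_, ?_, ?_, ?_⟩
    · -- the equation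
      intro t
      have hf'e : ∀ t, f' = (∏ i, B.x t i ^ n0 i) * h0 t := by
        intro t
        have h1 := hN.eq t
        rw [zero_pow (Fact.out : p.Prime).ne_zero, sub_zero, zero_add] at h1
        exact h1
      obtain ⟨d, hd⟩ := zeq hPT hf'e hFZ t
      refine ⟨d, ?_⟩
      have h1 : pq π (zc p N d) = zc p K d := by
        have e1 : ∀ (E : Type u) [Field E] [CharP E p], zc p E d = ((d.val : ℕ) : E) := by
          intro E _ _
          conv_lhs => rw [← ZMod.natCast_zmod_val d]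
          rw [map_natCast]
        rw [e1 N, e1 K, pq_of π (natCast_mem Q _)]
        have e2 : (⟨((d.val : ℕ) : N), natCast_mem Q _⟩ : Q) = ((d.val : ℕ) : Q) := rfl
        rw [e2, map_natCast]
      rw [← pq_of π hZQ, hd, pq_add π (Q.mul_mem (hmonQ t _) (hAQ t (hPT.yA t)))
        (zc_mem Q d), pq_mul π (hmonQ t _) (hAQ t (hPT.yA t)), h1, hmon]
    · -- the vertical vector
      rintro t κ _ _ φ' ⟨i, hi, hi0⟩
      obtain ⟨φ, hφ, hφf, hvv⟩ := pt t κ φ'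
      obtain ⟨v, hv1, hvΘ, hve⟩ := hPT.vl t κ φ
      have hp0 : (p : κ) = 0 := Pool.Agent.W177.WD.cast_zero (k := k) p κ
      have hvf : v.D.D ⟨f t, hfA t⟩ = 0 := by
        refine hv3 t κ φ (hfA t) hφf v (hv1 _ (hPT.hA (π0 t))) ?_ ⟨i, hi, ?_⟩
        · rw [sumc p hp0 c μ n0 Θ hPT.ce]
          refine Finset.sum_eq_zero fun i0 _ => ?_
          rw [hvΘ i0, mul_zero]
        · rw [hφ _ _ (hxA' t i), ← hxz]
          exact hi0
      obtain ⟨v', hv'1, hv'2⟩ := hvv v hvf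
      refine ⟨v', ?_, ?_, ?_⟩
      · intro a ha
        have h1 := hPT.ov.le t a ha
        have e : (⟨algebraMap L K a, ho.le t a ha⟩ : M'.A t) =
            ⟨pq π (algebraMap L N a), by rw [hcomp a (hAQ t h1)]; exact ho.le t a ha⟩ :=
          Subtype.ext (hcomp a (hAQ t h1)).symm
        rw [e, hv'1 _ h1]
        exact hv1 a ha
      · intro i0
        rw [← hvΘ i0]
        exact Finset.sum_congr rfl fun i _ => by rw [hv'2]
      · unfold om
        rw [hv'1 _ (hPT.yA t), ← hφ _ (hPT.yA t)]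
        have e1 : v.D.D ⟨y t, hPT.yA t⟩ = φ ⟨y t, hPT.yA t⟩ * v.e none := v.hx none (hPT.yA t)
        rw [e1, Finset.sum_congr rfl fun i _ => by rw [hv'2]]
        linear_combination φ ⟨y t, hPT.yA t⟩ * hve
    · -- separation
      intro i hi hle t κ _ _ φ' hi0 hy
      have h1 : SepY M y i := by
        by_contra h2
        exact hBd i ⟨hi, hle, h2⟩
      obtain ⟨φ, hφ, hφf, hvv⟩ := pt t κ φ'
      obtain ⟨α, hα, β, hβ, h2⟩ := h1 t
      have h3 : (⟨α, hα⟩ : M.A t) * ⟨M.x t i, M.xA t i⟩ + ⟨β, hβ⟩ * ⟨y t, hPT.yA t⟩ = 1 :=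
        Subtype.ext h2
      have h4 := congrArg φ h3
      rw [map_add, map_mul, map_mul, map_one, hφ _ (M.xA t i) (hxA' t i),
        hφ _ (hPT.yA t) (hyA' t), hy, ← hxz, hi0] at h4
      simp at h4
    · -- domination
      rintro t κ _ _ φ' ⟨i0, hi0, hz0⟩ hh0
      obtain ⟨φ, hφ, hφf, hvv⟩ := pt t κ φ'
      obtain ⟨i, hΘ, hi⟩ := exists_comp ho t φ' i0 hz0
      have h1 : ∑ i1, Θ i i1 * n0 i1 < 0 := by
        refine Finset.sum_neg' (fun i1 _ => ?_) ⟨i0, Finset.mem_univ _, ?_⟩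
        · exact mul_nonpos_of_nonneg_of_nonpos (hPT.ov.Θ0 i i1) (hN.n0 i1)
        · exact mul_neg_of_pos_of_neg hΘ hi0
      have h2 := hPT.ce i
      have h3 : μ i < 0 ∨ c i < 0 := by
        by_contra hcon
        push Not at hcon
        have h4 := hPT.m0 i
        have h5 : μ i = 0 := by omega
        rw [h5, mul_zero, sub_zero] at h2
        omega
      have h4 := hv4 t κ φ (hfA t) hφf ⟨i, h3, by rw [hφ _ _ (hxA' t i), ← hxz]; exact hi⟩ (by
        have h5 := hPT.ov.le t _ (hPT.hA (π0 t))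
        have e : (⟨algebraMap L K (h0 (π0 t)), ho.le t _ (hN.hA (π0 t))⟩ : M'.A t) =
            ⟨pq π (algebraMap L N (h0 (π0 t))), by
              rw [hcomp _ (hAQ t h5)]; exact ho.le t _ (hN.hA (π0 t))⟩ :=
          Subtype.ext (hcomp _ (hAQ t h5)).symm
        rw [e, ← hφ _ h5] at hh0
        exact hh0)
      refine ⟨?_, ?_⟩
      · rw [← hφ _ (hPT.yA t)]
        exact h4.1
      · intro l hl
        have h5 := h4.2 l (by rw [hφ _ _ (hxA' t l), ← hxz]; exact hl)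
        have h6 := hPT.ce l
        omega

end Pool.Agent.K3h19.Witt
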