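import Pool.Agent.K3h19.Witt.PBL1
import Pool.Agent.W32.WT.Nxt
import Pool.Agent.W558.WT.Asm1

/-!
# Separation of the components with large poles of `Z ^ m` from the divisors `y = 0`
-/

set_option autoImplicit false
set_option linter.unusedVariables false
set_option linter.unusedSimpArgs false
set_option linter.unusedSectionVars false

universe u

open Polynomial

namespace Pool.Agent.K3h19.Witt

open Pool.Agent.W558

section glue

variable {p : ℕ} [Fact p.Prime] {k L N : Type u} [Field k] [CharP k p] [Field L] [Field N]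
  [Algebra k L] [Algebra k N] [Algebra L N] [IsScalarTower k L N] [CharP N p] {T0 I0 T I : Type}
  [Fintype I0] [Fintype I] {B : LM (⊥ : Subalgebra k L) ⊤ T0 I0} {n0 : I0 → ℤ} {h0 : T0 → L}
  {M : LM (⊥ : Subalgebra k N) ⊤ T I} {F : N} {Q : Subalgebra k N} {y : T → N} {c μ : I → ℤ}
  {π : T → T0} {Θ : I → I0 → ℤ}

/-- `Z` is equal to `x ^ μ * y`, up to a constant. -/
lemma zeq (hPS : PAT p B M π Θ F Q y h0 n0 c μ) {f : L}
    (hf : ∀ t, f = (∏ i, B.x t i ^ n0 i) * h0 t) {Z : N}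
    (hF : F = Z ^ p - Z - algebraMap L N f) (t : T) :
    ∃ d : ZMod p, Z = (∏ i, M.x t i ^ μ i) * y t + zc p N d := by
  have hx0 := M.x0 t
  have e1 : ∏ i, M.x t i ^ ((p : ℤ) * μ i) = (∏ i, M.x t i ^ μ i) ^ p := by
    rw [← Finset.prod_pow]
    refine Finset.prod_congr rfl fun i _ => ?_
    rw [mul_comm, zpow_mul, zpow_natCast]
  have e2 : (∏ i, M.x t i ^ ((p : ℤ) * μ i)) * ∏ i, M.x t i ^ (-((p : ℤ) - 1) * μ i) =
      ∏ i, M.x t i ^ μ i := by
    rw [← Finset.prod_mul_distrib]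
    refine Finset.prod_congr rfl fun i _ => ?_
    rw [← zpow_add₀ (hx0 i)]
    congr 1
    ring
  have e3 : (∏ i, M.x t i ^ ((p : ℤ) * μ i)) * ∏ i, M.x t i ^ c i =
      algebraMap L N (∏ i, B.x (π t) i ^ n0 i) := by
    rw [Pool.Agent.W32.WT.mon_pull hPS.ov, ← Finset.prod_mul_distrib]
    refine Finset.prod_congr rfl fun i _ => ?_
    rw [← zpow_add₀ (hx0 i), hPS.ce i]
    congr 1
    ring
  have e4 : algebraMap L N f = algebraMap L N (∏ i, B.x (π t) i ^ n0 i) *
      algebraMap L N (h0 (π t)) := by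
    rw [← map_mul, ← hf]
  have e5 := hPS.eq t
  have e6 : (Z - (∏ i, M.x t i ^ μ i) * y t) ^ p = Z - (∏ i, M.x t i ^ μ i) * y t := by
    rw [sub_pow_char, mul_pow]
    rw [hF] at e5
    rw [← e1]
    linear_combination e5 + e4 - y t * e2 - algebraMap L N (h0 (π t)) * e3
  obtain ⟨d, hd⟩ := Pool.Agent.W558.zc_of_pow p _ e6
  exact ⟨d, by linear_combination hd⟩

lemma zc_mem (A : Subalgebra k N) (d : ZMod p) : zc p N d ∈ A := by
  have h1 : zc p N d = ((d.val : ℕ) : N) := by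
    conv_lhs => rw [← ZMod.natCast_zmod_val d]
    rw [map_natCast]
  rw [h1]
  exact natCast_mem A _

/-- The divisors `y = 0` agree on the components with `μ < 0`. -/
lemma glue (hPS : PAT p B M π Θ F Q y h0 n0 c μ) {f : L}
    (hf : ∀ t, f = (∏ i, B.x t i ^ n0 i) * h0 t) {Z : N}
    (hF : F = Z ^ p - Z - algebraMap L N f) (i : I) (hi : μ i < 0) (t t' : T) :
    ∃ n : ℕ, ∃ α ∈ M.A t, ∃ β ∈ M.A t,
      (M.H t' / M.H t) ^ n * y t' = α * y t + β * M.x t i := by
  classical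
  have hx0 := M.x0 t
  have hx0' := M.x0 t'
  obtain ⟨d, hd⟩ := zeq hPS hf hF t
  obtain ⟨d', hd'⟩ := zeq hPS hf hF t'
  choose n hn using fun l => M.gi t t' l
  let R : N := ∏ l, (M.x t' l / M.x t l) ^ (-μ l)
  have hR1 : (M.H t' / M.H t) ^ (∑ l, n l * (-μ l).toNat) * R ∈ M.A t := by
    have e1 : (M.H t' / M.H t) ^ (∑ l, n l * (-μ l).toNat) * R =
        ∏ l, ((M.H t' / M.H t) ^ n l * (M.x t' l / M.x t l)) ^ (-μ l).toNat := by
      rw [← Finset.prod_pow_eq_pow_sum, ← Finset.prod_mul_distrib]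
      refine Finset.prod_congr rfl fun l _ => ?_
      rw [mul_pow, ← pow_mul]
      congr 1
      have h1 := hPS.m0 l
      have h2 : (-μ l) = (((-μ l).toNat : ℕ) : ℤ) := (Int.toNat_of_nonneg (by omega)).symm
      conv_lhs => rw [h2]
      rw [zpow_natCast]
    rw [e1]
    exact (M.A t).prod_mem fun l _ => (M.A t).pow_mem (hn l) _
  have hR2 : R * (∏ l, M.x t' l ^ μ l) = ∏ l, M.x t l ^ μ l := by
    change (∏ l, (M.x t' l / M.x t l) ^ (-μ l)) * _ = _
    rw [← Finset.prod_mul_distrib]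
    refine Finset.prod_congr rfl fun l _ => ?_
    have h1 := hx0 l
    have h2 := hx0' l
    rw [div_zpow, zpow_neg, zpow_neg]
    have h3 : M.x t l ^ μ l ≠ 0 := zpow_ne_zero _ h1
    have h4 : M.x t' l ^ μ l ≠ 0 := zpow_ne_zero _ h2
    field_simp
  let W : N := ∏ l, M.x t l ^ (-μ l - if l = i then 1 else 0)
  have hWA : W ∈ M.A t := by
    refine Pool.Agent.W32.WT.zmem_prod (M.xA t) _ fun l => Or.inl ?_
    have h1 := hPS.m0 l
    split_ifs with h2
    · rw [h2]; omega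
    · omega
  have hW : W * M.x t i * (∏ l, M.x t l ^ μ l) = 1 := by
    have e1 : M.x t i = ∏ l, M.x t l ^ (if l = i then (1 : ℤ) else 0) := by
      rw [Finset.prod_eq_single i]
      · rw [if_pos rfl, zpow_one]
      · intro l _ hl
        rw [if_neg hl, zpow_zero]
      · intro h
        exact absurd (Finset.mem_univ i) h
    change (∏ l, M.x t l ^ (-μ l - if l = i then 1 else 0)) * M.x t i * _ = 1
    conv_lhs => rw [e1]
    rw [← Finset.prod_mul_distrib, ← Finset.prod_mul_distrib]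
    refine Finset.prod_eq_one fun l _ => ?_
    rw [← zpow_add₀ (hx0 l), ← zpow_add₀ (hx0 l)]
    have : -μ l - (if l = i then (1 : ℤ) else 0) + (if l = i then (1 : ℤ) else 0) + μ l = 0 := by
      ring
    rw [this, zpow_zero]
  have hU0 : (∏ l, M.x t l ^ μ l) ≠ 0 :=
    Finset.prod_ne_zero_iff.2 fun l _ => zpow_ne_zero _ (hx0 l)
  have hU0' : (∏ l, M.x t' l ^ μ l) ≠ 0 :=
    Finset.prod_ne_zero_iff.2 fun l _ => zpow_ne_zero _ (hx0' l)
  have hR0 : R ≠ 0 := left_ne_zero_of_mul (hR2 ▸ hU0)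
  have key : y t' = R * y t + zc p N (d - d') * (R * (W * M.x t i)) := by
    have h1 : (∏ l, M.x t' l ^ μ l) * y t' =
        (∏ l, M.x t l ^ μ l) * y t + zc p N (d - d') := by
      rw [map_sub]
      linear_combination -hd' + hd
    have h2 : (∏ l, M.x t' l ^ μ l) * (R * y t + zc p N (d - d') * (R * (W * M.x t i))) =
        (∏ l, M.x t l ^ μ l) * y t + zc p N (d - d') := by
      linear_combination (y t + zc p N (d - d') * (W * M.x t i)) * hR2 + zc p N (d - d') * hW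
    exact mul_left_cancel₀ hU0' (h1.trans h2.symm)
  refine ⟨∑ l, n l * (-μ l).toNat, _, hR1,
    zc p N (d - d') * ((M.H t' / M.H t) ^ (∑ l, n l * (-μ l).toNat) * R) * W,
    (M.A t).mul_mem ((M.A t).mul_mem (zc_mem _ _) hR1) hWA, ?_⟩
  rw [key]
  ring

end glue

section iter

variable {k N : Type u} [Field k] [Field N] [Algebra k N] {T I I0 : Type}

/-- The component `i` has a large pole and meets the divisors `y = 0`. -/
def Bd (M : LM (⊥ : Subalgebra k N) ⊤ T I) (y : T → N) [Fintype I0] (μ : I → ℤ)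
    (Θ : I → I0 → ℤ) (nn : I0 → ℤ) (m : ℕ) (i : I) : Prop :=
  μ i < 0 ∧ (m : ℤ) * μ i ≤ ∑ i0, Θ i i0 * nn i0 ∧ ¬ SepY M y i

open Classical in
theorem sep_iter {p : ℕ} [Fact p.Prime] {L : Type u} [CharP k p] [Field L]
    [Algebra k L] [Algebra L N] [IsScalarTower k L N] [CharP N p] {T0 G : Type}
    [Fintype I0] {B : LM (⊥ : Subalgebra k L) ⊤ T0 I0} {n0 : I0 → ℤ} {h0 : T0 → L}
    {F : N} {Q : Subalgebra k N} {g : G → N} {f : L}
    (hf : ∀ t, f = (∏ i, B.x t i ^ n0 i) * h0 t) {Z : N}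
    (hF : F = Z ^ p - Z - algebraMap L N f) (nn : I0 → ℤ) (m : ℕ) (s : ℕ) :
    ∀ {T I : Type} [Finite T] [Fintype I] {M : LM (⊥ : Subalgebra k N) ⊤ T I} {y : T → N}
      {c μ : I → ℤ} {Γ : G → I → ℤ} {π : T → T0} {Θ : I → I0 → ℤ},
    PAT p B M π Θ F Q y h0 n0 c μ → Lq M Q → Fn M g Γ → Fin2 M y c →
    (∑ i, if Bd M y μ Θ nn m i then (-μ i).toNat else 0) ≤ s →
    ∃ (T' I' : Type) (_ : Finite T') (_ : Fintype I') (M' : LM (⊥ : Subalgebra k N) ⊤ T' I')
      (y' : T' → N) (c' μ' : I' → ℤ) (Γ' : G → I' → ℤ) (π' : T' → T0) (Θ' : I' → I0 → ℤ),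
      PAT p B M' π' Θ' F Q y' h0 n0 c' μ' ∧ Lq M' Q ∧ Fn M' g Γ' ∧ Fin2 M' y' c' ∧
      ∀ i, ¬ Bd M' y' μ' Θ' nn m i := by
  induction s with
  | zero =>
    intro T I _ _ M y c μ Γ π Θ hPS hLq hFn hF2 hs
    refine ⟨T, I, inferInstance, inferInstance, M, y, c, μ, Γ, π, Θ, hPS, hLq, hFn, hF2, ?_⟩
    intro i hi
    have h1 := Finset.sum_eq_zero_iff.1 (Nat.le_zero.1 hs) i (Finset.mem_univ i)
    rw [if_pos hi] at h1
    have h2 := hi.1
    omega
  | succ s ih =>
    intro T I _ _ M y c μ Γ π Θ hPS hLq hFn hF2 hs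
    by_cases hb : ∃ i, Bd M y μ Θ nn m i
    · obtain ⟨i, hi⟩ := hb
      obtain ⟨M', y', Γ', hPS', hLq', hFn', hS1, hS2, hF2'⟩ :=
        pbl1 p hPS hLq hFn hF2 i hi.1 (glue hPS hf hF i hi.1)
      refine ih hPS' hLq' hFn' hF2' ?_
      rw [Fintype.sum_option]
      have h1 : (if Bd M' y' (fun o : Option I => o.elim (μ i + 1) μ)
          (fun (o : Option I) i0 => o.elim (Θ i i0) fun l => Θ l i0) nn m none then
            (-(μ i + 1)).toNat else 0) + 1 ≤ (-μ i).toNat := by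
        have := hi.1
        split_ifs <;> omega
      have h2 : (∑ l, if Bd M' y' (fun o : Option I => o.elim (μ i + 1) μ)
          (fun (o : Option I) i0 => o.elim (Θ i i0) fun l => Θ l i0) nn m (some l) then
            (-μ l).toNat else 0) ≤
          ∑ l ∈ Finset.univ.erase i, if Bd M y μ Θ nn m l then (-μ l).toNat else 0 := by
        rw [← Finset.add_sum_erase Finset.univ _ (Finset.mem_univ i), if_neg, zero_add]
        · refine Finset.sum_le_sum fun l _ => ?_
          by_cases hl : Bd M' y' (fun o : Option I => o.elim (μ i + 1) μ)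
              (fun (o : Option I) i0 => o.elim (Θ i i0) fun l => Θ l i0) nn m (some l)
          · rw [if_pos hl, if_pos ⟨hl.1, hl.2.1, fun h => hl.2.2 (hS2 l h)⟩]
          · rw [if_neg hl]
            exact Nat.zero_le _
        · exact fun h => h.2.2 hS1
      have h3 := Finset.add_sum_erase Finset.univ
        (fun l => if Bd M y μ Θ nn m l then (-μ l).toNat else 0) (Finset.mem_univ i)
      simp only [if_pos hi] at h3
      simp only [Option.elim_none, Option.elim_some] at h1 h2 ⊢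
      omega
    · exact ⟨T, I, inferInstance, inferInstance, M, y, c, μ, Γ, π, Θ, hPS, hLq, hFn, hF2,
        fun i hi => hb ⟨i, hi⟩⟩

end iter

end Pool.Agent.K3h19.Witt
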