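import Mathlib.RingTheory.WittVector.Frobenius
import Mathlib.Algebra.CharP.Lemmas
import Mathlib.Data.Nat.Choose.Dvd
import Mathlib.FieldTheory.Finite.Basic
import Mathlib.Tactic

/-!
# Witt vectors of length two
-/

set_option autoImplicit false

universe u

namespace Pool.Agent.K3h19.Witt

section wadd

open MvPolynomial

lemma choose_sum {R : Type u} [CommRing R] (p : ℕ) [hp : Fact p.Prime] (x y : R) :
    (x + y) ^ p = x ^ p + y ^ p +
      (p : R) * ∑ i ∈ Finset.Ico 1 p, ((p.choose i / p : ℕ) : R) * x ^ i * y ^ (p - i) := by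
  have hp1 := hp.out.one_lt
  rw [add_pow, Finset.range_eq_Ico, Finset.sum_eq_sum_Ico_succ_bot (Nat.succ_pos p),
    Finset.sum_Ico_succ_top (by omega : 0 + 1 ≤ p)]
  rw [Finset.mul_sum]
  have h1 : ∑ i ∈ Finset.Ico (0 + 1) p, x ^ i * y ^ (p - i) * (p.choose i : R) =
      ∑ i ∈ Finset.Ico 1 p, (p : R) * (((p.choose i / p : ℕ) : R) * x ^ i * y ^ (p - i)) := by
    rw [zero_add]
    refine Finset.sum_congr rfl fun i hi => ?_
    rw [Finset.mem_Ico] at hi
    have h2 : p ∣ p.choose i := hp.out.dvd_choose_self (by omega) (by omega)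
    have h3 : (p.choose i : R) = (p : R) * ((p.choose i / p : ℕ) : R) := by
      rw [← Nat.cast_mul, Nat.mul_div_cancel' h2]
    rw [h3]
    ring
  rw [h1]
  simp
  ring

lemma wittAdd_one (p : ℕ) [Fact p.Prime] : WittVector.wittAdd p 1 =
    X (0, 1) + X (1, 1) - ∑ i ∈ Finset.Ico 1 p,
      ((p.choose i / p : ℕ) : MvPolynomial (Fin 2 × ℕ) ℤ) * X (0, 0) ^ i * X (1, 0) ^ (p - i) := by
  have h1 := wittStructureInt_prop p (X 0 + X 1 : MvPolynomial (Fin 2) ℤ) 1
  rw [wittPolynomial_one] at h1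
  simp only [map_add, map_mul, map_pow, bind₁_X_right, rename_X, rename_C, bind₁_C_right] at h1
  have h0 : wittStructureInt p (X 0 + X 1 : MvPolynomial (Fin 2) ℤ) 0 = X (0, 0) + X (1, 0) :=
    WittVector.wittAdd_zero p
  rw [h0, choose_sum] at h1
  have hp0 : (C (p : ℤ) : MvPolynomial (Fin 2 × ℕ) ℤ) ≠ 0 := by
    rw [Ne, C_eq_zero]
    exact_mod_cast (Fact.out : p.Prime).ne_zero
  apply mul_left_cancel₀ hp0
  have h2 : (C (p : ℤ) : MvPolynomial (Fin 2 × ℕ) ℤ) = (p : MvPolynomial (Fin 2 × ℕ) ℤ) := by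
    simp
  rw [h2] at h1 ⊢
  unfold WittVector.wittAdd
  linear_combination h1

end wadd

/-- The second component of a sum. -/
lemma add_coeff_one (p : ℕ) [Fact p.Prime] {R : Type u} [CommRing R] (x y : WittVector p R) :
    (x + y).coeff 1 = x.coeff 1 + y.coeff 1 -
      ∑ i ∈ Finset.Ico 1 p, ((p.choose i / p : ℕ) : R) * x.coeff 0 ^ i * y.coeff 0 ^ (p - i) := by
  rw [WittVector.add_coeff, wittAdd_one]
  unfold WittVector.peval
  simp only [map_sub, map_add, map_sum, map_mul, map_pow, MvPolynomial.aeval_X, map_natCast,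
    Function.uncurry]
  rfl

section poly

open Polynomial

/-- The polynomial of the second step of a Witt extension. -/
noncomputable def PW (p : ℕ) (k : Type u) [Field k] : k[X] :=
  -∑ i ∈ Finset.Ico 1 p, C ((p.choose i / p : ℕ) : k) * X ^ i * (X ^ p - X) ^ (p - i)

lemma natDegree_PW (p : ℕ) [hp : Fact p.Prime] (k : Type u) [Field k] [CharP k p] :
    (PW p k).natDegree = p * (p - 1) + 1 := by
  have hp1 := hp.out.one_lt
  have hX : ∀ e : ℕ, ((X ^ p - X : k[X]) ^ e).natDegree = p * e := by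
    intro e
    rw [natDegree_pow]
    have h1 : (X ^ p - X : k[X]).natDegree = p := FiniteField.X_pow_card_sub_X_natDegree_eq k hp1
    rw [h1, mul_comm]
  unfold PW
  rw [natDegree_neg, Finset.sum_eq_sum_Ico_succ_bot hp1]
  have h1 : (C ((p.choose 1 / p : ℕ) : k) * X ^ 1 * (X ^ p - X) ^ (p - 1)).natDegree =
      p * (p - 1) + 1 := by
    rw [Nat.choose_one_right, Nat.div_self (by omega), Nat.cast_one, map_one, one_mul, pow_one,
      natDegree_X_mul, hX]
    exact pow_ne_zero _ (FiniteField.X_pow_card_sub_X_ne_zero k hp1)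
  have h2 : (∑ i ∈ Finset.Ico (1 + 1) p, C ((p.choose i / p : ℕ) : k) * X ^ i *
      (X ^ p - X) ^ (p - i)).natDegree < p * (p - 1) + 1 := by
    refine lt_of_le_of_lt (natDegree_sum_le_of_forall_le (n := p * (p - 1)) _ _ ?_)
      (Nat.lt_succ_self _)
    intro i hi
    rw [Finset.mem_Ico] at hi
    refine natDegree_mul_le.trans ?_
    rw [hX]
    have h3 : (C ((p.choose i / p : ℕ) : k) * X ^ i).natDegree ≤ i := natDegree_C_mul_X_pow_le _ _
    have h4 : i + p * (p - i) ≤ p * (p - 1) := by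
      obtain ⟨j, hj⟩ : ∃ j, p = i + j := ⟨p - i, by omega⟩
      have h5 : p - i = j := by omega
      have h6 : p - 1 = (i - 1) + j := by omega
      rw [h5, h6]
      have h7 : i ≤ p * (i - 1) := by
        obtain ⟨i', hi'⟩ : ∃ i', i = i' + 2 := ⟨i - 2, by omega⟩
        have h8 : i - 1 = i' + 1 := by omega
        rw [h8, hi']
        nlinarith
      nlinarith
    omega
  rw [natDegree_add_eq_left_of_natDegree_lt (by rw [h1]; exact h2), h1]

/-- The equations of a Witt extension of length two. -/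
lemma witt_pair (p : ℕ) [Fact p.Prime] {k R : Type u} [Field k] [CommRing R] [CharP R p]
    [Algebra k R] (Z : WittVector p R) :
    Z.coeff 0 ^ p - Z.coeff 0 = (WittVector.frobenius Z - Z).coeff 0 ∧
    Z.coeff 1 ^ p - Z.coeff 1 = (WittVector.frobenius Z - Z).coeff 1 +
      aeval (Z.coeff 0) (PW p k) := by
  have h0 : WittVector.frobenius Z = Z + (WittVector.frobenius Z - Z) := by ring
  have h1 := congrArg (fun z => z.coeff 0) h0
  have h2 := congrArg (fun z => z.coeff 1) h0
  simp only [WittVector.coeff_frobenius_charP, WittVector.add_coeff_zero] at h1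
  simp only [WittVector.coeff_frobenius_charP, add_coeff_one] at h2
  have h3 : (WittVector.frobenius Z - Z).coeff 0 = Z.coeff 0 ^ p - Z.coeff 0 := by
    rw [h1]; ring
  refine ⟨h3.symm, ?_⟩
  rw [h2, h3]
  unfold PW
  simp only [map_neg, map_sum, map_mul, map_pow, map_sub, aeval_X, map_natCast]
  ring

end poly

end Pool.Agent.K3h19.Witt
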