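import Pool.Agent.K3h19.Witt.Tower2
import Pool.Agent.K3h19.Witt.Insep
import Pool.Agent.K3h19.Witt.WV

/-!
# Towers of pairs with `p`-th roots
-/

set_option autoImplicit false
set_option linter.unusedVariables false
set_option linter.unusedSectionVars false

universe u

open Polynomial

namespace Pool.Agent.K3h19.Witt

open Pool.Agent.W558 Pool.Agent.W498.Tor Pool.Agent.TH188.WP
open Pool.Agent.H176.Mix (Pole Small)

section amb

variable {k L : Type u} [Field k] [PerfectField k] [Field L] [Algebra k L] {T0 I0 : Type}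
  [Fintype I0] [Finite T0] {M0 : LM (⊥ : Subalgebra k L) ⊤ T0 I0}
  {E : Type u} [Field E] [Algebra k E] [Algebra L E] [IsScalarTower k L E]
  {p : ℕ} [Fact p.Prime] [CharP k p] {r : ℕ} {f g : Fin r → L} {m : Fin r → ℕ}
  {n0 n1 : Fin r → I0 → ℤ} {h0 h1 b : T0 → Fin r → L}

variable (k) in
/-- The second step of a pair. -/
def Step2 (p m : ℕ) [Fact p.Prime] (z w G : E) : Prop :=
  (∃ Φ : k[X], Φ.natDegree = m ∧ ¬ p ∣ m ∧ w ^ p - w = G + aeval z Φ) ∨
  (m = p * (p - 1) + 1 ∧ ∃ Z : WittVector p E, Z.coeff 0 = z ∧ Z.coeff 1 = w ∧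
    (WittVector.frobenius Z - Z).coeff 1 = G)

lemma Step2.poly {m : ℕ} {z w G : E} (h : Step2 k p m z w G) :
    ∃ Φ : k[X], Φ.natDegree = m ∧ ¬ p ∣ m ∧ w ^ p - w = G + aeval z Φ := by
  rcases h with h | ⟨hm, Z, h0, h1, h2⟩
  · exact h
  · have hcE : CharP E p := charP_of_injective_algebraMap (algebraMap k E).injective p
    refine ⟨PW p k, by rw [natDegree_PW, hm], ?_, ?_⟩
    · intro hd
      rw [hm] at hd
      have h3 : p ∣ 1 := (Nat.dvd_add_right (Dvd.intro _ rfl)).1 hd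
      exact (Fact.out : p.Prime).one_lt.ne' (Nat.dvd_one.1 h3)
    · have h3 := (witt_pair (k := k) p Z).2
      rw [h0, h1, h2] at h3
      exact h3

/-- Models of towers of pairs. -/
theorem gv_pairs (hW : WD p M0 f g m n0 n1 h0 h1 b) {G : Type} {γ : G → L} {Γ : G → I0 → ℤ}
    (hG : Fn M0 γ Γ) (hR : Frc M0) (z w s s' : Fin r → E)
    (hz : ∀ j, z j ^ p - z j = algebraMap L E (f j) + s j)
    (hs : ∀ j, s j ∈ IntermediateField.adjoin L (z '' {l | l < j} ∪ w '' {l | l < j}))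
    (hsm : ∀ j t0, Small M0 (n0 j) t0 (s j * algebraMap L E (∏ l, M0.x t0 l ^ (-n0 j l))))
    (hw : ∀ j, Step2 k p (m j) (z j) (w j) (algebraMap L E (g j) + s' j))
    (hs' : ∀ j, s' j ∈ IntermediateField.adjoin L (z '' {l | l ≤ j} ∪ w '' {l | l < j}))
    (hsm' : ∀ j t0, ∃ b' ∈ IntermediateField.adjoin L (z '' {l | l ≤ j} ∪ w '' {l | l < j}),
      Small M0 (n1 j) t0
        ((s' j - (b' ^ p - b')) * algebraMap L E (∏ l, M0.x t0 l ^ (-n1 j l)))) :
    GV (hW.W r) γ (IntermediateField.adjoin L (Set.range z ∪ Set.range w)) := by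
  choose Φ hΦ hpm hwΦ using fun j => (hw j).poly
  have h1 := gv_tower hW hG hR Φ hΦ hpm z w s s' hz hs hsm (fun j => by
    rw [hwΦ j]; ring) hs' hsm' r le_rfl
  have h2 : ∀ y : Fin r → E, y '' {l : Fin r | l.val < r} = Set.range y := by
    intro y
    rw [← Set.image_univ]
    congr 1
    ext l
    simp
  rw [h2, h2] at h1
  exact h1

end amb

end Pool.Agent.K3h19.Witt
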