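import Pool.Agent.K3h19.Witt.Tower

/-!
# Towers of pairs of Artin-Schreier extensions: the induction
-/

set_option autoImplicit false
set_option linter.unusedVariables false
set_option linter.unusedSectionVars false

universe u

open Polynomial

namespace Pool.Agent.K3h19.Witt

open Pool.Agent.W558 Pool.Agent.W498.Tor Pool.Agent.TH188.WP
open Pool.Agent.TH188.WQ (Cp exists_lt lc om_lc)
open Pool.Agent.H176.Mix (Pole ovr_of ovr_to pole_pull Small int_of_base small_om)

section data

variable {k L : Type u} [Field k] [Field L] [Algebra k L] {T0 I0 : Type} [Fintype I0]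
  {r : ℕ}

/-- Jointly clean pairs of functions. -/
structure WD (p : ℕ) (M0 : LM (⊥ : Subalgebra k L) ⊤ T0 I0) (f g : Fin r → L) (m : Fin r → ℕ)
    (n0 n1 : Fin r → I0 → ℤ) (h0 h1 b : T0 → Fin r → L) : Prop where
  n00 : ∀ j i, n0 j i ≤ 0
  n10 : ∀ j i, n1 j i ≤ 0
  h0A : ∀ j t, h0 t j ∈ M0.A t
  h1A : ∀ j t, h1 t j ∈ M0.A t
  eq0 : ∀ j t, f j = (∏ i, M0.x t i ^ n0 j i) * h0 t j
  eq1 : ∀ j t, g j = b t j ^ p - b t j + (∏ i, M0.x t i ^ n1 j i) * h1 t j
  c0 : ∀ (j : Fin r) t (κ : Type u) [Field κ] [Algebra k κ] (ψ : M0.A t →ₐ[k] κ),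
    Pole M0 t ψ (n0 j) → ∃ v : LT ψ (M0.x t),
      (∀ l < j, WB p (m l) M0 (n0 l) (fun t => h0 t l) (h0A l) (n1 l) (fun t => h1 t l) (h1A l)
        t κ ψ v) ∧ om v (n0 j) (h0A j t) ≠ 0
  c1 : ∀ (j : Fin r) t (κ : Type u) [Field κ] [Algebra k κ] (ψ : M0.A t →ₐ[k] κ),
    Pole M0 t ψ (n1 j) → ¬ Dmn p (m j) M0 (n0 j) (fun t => h0 t j) (h0A j) (n1 j) t ψ →
      ∃ v : LT ψ (M0.x t),
      (∀ l < j, WB p (m l) M0 (n0 l) (fun t => h0 t l) (h0A l) (n1 l) (fun t => h1 t l) (h1A l)
        t κ ψ v) ∧ (Pole M0 t ψ (n0 j) → om v (n0 j) (h0A j t) = 0) ∧ om v (n1 j) (h1A j t) ≠ 0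

variable {p : ℕ} {M0 : LM (⊥ : Subalgebra k L) ⊤ T0 I0} {f g : Fin r → L} {m : Fin r → ℕ}
  {n0 n1 : Fin r → I0 → ℤ} {h0 h1 b : T0 → Fin r → L}

/-- The condition on the vectors. -/
def WD.W (hW : WD p M0 f g m n0 n1 h0 h1 b) (e : ℕ) : VS M0 :=
  fun t κ _ _ ψ v => ∀ l : Fin r, l.val < e →
    WB p (m l) M0 (n0 l) (fun t => h0 t l) (hW.h0A l) (n1 l) (fun t => h1 t l) (hW.h1A l) t κ ψ v

end data

section amb

variable {k L : Type u} [Field k] [PerfectField k] [Field L] [Algebra k L] {T0 I0 : Type}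
  [Fintype I0] [Finite T0] {M0 : LM (⊥ : Subalgebra k L) ⊤ T0 I0}
  {E : Type u} [Field E] [Algebra k E] [Algebra L E] [IsScalarTower k L E]
  {p : ℕ} [Fact p.Prime] [CharP k p] {r : ℕ} {f g : Fin r → L} {m : Fin r → ℕ}
  {n0 n1 : Fin r → I0 → ℤ} {h0 h1 b : T0 → Fin r → L}

/-- Models of towers. -/
theorem gv_tower (hW : WD p M0 f g m n0 n1 h0 h1 b) {G : Type} {γ : G → L} {Γ : G → I0 → ℤ}
    (hG : Fn M0 γ Γ) (hR : Frc M0) (Φ : Fin r → k[X]) (hΦ : ∀ j, (Φ j).natDegree = m j)
    (hpm : ∀ j, ¬ p ∣ m j) (z w s s' : Fin r → E)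
    (hz : ∀ j, z j ^ p - z j = algebraMap L E (f j) + s j)
    (hs : ∀ j, s j ∈ IntermediateField.adjoin L (z '' {l | l < j} ∪ w '' {l | l < j}))
    (hsm : ∀ j t0, Small M0 (n0 j) t0 (s j * algebraMap L E (∏ l, M0.x t0 l ^ (-n0 j l))))
    (hw : ∀ j, w j ^ p - w j = algebraMap L E (g j) + (aeval (z j) (Φ j) + s' j))
    (hs' : ∀ j, s' j ∈ IntermediateField.adjoin L (z '' {l | l ≤ j} ∪ w '' {l | l < j}))
    (hsm' : ∀ j t0, ∃ b' ∈ IntermediateField.adjoin L (z '' {l | l ≤ j} ∪ w '' {l | l < j}),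
      Small M0 (n1 j) t0
        ((s' j - (b' ^ p - b')) * algebraMap L E (∏ l, M0.x t0 l ^ (-n1 j l)))) :
    ∀ e : ℕ, e ≤ r → GV (hW.W e) γ (IntermediateField.adjoin L
      (z '' {l : Fin r | l.val < e} ∪ w '' {l : Fin r | l.val < e})) := by
  intro e
  induction e with
  | zero =>
    intro _
    refine (gv_init _ hG hR).surj _ ?_
    intro y
    have h1 : z '' {l : Fin r | l.val < 0} ∪ w '' {l : Fin r | l.val < 0} = ∅ := by
      rw [Set.union_empty_iff, Set.image_eq_empty, Set.image_eq_empty]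
      constructor <;> · ext l; simp
    have h4 : IntermediateField.adjoin L
        (z '' {l : Fin r | l.val < 0} ∪ w '' {l : Fin r | l.val < 0}) = ⊥ := by
      rw [h1, IntermediateField.adjoin_empty]
    have h2 : ∀ x : E, x ∈ IntermediateField.adjoin L
        (z '' {l : Fin r | l.val < 0} ∪ w '' {l : Fin r | l.val < 0}) →
        x ∈ (⊥ : IntermediateField L E) := by
      intro x hx
      rw [h4] at hx
      exact hx
    obtain ⟨x, hx⟩ := IntermediateField.mem_bot.1 (h2 y y.2)
    exact ⟨x, Subtype.ext hx⟩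
  | succ e ih =>
    intro he
    have hM := ih (Nat.le_of_succ_le he)
    let j : Fin r := ⟨e, he⟩
    have hset' : {l : Fin r | l < j} = {l : Fin r | l.val < e} := by
      ext l
      simp only [Set.mem_ofPred_eq, j, Fin.lt_def]
    have hset1 : {l : Fin r | l ≤ j} = {l : Fin r | l.val < e + 1} := by
      ext l
      simp only [Set.mem_ofPred_eq, j, Fin.le_def]
      omega
    let S := z '' {l : Fin r | l.val < e} ∪ w '' {l : Fin r | l.val < e}
    let S0 := z '' {l : Fin r | l.val < e + 1} ∪ w '' {l : Fin r | l.val < e}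
    let S1 := z '' {l : Fin r | l.val < e + 1} ∪ w '' {l : Fin r | l.val < e + 1}
    let K := IntermediateField.adjoin L S
    let K0 := IntermediateField.adjoin L S0
    let K1 := IntermediateField.adjoin L S1
    have hlt : {l : Fin r | l.val < e} ⊆ {l : Fin r | l.val < e + 1} := fun l hl => by
      rw [Set.mem_ofPred_eq] at hl ⊢
      omega
    have hle : K ≤ K0 := IntermediateField.adjoin.mono L _ _
      (Set.union_subset_union_left _ (Set.image_mono hlt))
    have hle1 : K0 ≤ K1 := IntermediateField.adjoin.mono L _ _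
      (Set.union_subset_union_right _ (Set.image_mono hlt))
    let _ : Algebra K K0 := (IntermediateField.inclusion hle).toRingHom.toAlgebra
    let _ : Algebra K0 K1 := (IntermediateField.inclusion hle1).toRingHom.toAlgebra
    let _ : Algebra K K1 := (IntermediateField.inclusion (hle.trans hle1)).toRingHom.toAlgebra
    have t1 : IsScalarTower L K K0 := IsScalarTower.of_algebraMap_eq fun c => rfl
    have t2 : IsScalarTower k K K0 := IsScalarTower.of_algebraMap_eq fun c => rfl
    have t3 : IsScalarTower K K0 E := IsScalarTower.of_algebraMap_eq fun c => rfl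
    have t4 : IsScalarTower L K0 K1 := IsScalarTower.of_algebraMap_eq fun c => rfl
    have t5 : IsScalarTower k K0 K1 := IsScalarTower.of_algebraMap_eq fun c => rfl
    have t6 : IsScalarTower K0 K1 E := IsScalarTower.of_algebraMap_eq fun c => rfl
    have t7 : IsScalarTower L K K1 := IsScalarTower.of_algebraMap_eq fun c => rfl
    have t8 : IsScalarTower k K K1 := IsScalarTower.of_algebraMap_eq fun c => rfl
    have t9 : IsScalarTower K K1 E := IsScalarTower.of_algebraMap_eq fun c => rfl
    have t10 : IsScalarTower K K0 K1 := IsScalarTower.of_algebraMap_eq fun c => rfl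
    have t11 : IsScalarTower k K0 E := IsScalarTower.of_algebraMap_eq fun c => rfl
    have hcE : CharP E p := charP_of_injective_algebraMap (algebraMap k E).injective p
    have hcK : CharP K p := charP_of_injective_algebraMap (algebraMap k K).injective p
    have hcK0 : CharP K0 p := charP_of_injective_algebraMap (algebraMap k K0).injective p
    have hcK1 : CharP K1 p := charP_of_injective_algebraMap (algebraMap k K1).injective p
    have hzK0 : z j ∈ K0 := IntermediateField.subset_adjoin L _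
      (Or.inl ⟨j, Nat.lt_succ_self e, rfl⟩)
    have hwK1 : w j ∈ K1 := IntermediateField.subset_adjoin L _
      (Or.inr ⟨j, Nat.lt_succ_self e, rfl⟩)
    let z' : K0 := ⟨z j, hzK0⟩
    let w' : K1 := ⟨w j, hwK1⟩
    have hsK : s j ∈ K := by
      have h1 := hs j
      rw [hset'] at h1
      exact h1
    have hgK : s' j ∈ K0 := by
      have h1 := hs' j
      rw [hset', hset1] at h1
      exact h1
    let sK : K := ⟨s j, hsK⟩
    let gK : K0 := ⟨s' j, hgK⟩
    have hM' : GV (hW.W e) γ K := hM
    have hres : GV (WN (hW.W e) p (m j) (n0 j) (fun t => h0 t j) (hW.h0A j) (n1 j)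
        (fun t => h1 t j) (hW.h1A j)) γ K1 := by
      refine gv_step (f := f j) (g' := g j) (b := fun t => b t j) K K0 K1 hM' (hW.n00 j)
        (hW.h0A j) (hW.eq0 j) (hW.n10 j) (hW.h1A j) (hW.eq1 j)
        (hΦ j) (hpm j) ?_ ?_ sK ?_ z' ?_ ?_ gK ?_ w' ?_ ?_
      · intro t κ _ _ ψ hp
        obtain ⟨v, h1, h2⟩ := hW.c0 j t κ ψ hp
        exact ⟨v, fun l hl => h1 l hl, h2⟩
      · intro t κ _ _ ψ hp hd
        obtain ⟨v, h1, h2, h3⟩ := hW.c1 j t κ ψ hp hd
        exact ⟨v, fun l hl => h1 l hl, h2, h3⟩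
      · intro t0
        have h2 : Small M0 (n0 j) t0 (algebraMap K E (sK *
          algebraMap L K (∏ i, M0.x t0 i ^ (-n0 j i)))) := hsm j t0
        exact h2.of_alg
      · apply (algebraMap K0 E).injective
        rw [map_sub, map_pow]
        change z j ^ p - z j = algebraMap L E (f j) + s j
        exact hz j
      · rw [eq_top_iff]
        intro y _
        have h1 : K0 ≤ ((IntermediateField.adjoin K {z'}).restrictScalars L).map K0.val := by
          change IntermediateField.adjoin L _ ≤ _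
          rw [IntermediateField.adjoin_le_iff]
          have hK : ∀ x : E, x ∈ K →
              x ∈ ((IntermediateField.adjoin K {z'}).restrictScalars L).map K0.val := by
            intro x hx
            refine ⟨algebraMap K K0 ⟨x, hx⟩, ?_, rfl⟩
            exact IntermediateField.algebraMap_mem (IntermediateField.adjoin K {z'})
              (⟨x, hx⟩ : K)
          rintro _ (⟨l, hl, rfl⟩ | ⟨l, hl, rfl⟩)
          · by_cases hlm : l.val < e
            · exact hK _ (IntermediateField.subset_adjoin L _ (Or.inl ⟨l, hlm, rfl⟩))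
            · have h2 : l = j := by
                apply Fin.ext
                change l.val = e
                rw [Set.mem_ofPred_eq] at hl
                omega
              rw [h2]
              exact ⟨z', IntermediateField.mem_adjoin_simple_self K z', rfl⟩
          · exact hK _ (IntermediateField.subset_adjoin L _ (Or.inr ⟨l, hl, rfl⟩))
        obtain ⟨y', hy', hyy⟩ := h1 y.2
        have h3 : y' = y := Subtype.ext hyy
        rw [← h3]
        exact hy'
      · intro t0
        obtain ⟨b', hb, h1⟩ := hsm' j t0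
        rw [hset', hset1] at hb
        refine ⟨⟨b', hb⟩, ?_⟩
        have h2 : Small M0 (n1 j) t0 (algebraMap K0 E ((gK - ((⟨b', hb⟩ : K0) ^ p - ⟨b', hb⟩)) *
            algebraMap L K0 (∏ i, M0.x t0 i ^ (-n1 j i)))) := h1
        exact h2.of_alg
      · apply (algebraMap K1 E).injective
        rw [map_sub, map_pow, map_add, ← IsScalarTower.algebraMap_apply L K1 E,
          ← IsScalarTower.algebraMap_apply K0 K1 E, map_add, ← aeval_algebraMap_apply]
        exact hw j
      · rw [eq_top_iff]
        intro y _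
        have h1 : K1 ≤ ((IntermediateField.adjoin K0 {w'}).restrictScalars L).map K1.val := by
          change IntermediateField.adjoin L _ ≤ _
          rw [IntermediateField.adjoin_le_iff]
          have hK : ∀ x : E, x ∈ K0 →
              x ∈ ((IntermediateField.adjoin K0 {w'}).restrictScalars L).map K1.val := by
            intro x hx
            refine ⟨algebraMap K0 K1 ⟨x, hx⟩, ?_, rfl⟩
            exact IntermediateField.algebraMap_mem (IntermediateField.adjoin K0 {w'})
              (⟨x, hx⟩ : K0)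
          rintro _ (⟨l, hl, rfl⟩ | ⟨l, hl, rfl⟩)
          · exact hK _ (IntermediateField.subset_adjoin L _ (Or.inl ⟨l, hl, rfl⟩))
          · by_cases hlm : l.val < e
            · exact hK _ (IntermediateField.subset_adjoin L _ (Or.inr ⟨l, hlm, rfl⟩))
            · have h2 : l = j := by
                apply Fin.ext
                change l.val = e
                rw [Set.mem_ofPred_eq] at hl
                omega
              rw [h2]
              exact ⟨w', IntermediateField.mem_adjoin_simple_self K0 w', rfl⟩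
        obtain ⟨y', hy', hyy⟩ := h1 y.2
        have h3 : y' = y := Subtype.ext hyy
        rw [← h3]
        exact hy'
    refine hres.mono (K := K1) ?_
    intro t κ _ _ ψ v hv
    exact ⟨fun l hl => hv l (Nat.lt_succ_of_lt hl), hv j (Nat.lt_succ_self e)⟩

/-- Models of towers, lying over the given model. -/
theorem model_witt (hW : WD p M0 f g m n0 n1 h0 h1 b) {G : Type} {γ : G → L} {Γ : G → I0 → ℤ}
    (hG : Fn M0 γ Γ) (hR : Frc M0) (Φ : Fin r → k[X]) (hΦ : ∀ j, (Φ j).natDegree = m j)
    (hpm : ∀ j, ¬ p ∣ m j) (z w s s' : Fin r → E)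
    (hz : ∀ j, z j ^ p - z j = algebraMap L E (f j) + s j)
    (hs : ∀ j, s j ∈ IntermediateField.adjoin L (z '' {l | l < j} ∪ w '' {l | l < j}))
    (hsm : ∀ j t0, Small M0 (n0 j) t0 (s j * algebraMap L E (∏ l, M0.x t0 l ^ (-n0 j l))))
    (hw : ∀ j, w j ^ p - w j = algebraMap L E (g j) + (aeval (z j) (Φ j) + s' j))
    (hs' : ∀ j, s' j ∈ IntermediateField.adjoin L (z '' {l | l ≤ j} ∪ w '' {l | l < j}))
    (hsm' : ∀ j t0, ∃ b' ∈ IntermediateField.adjoin L (z '' {l | l ≤ j} ∪ w '' {l | l < j}),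
      Small M0 (n1 j) t0
        ((s' j - (b' ^ p - b')) * algebraMap L E (∏ l, M0.x t0 l ^ (-n1 j l))))
    (hgen : IntermediateField.adjoin L (Set.range z ∪ Set.range w) = ⊤) :
    ∃ (T I : Type) (_ : Finite T) (_ : Fintype I) (M' : LM (⊥ : Subalgebra k E) ⊤ T I)
      (Γ' : G → I → ℤ), Fn M' (fun b => algebraMap L E (γ b)) Γ' ∧ Frc M' ∧
        Pool.Agent.TH214.Dm M0.A (algebraMap L E) M' := by
  have h1 := gv_tower hW hG hR Φ hΦ hpm z w s s' hz hs hsm hw hs' hsm' r le_rfl
  have h2 : ∀ y : Fin r → E, y '' {l : Fin r | l.val < r} = Set.range y := by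
    intro y
    rw [← Set.image_univ]
    congr 1
    ext l
    simp
  rw [h2, h2] at h1
  let K := IntermediateField.adjoin L (Set.range z ∪ Set.range w)
  have t1 : IsScalarTower k K E := IsScalarTower.of_algebraMap_eq fun c => rfl
  have h3 : GV (hW.W r) γ K := h1
  obtain ⟨T, I, hT, hI, M, π, Θ, Γ', hS, hF, hR'⟩ := h3.surj E (by
    intro y
    have hy : y ∈ K := by
      change y ∈ IntermediateField.adjoin L (Set.range z ∪ Set.range w)
      rw [hgen]
      trivial
    exact ⟨⟨y, hy⟩, rfl⟩)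
  exact ⟨T, I, hT, hI, M, Γ', hF, hR', fun t => ⟨π t, fun x hx => hS.ov.le t x hx⟩⟩

end amb

end Pool.Agent.K3h19.Witt
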