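import Pool.Agent.K3h19.Witt.ZStep2

/-!
# The normal form of `g + Φ (z)` on the model of the Artin-Schreier extension generated by `z`
-/

set_option autoImplicit false
set_option linter.unusedVariables false
set_option linter.unusedSectionVars false

universe u

open Polynomial

namespace Pool.Agent.K3h19.Witt

open Pool.Agent.W558 Pool.Agent.W498.Tor Pool.Agent.TH188.WP
open Pool.Agent.TH188.WQ (Cp exists_lt)
open Pool.Agent.W174.WA (UN ZE)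
open Pool.Agent.H176.Mix (Pole ovr_of ovr_to pole_pull)

section ow

variable {k K : Type u} [Field k] [Field K] [Algebra k K] {A : Subalgebra k K} {κ : Type u}
  [Field κ] [Algebra k κ] {φ : A →ₐ[k] κ} {I : Type} [Fintype I] {x : I → K}

lemma ow_congr (v : LT φ x) {n n' : I → ℤ} {a b : A} (hn : n = n') (hab : a = b) :
    ow v n a = ow v n' b := by
  subst hn hab
  rfl

lemma ow_smul (v : LT φ x) (n : I → ℤ) (c : k) (a : A) :
    ow v n (c • a) = algebraMap k κ c * ow v n a := by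
  unfold ow
  rw [map_smul, map_smul, Algebra.smul_def, Algebra.smul_def]
  ring

lemma ow_sum (v : LT φ x) (n : I → ℤ) {J : Type} (s : Finset J) (a : J → A) :
    ow v n (∑ j ∈ s, a j) = ∑ j ∈ s, ow v n (a j) := by
  classical
  induction s using Finset.induction_on with
  | empty => rw [Finset.sum_empty, Finset.sum_empty, ow_zero]
  | insert j s hj ih => rw [Finset.sum_insert hj, Finset.sum_insert hj, ow_add, ih]

lemma ow_pow (v : LT φ x) (μ : I → ℤ) (a : A) (j : ℕ) :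
    ow v (fun i => (j : ℤ) * μ i) (a ^ j) = (j : κ) * φ a ^ (j - 1) * ow v μ a := by
  induction j with
  | zero =>
    unfold ow
    rw [pow_zero, v.D.D_one]
    simp
  | succ j ih =>
    have h1 : (fun i => ((j + 1 : ℕ) : ℤ) * μ i) = (fun i => (j : ℤ) * μ i) + μ := by
      funext i
      rw [Pi.add_apply]
      push_cast
      ring
    rw [h1, pow_succ, ow_mul, ih, map_pow]
    rcases j with _ | j
    · simp
    · simp only [Nat.add_sub_cancel]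
      push_cast
      ring

end ow

section nas

variable {p : ℕ} [Fact p.Prime] {k L K : Type u} [Field k] [CharP k p] [Field L]
  [Field K] [Algebra k L] [Algebra k K] [Algebra L K] [IsScalarTower k L K] [CharP L p] [CharP K p]
  {T0 I0 T I : Type} [Fintype I0] [Fintype I] {B : LM (⊥ : Subalgebra k L) ⊤ T0 I0}
  {M : LM (⊥ : Subalgebra k K) ⊤ T I} {π : T → T0} {Θ : I → I0 → ℤ}
  {ho : Pool.Agent.W558.Ovr B M π Θ} {n0 : I0 → ℤ} {h0 : T0 → L} {hA : ∀ t, h0 t ∈ B.A t} {z : K}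
  {y : T → K} {μ : I → ℤ} {m : ℕ} {n1 : I0 → ℤ}

/-- The exponents of the sum. -/
def NN (μ : I → ℤ) (m : ℕ) (n' : I → ℤ) : I → ℤ := fun i => min ((m : ℤ) * μ i) (n' i)

/-- The expansion of `Φ (z)`. -/
lemma phi_exp (hZ : ZM p ho n0 h0 hA z y μ m n1) {Φ : k[X]} (hΦ : Φ.natDegree = m) (t : T) :
    ∃ Ψ : k[X], Ψ.coeff m = Φ.leadingCoeff ∧ ∀ N : I → ℤ,
      (∏ i, M.x t i ^ (-N i)) * aeval z Φ =
        ∑ j ∈ Finset.range (m + 1), Ψ.coeff j • ((∏ i, M.x t i ^ ((j : ℤ) * μ i - N i)) * y t ^ j) := by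
  obtain ⟨d, hd⟩ := hZ.zq t
  have hx0 := M.x0 t
  have h1 : (X + C (zc p k d) : k[X]).natDegree = 1 := natDegree_X_add_C _
  have h2 : (Φ.comp (X + C (zc p k d))).natDegree = m := by
    rw [natDegree_comp, h1, mul_one, hΦ]
  refine ⟨Φ.comp (X + C (zc p k d)), ?_, ?_⟩
  · have h3 : (Φ.comp (X + C (zc p k d))).leadingCoeff = Φ.leadingCoeff := by
      rw [leadingCoeff_comp (by rw [h1]; exact one_ne_zero), leadingCoeff_X_add_C, one_pow, mul_one]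
    rw [← h3]
    unfold leadingCoeff
    rw [h2]
  · intro N
    have h3 : aeval z Φ = aeval ((∏ i, M.x t i ^ μ i) * y t) (Φ.comp (X + C (zc p k d))) := by
      rw [aeval_comp, map_add, aeval_X, aeval_C]
      have h4 : algebraMap k K (zc p k d) = zc p K d := alg_zc p d
      rw [h4, ← hd]
    rw [h3, aeval_eq_sum_range, h2, Finset.mul_sum]
    refine Finset.sum_congr rfl fun j _ => ?_
    rw [mul_smul_comm]
    congr 1
    rw [mul_pow, ← mul_assoc]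
    congr 1
    rw [← Finset.prod_pow, ← Finset.prod_mul_distrib]
    refine Finset.prod_congr rfl fun i _ => ?_
    rw [← zpow_natCast, ← zpow_mul, ← zpow_add₀ (hx0 i)]
    congr 1
    ring

lemma nn_le (hm0 : ∀ i, μ i ≤ 0) (n' : I → ℤ) {j : ℕ} (hj : j ≤ m) (i : I) :
    0 ≤ (j : ℤ) * μ i - NN μ m n' i := by
  have h1 := min_le_left ((m : ℤ) * μ i) (n' i)
  have h2 : (m : ℤ) * μ i ≤ (j : ℤ) * μ i :=
    mul_le_mul_of_nonpos_right (by exact_mod_cast hj) (hm0 i)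
  unfold NN
  omega

lemma nn_le' (n' : I → ℤ) (i : I) : 0 ≤ n' i - NN μ m n' i := by
  have h1 := min_le_right ((m : ℤ) * μ i) (n' i)
  unfold NN
  omega

/-- The numerator of `g + Φ (z)`. -/
noncomputable def HH (M : LM (⊥ : Subalgebra k K) ⊤ T I) (μ : I → ℤ) (m : ℕ) (n' : I → ℤ)
    (h' : T → K) (z : K) (Φ : k[X]) (t : T) : K :=
  (∏ i, M.x t i ^ (n' i - NN μ m n' i)) * h' t +
    (∏ i, M.x t i ^ (-NN μ m n' i)) * aeval z Φ

lemma HH_mem (hZ : ZM p ho n0 h0 hA z y μ m n1) {Φ : k[X]} (hΦ : Φ.natDegree = m) (n' : I → ℤ)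
    {h' : T → K} (h'A : ∀ t, h' t ∈ M.A t) (t : T) : HH M μ m n' h' z Φ t ∈ M.A t := by
  obtain ⟨Ψ, hΨ, hE⟩ := phi_exp hZ hΦ t
  unfold HH
  rw [hE]
  refine (M.A t).add_mem ((M.A t).mul_mem (mon_mem (M.xA t) _ fun i => Or.inl (nn_le' n' i))
    (h'A t)) ((M.A t).sum_mem fun j hj => (M.A t).smul_mem ((M.A t).mul_mem
      (mon_mem (M.xA t) _ fun i => Or.inl ?_) ((M.A t).pow_mem (hZ.yA t) j)) _)
  exact nn_le hZ.m0 n' (by rw [Finset.mem_range] at hj; omega) i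

/-- The form of the numerator. -/
lemma HH_om (hZ : ZM p ho n0 h0 hA z y μ m n1) {Φ : k[X]} (hΦ : Φ.natDegree = m) (n' : I → ℤ)
    {h' : T → K} (h'A : ∀ t, h' t ∈ M.A t) (t : T) :
    ∃ Ψ : k[X], Ψ.coeff m = Φ.leadingCoeff ∧ ∀ (κ : Type u) [Field κ] [Algebra k κ]
      (φ : M.A t →ₐ[k] κ) (v : LT φ (M.x t)),
      om v (NN μ m n') (HH_mem hZ hΦ n' h'A t) =
        φ ⟨_, mon_mem (M.xA t) _ fun i => Or.inl (nn_le' (μ := μ) (m := m) n' i)⟩ *
          om v n' (h'A t) +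
        ∑ j : Fin (m + 1), algebraMap k κ (Ψ.coeff j) *
          (φ ⟨_, mon_mem (M.xA t) _ fun i => Or.inl
            (nn_le hZ.m0 n' (Nat.lt_succ_iff.1 j.2) i)⟩ *
            ((j : ℕ) * φ ⟨y t, hZ.yA t⟩ ^ ((j : ℕ) - 1) * om v μ (hZ.yA t))) := by
  obtain ⟨Ψ, hΨ, hE⟩ := phi_exp hZ hΦ t
  refine ⟨Ψ, hΨ, ?_⟩
  intro κ _ _ φ v
  have hx0 := M.x0 t
  have hm1 := mon_mem (M.xA t) _ fun i => Or.inl (nn_le' (μ := μ) (m := m) n' i)
  have hm2 : ∀ j : Fin (m + 1), ∏ i, M.x t i ^ (((j : ℕ) : ℤ) * μ i - NN μ m n' i) ∈ M.A t :=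
    fun j => mon_mem (M.xA t) _ fun i => Or.inl (nn_le hZ.m0 n' (Nat.lt_succ_iff.1 j.2) i)
  have e1 : (⟨HH M μ m n' h' z Φ t, HH_mem hZ hΦ n' h'A t⟩ : M.A t) =
      ⟨_, hm1⟩ * ⟨h' t, h'A t⟩ +
        ∑ j : Fin (m + 1), Ψ.coeff j • ((⟨_, hm2 j⟩ : M.A t) * ⟨y t, hZ.yA t⟩ ^ (j : ℕ)) := by
    apply Subtype.ext
    change HH M μ m n' h' z Φ t = (M.A t).val (_ + _)
    rw [map_add, map_sum]
    unfold HH
    rw [hE, Finset.sum_range]
    rfl
  rw [om_eq, ow_congr v rfl e1, ow_add, ow_sum]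
  congr 1
  · have hlog : LM' v (fun i => n' i - NN μ m n' i) ⟨_, hm1⟩ :=
      mon_log v (M.xA t) hx0 _ fun i => Or.inl (nn_le' n' i)
    rw [ow_mon v hlog]
    congr 1
    refine ow_congr v ?_ rfl
    funext i
    rw [Pi.add_apply]
    ring
  · refine Finset.sum_congr rfl fun j _ => ?_
    have hlog : LM' v (fun i => ((j : ℕ) : ℤ) * μ i - NN μ m n' i) ⟨_, hm2 j⟩ :=
      mon_log v (M.xA t) hx0 _ fun i => Or.inl (nn_le hZ.m0 n' (Nat.lt_succ_iff.1 j.2) i)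
    rw [ow_smul, ow_mon v hlog]
    congr 2
    rw [om_eq, ← ow_pow v μ ⟨y t, hZ.yA t⟩ j]
    refine ow_congr v ?_ rfl
    funext i
    rw [Pi.add_apply]
    ring

/-- A monomial vanishes. -/
lemma mon_zero {t : T} {κ : Type u} [Field κ] [Algebra k κ] {φ : M.A t →ₐ[k] κ} {E : I → ℤ}
    (hE : ∀ i, 0 ≤ E i) {i : I} (hi : 0 < E i) (h0 : φ ⟨M.x t i, M.xA t i⟩ = 0)
    (hm : ∏ i, M.x t i ^ E i ∈ M.A t) : φ ⟨_, hm⟩ = 0 :=
  (ZE.prod _ (fun j => zpow_mem_of (M.xA t j) (Or.inl (hE j))) i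
    (ZE.zpow (M.x0 t i) (M.xA t i) _ hi h0)).2

/-- A monomial does not vanish. -/
lemma mon_ne {t : T} {κ : Type u} [Field κ] [Algebra k κ] {φ : M.A t →ₐ[k] κ} {E : I → ℤ}
    (hE : ∀ i, 0 ≤ E i) (h0 : ∀ i, φ ⟨M.x t i, M.xA t i⟩ = 0 → E i = 0)
    (hm : ∏ i, M.x t i ^ E i ∈ M.A t) : φ ⟨_, hm⟩ ≠ 0 :=
  (UN.prod _ _ fun i _ => UN.zpow (M.x0 t i) (M.xA t i) _ (Or.inl (hE i)) (h0 i)).2

/-- The first case: there is a component on which the poles of `g` dominate. -/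
lemma case1 (hZ : ZM p ho n0 h0 hA z y μ m n1) {Φ : k[X]} (hΦ : Φ.natDegree = m) (n' : I → ℤ)
    {h' : T → K} (h'A : ∀ t, h' t ∈ M.A t)
    (hcmp : ∀ t, (∀ i, (m : ℤ) * μ i ≤ n' i ∨ (M.x t i)⁻¹ ∈ M.A t) ∨
        (∀ i, n' i ≤ (m : ℤ) * μ i ∨ (M.x t i)⁻¹ ∈ M.A t))
    (t : T) (κ : Type u) [Field κ] [Algebra k κ] (φ : M.A t →ₐ[k] κ) {i : I}
    (hi : n' i < (m : ℤ) * μ i) (hi0 : φ ⟨M.x t i, M.xA t i⟩ = 0) :
    ∃ c : κ, c ≠ 0 ∧ ∀ v : LT φ (M.x t),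
      om v (NN μ m n') (HH_mem hZ hΦ n' h'A t) = c * om v n' (h'A t) := by
  obtain ⟨Ψ, hΨ, hE⟩ := HH_om hZ hΦ n' h'A t
  refine ⟨φ ⟨_, mon_mem (M.xA t) _ fun i => Or.inl (nn_le' (μ := μ) (m := m) n' i)⟩, ?_,
    fun v => (hE κ φ v).trans ?_⟩
  · refine mon_ne (fun i => nn_le' n' i) ?_ _
    intro l hl
    have h1 : n' l ≤ (m : ℤ) * μ l := by
      rcases hcmp t with h | h
      · exfalso
        rcases h i with h2 | h2
        · omega
        · exact Pool.Agent.H176.Mix.not_inv hi0 h2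
      · exact (h l).resolve_right (Pool.Agent.H176.Mix.not_inv hl)
    unfold NN
    rw [min_eq_right h1, sub_self]
  · rw [Finset.sum_eq_zero, add_zero]
    intro j _
    rw [mon_zero (fun l => nn_le hZ.m0 n' (Nat.lt_succ_iff.1 j.2) l) (i := i) ?_ hi0, zero_mul,
      mul_zero]
    have h1 : (m : ℤ) * μ i ≤ (j : ℕ) * μ i :=
      mul_le_mul_of_nonpos_right (by exact_mod_cast Nat.lt_succ_iff.1 j.2) (hZ.m0 i)
    unfold NN
    rw [min_eq_right hi.le]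
    omega

/-- The second case: at the point, the poles of `Φ (z)` dominate. -/
lemma case2 (hZ : ZM p ho n0 h0 hA z y μ m n1) {Φ : k[X]} (hΦ : Φ.natDegree = m)
    (hpm : ¬ p ∣ m) (hn1 : ∀ i0, n1 i0 ≤ 0) {h1 : T0 → L} (h1A : ∀ t, h1 t ∈ B.A t)
    {h' : T → K} (h'A : ∀ t, h' t ∈ M.A t)
    (hh' : ∀ t (κ : Type u) [Field κ] [Algebra k κ] (φ : M.A t →ₐ[k] κ) (v : LT φ (M.x t)),
      Pole M t φ (fun i => ∑ i0, Θ i i0 * n1 i0) →
      om v (fun i => ∑ i0, Θ i i0 * n1 i0) (h'A t) =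
        om v (fun i => ∑ i0, Θ i i0 * n1 i0) (ho.le t _ (h1A (π t))))
    (t : T) (κ : Type u) [Field κ] [Algebra k κ] (φ : M.A t →ₐ[k] κ)
    (hcase : ∀ i, φ ⟨M.x t i, M.xA t i⟩ = 0 → (m : ℤ) * μ i ≤ ∑ i0, Θ i i0 * n1 i0)
    (hp : Pole M t φ (NN μ m fun i => ∑ i0, Θ i i0 * n1 i0)) :
    ∃ v : LT φ (M.x t), (∀ a (ha : a ∈ B.A (π t)),
        v.D.D ⟨algebraMap L K a, ho.le t a ha⟩ = 0) ∧
      (∀ i0, ∑ i, (Θ i i0 : κ) * v.e i = 0) ∧
      om v (NN μ m fun i => ∑ i0, Θ i i0 * n1 i0)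
        (HH_mem hZ hΦ (fun i => ∑ i0, Θ i i0 * n1 i0) h'A t) ≠ 0 := by
  have hm0 : m ≠ 0 := by
    rintro rfl
    exact hpm (dvd_zero p)
  have hmp : (0 : ℤ) < m := by exact_mod_cast Nat.pos_of_ne_zero hm0
  obtain ⟨l, hl, hl0⟩ := hp
  have hNl : NN μ m (fun i => ∑ i0, Θ i i0 * n1 i0) l = (m : ℤ) * μ l := min_eq_left (hcase l hl0)
  have hμl : μ l < 0 := by
    rw [hNl] at hl
    by_contra hcon
    push Not at hcon
    have : 0 ≤ (m : ℤ) * μ l := mul_nonneg hmp.le hcon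
    omega
  obtain ⟨v, hv1, hv2, hv3⟩ := hZ.vt t κ φ ⟨l, hμl, hl0⟩
  refine ⟨v, hv1, hv2, ?_⟩
  obtain ⟨Ψ, hΨ, hE⟩ := HH_om hZ hΦ (fun i => ∑ i0, Θ i i0 * n1 i0) h'A t
  have hsum0 : ∑ i, ((∑ i0, Θ i i0 * n1 i0 : ℤ) : κ) * v.e i = 0 := by
    have h2 : ∀ i, ((∑ i0, Θ i i0 * n1 i0 : ℤ) : κ) * v.e i =
        ∑ i0, (n1 i0 : κ) * ((Θ i i0 : κ) * v.e i) := by
      intro i
      push_cast
      rw [Finset.sum_mul]
      exact Finset.sum_congr rfl fun i0 _ => by ring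
    rw [Finset.sum_congr rfl fun i _ => h2 i, Finset.sum_comm]
    refine Finset.sum_eq_zero fun i0 _ => ?_
    rw [← Finset.mul_sum, hv2 i0, mul_zero]
  have hfirst : φ ⟨_, mon_mem (M.xA t) _ fun i => Or.inl (nn_le' (μ := μ) (m := m)
      (fun i => ∑ i0, Θ i i0 * n1 i0) i)⟩ * om v (fun i => ∑ i0, Θ i i0 * n1 i0) (h'A t) = 0 := by
    by_cases hpole : Pole M t φ (fun i => ∑ i0, Θ i i0 * n1 i0)
    · rw [hh' t κ φ v hpole]
      unfold om
      rw [hv1 _ (h1A (π t)), hsum0, mul_zero, add_zero, mul_zero]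
    · rw [mon_zero (fun i => nn_le' (μ := μ) (m := m) (fun i => ∑ i0, Θ i i0 * n1 i0) i)
        (i := l) ?_ hl0, zero_mul]
      have h3 : ∑ i0, Θ l i0 * n1 i0 = 0 := by
        refine le_antisymm (Finset.sum_nonpos fun i0 _ =>
          mul_nonpos_of_nonneg_of_nonpos (ho.Θ0 l i0) (hn1 i0)) ?_
        by_contra hcon
        push Not at hcon
        exact hpole ⟨l, hcon, hl0⟩
      rw [hNl, h3]
      rw [hNl] at hl
      omega
  rw [hE κ φ v, hfirst, zero_add, Finset.sum_eq_single (Fin.last m)]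
  · have hy := hZ.sy l hμl (hcase l hl0) t κ φ hl0
    have hmon : φ ⟨_, mon_mem (M.xA t) _ fun i => Or.inl
        (nn_le hZ.m0 (fun i => ∑ i0, Θ i i0 * n1 i0)
          (Nat.lt_succ_iff.1 (Fin.last m).2) i)⟩ ≠ 0 := by
      refine mon_ne (fun i => nn_le hZ.m0 _ (Nat.lt_succ_iff.1 (Fin.last m).2) i) ?_ _
      intro i hi
      have : NN μ m (fun i => ∑ i0, Θ i i0 * n1 i0) i = (m : ℤ) * μ i := min_eq_left (hcase i hi)
      rw [this, Fin.val_last, sub_self]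
    have hlc : algebraMap k κ (Ψ.coeff m) ≠ 0 := by
      rw [_root_.map_ne_zero, hΨ, leadingCoeff_ne_zero]
      rintro rfl
      rw [natDegree_zero] at hΦ
      exact hm0 hΦ.symm
    have hcκ : CharP κ p := charP_of_injective_algebraMap (algebraMap k κ).injective p
    have hmκ : (m : κ) ≠ 0 := by
      rw [Ne, CharP.cast_eq_zero_iff κ p]
      exact hpm
    rw [hv3]
    exact mul_ne_zero hlc (mul_ne_zero hmon (mul_ne_zero (mul_ne_zero hmκ (pow_ne_zero _ hy)) hy))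
  · intro j _ hj
    have hjm : (j : ℕ) < m := by
      have h1 := j.2
      have h2 : (j : ℕ) ≠ m := fun h => hj (Fin.ext h)
      omega
    rw [mon_zero (fun i => nn_le hZ.m0 _ (Nat.lt_succ_iff.1 j.2) i) (i := l) ?_ hl0, zero_mul,
      mul_zero]
    rw [hNl]
    have : (m : ℤ) * μ l < (j : ℕ) * μ l :=
      mul_lt_mul_of_neg_right (by exact_mod_cast hjm) hμl
    omega
  · intro h
    exact absurd (Finset.mem_univ _) h

end nas

end Pool.Agent.K3h19.Witt
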