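import Pool.Agent.K3h19.Witt.Cut2
import Pool.Agent.H176.Mix.Tow

/-!
# The model of an Artin-Schreier extension together with the function `z`
-/

set_option autoImplicit false
set_option linter.unusedVariables false
set_option linter.unusedSectionVars false

universe u

open Polynomial

namespace Pool.Agent.K3h19.Witt

open Pool.Agent.W558 Pool.Agent.W498.Tor

section zstep

variable {p : ℕ} [Fact p.Prime] {k L K : Type u} [Field k] [PerfectField k] [CharP k p] [Field L]
  [Field K] [Algebra k L] [Algebra k K] [Algebra L K] [IsScalarTower k L K] [CharP L p] [CharP K p]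
  {T I G : Type} [Finite T] [Fintype I] {B : LM (⊥ : Subalgebra k L) ⊤ T I} {f : L} {n0 : I → ℤ}
  {h0 : T → L} {g : G → L} {Γ : G → I → ℤ}

/-- The case of degree `p`. -/
theorem zstep_nd (hN : NAS p B f n0 (fun _ => 0) h0) (hR : Frc B) (hG : Fn B g Γ)
    (hzL : ∀ b : L, b ^ p - b ≠ f) (z : K) (hz : z ^ p - z = algebraMap L K f)
    (hgen0 : IntermediateField.adjoin L {z} = ⊤) (m : ℕ) (nn : I → ℤ) :
    ∃ (T' I' : Type) (_ : Finite T') (_ : Fintype I') (M' : LM (⊥ : Subalgebra k K) ⊤ T' I')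
      (π : T' → T) (Θ : I' → I → ℤ) (y : T' → K) (μ : I' → ℤ) (Γ' : G → I' → ℤ)
      (ho : Pool.Agent.W558.Ovr B M' π Θ), CLift ho n0 h0 hN.hA ∧
      Fn M' (fun b => algebraMap L K (g b)) Γ' ∧ Frc M' ∧ ZM p ho n0 h0 hN.hA z y μ m nn := by
  classical
  have hp : p.Prime := Fact.out
  have hall := wt_pack.{u}
  have hgen : ∀ y : K, ∃ P : L[X], aeval z P = y := by
    intro y
    have hint : IsIntegral L z := by
      refine ⟨X ^ p - (X + C f), ?_, ?_⟩
      · apply monic_X_pow_sub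
        rw [degree_X_add_C]
        exact_mod_cast hp.one_lt
      · rw [← aeval_def, map_sub, map_add, map_pow, aeval_X, aeval_C, ← hz]
        ring
    have h8 : y ∈ Algebra.adjoin L {z} := by
      have h9 : y ∈ (IntermediateField.adjoin L {z}).toSubalgebra := by
        rw [hgen0]; trivial
      rwa [IntermediateField.adjoin_simple_toSubalgebra_of_isAlgebraic hint.isAlgebraic] at h9
    rw [Algebra.adjoin_singleton_eq_range_aeval] at h8
    exact h8
  have hirr : Irreducible (X ^ p - X - C f : L[X]) := hall.irr p L f hzL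
  have hF : Prime (X ^ p - X - C f : L[X]) := hirr.prime
  have hz0 : aeval z (X ^ p - X - C f : L[X]) = 0 := by
    rw [map_sub, map_sub, map_pow, aeval_X, aeval_C, hz, sub_self]
  have hmon : (X ^ p - X - C f : L[X]).Monic := by
    have h1 : (X ^ p - X - C f : L[X]) = X ^ p - (X + C f) := by ring
    rw [h1]
    apply monic_X_pow_sub
    rw [degree_X_add_C]
    exact_mod_cast hp.one_lt
  have hz' : ∀ P : L[X], aeval z P = 0 ↔ (X ^ p - X - C f : L[X]) ∣ P := by
    intro P
    have h1 : minpoly L z = X ^ p - X - C f :=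
      (minpoly.eq_of_irreducible_of_monic hirr hz0 hmon).symm
    rw [← h1]
    exact (minpoly.dvd_iff).symm
  let N' := FractionRing L[X]
  let Z : N' := algebraMap L[X] N' X
  have hcN : CharP N' p := charP_of_injective_algebraMap (algebraMap k N').injective p
  have hZ : ∀ P : L[X], aeval Z P = algebraMap L[X] N' P := by
    intro P
    have h1 : aeval Z = IsScalarTower.toAlgHom L L[X] N' := by
      ext; simp [Z]
    rw [h1]; rfl
  have htr : Transcendental L Z := by
    rw [transcendental_iff]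
    intro P hP
    rw [hZ] at hP
    exact (FaithfulSMul.algebraMap_eq_zero_iff L[X] N').1 hP
  have hfr : ∀ x : N', ∃ P P' : L[X], P' ≠ 0 ∧ x * aeval Z P' = aeval Z P := by
    intro x
    obtain ⟨P, P', hP, rfl⟩ := IsFractionRing.div_surjective (A := L[X]) x
    have h0 := nonZeroDivisors.ne_zero hP
    refine ⟨P, P', h0, ?_⟩
    rw [hZ, hZ, div_mul_cancel₀ _ (alg_ne_zero h0)]
  have hQ : IsQA p Z f (FQ (k := k) hF) := by
    intro x
    simp only [hZ]
    exact mem_FQ hF
  obtain ⟨T1, I1, hT1, hI1, M1, y1, c1, μ1, Γ1, hP1, hL1, hF1⟩ :=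
    hall.bun p k L N' T I G B f n0 _ h0 g Γ hN hR hG hzL Z
      htr hfr (FQ (k := k) hF) hQ
  obtain ⟨T2, I2, hT2, hI2, M2, y2, c2, μ2, Γ2, hP2, hL2, hF2, hfin⟩ :=
    hall.ppr p k L N' T I T1 I1 G B f n0 _ h0 M1 _ (FQ (k := k) hF) y1 c1 μ1
      (fun b => algebraMap L N' (g b)) Γ1 hN hP1 hL1 hF1
  have eF : Z ^ p - Z - algebraMap L N' f = algebraMap L[X] N' (X ^ p - X - C f) := by
    rw [← hZ, map_sub, map_sub, map_pow, aeval_X, aeval_C]
  rw [eF] at hP2
  obtain ⟨π2, Θ2, hPT2⟩ := hP2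
  have hf'e : ∀ t, f = (∏ i, B.x t i ^ n0 i) * h0 t := by
    intro t
    have h1 := hN.eq t
    rw [zero_pow hp.ne_zero, sub_zero, zero_add] at h1
    exact h1
  obtain ⟨T3, I3, hT3, hI3, M3, y3, c3, μ3, Γ3, π3, Θ3, hPT3, hL3, hF3, hfin3, hbd⟩ :=
    sep_iter hf'e eF.symm nn m _ hPT2 hL2 hF2 hfin le_rfl
  obtain ⟨M', y', ho, h1, h2, h3, h4⟩ := zcut p (K := K) hN hPT3 hL3 hF3 hfin3 (mem_FQ_of hF)
    (alg_ne_zero hF.ne_zero) (piZ hF z hz')
    (piZ_eq_zero hF z hz') (piZ_surj hF z hz' hgen) (FQ_total hF) (by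
      intro l hl
      have h1 : algebraMap L N' l = algebraMap L[X] N' (C l) := by
        rw [← hZ, aeval_C]
      have h2 : (⟨algebraMap L N' l, hl⟩ : FQ (k := k) hF) =
          ⟨algebraMap L[X] N' (C l), mem_FQ_of hF⟩ := Subtype.ext h1
      rw [h2, piZ_alg, aeval_C]) Z (mem_FQ_of hF) eF.symm m nn hbd
  have hz1 : piZ (k := k) (K := K) hF z hz' ⟨Z, mem_FQ_of hF⟩ = z := by
    rw [piZ_alg, aeval_X]
  rw [hz1] at h4
  exact ⟨T3, I3, hT3, hI3, M', π3, Θ3, y', μ3, Γ3, ho, h1, h2, h3, h4⟩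

end zstep

end Pool.Agent.K3h19.Witt
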