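import Pool.Agent.K3h19.Witt.AV

/-!
# The model of an Artin-Schreier extension together with the function `z`
-/

set_option autoImplicit false
set_option linter.unusedVariables false
set_option linter.unusedSectionVars false

universe u

open Polynomial

namespace Pool.Agent.K3h19.Witt

open Pool.Agent.W558 Pool.Agent.W498.Tor
open Pool.Agent.TH188.WQ (Cp exists_lt)
open Pool.Agent.H176.Mix (Pole ovr_of ovr_to pole_pull)

section comp

variable {k L K : Type u} [Field k] [Field L] [Field K] [Algebra k L] [Algebra k K]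
  [Algebra L K] [IsScalarTower k L K] {T0 I0 T I T' I' : Type} [Fintype I0] [Fintype I]
  [Fintype I'] [Finite T]

omit [Finite T] in
lemma sum_comp (Θ' : I' → I → ℤ) (Θ : I → I0 → ℤ) (nn : I0 → ℤ) (i' : I') :
    ∑ i0, (∑ i, Θ' i' i * Θ i i0) * nn i0 = ∑ i, Θ' i' i * ∑ i0, Θ i i0 * nn i0 := by
  simp only [Finset.sum_mul, Finset.mul_sum]
  rw [Finset.sum_comm]
  exact Finset.sum_congr rfl fun i _ => Finset.sum_congr rfl fun i0 _ => by ring

/-- Logarithmic modifications. -/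
theorem ZM.ov {p : ℕ} [CharP K p] {B : LM (⊥ : Subalgebra k L) ⊤ T0 I0}
    {M : LM (⊥ : Subalgebra k K) ⊤ T I} {π : T → T0} {Θ : I → I0 → ℤ}
    {ho : Pool.Agent.W558.Ovr B M π Θ}
    {n0 : I0 → ℤ} {h0 : T0 → L} {hA : ∀ t, h0 t ∈ B.A t} {z : K} {y : T → K} {μ : I → ℤ}
    {m : ℕ} {nn : I0 → ℤ} (hZ : ZM p ho n0 h0 hA z y μ m nn) (hnn : ∀ i0, nn i0 ≤ 0)
    {M' : LM (⊥ : Subalgebra k K) ⊤ T' I'}
    {π' : T' → T} {Θ' : I' → I → ℤ} (hO : Ov M M' π' Θ') (hΘ : ∀ i' i, 0 ≤ Θ' i' i)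
    (ho' : Pool.Agent.W558.Ovr B M' (fun t => π (π' t)) (fun i' i0 => ∑ i, Θ' i' i * Θ i i0)) :
    ZM p ho' n0 h0 hA z (fun t => y (π' t)) (fun i' => ∑ i, Θ' i' i * μ i) m nn := by
  have hOv := ovr_ov hO hΘ
  -- points
  have hpt : ∀ t (κ : Type u) [Field κ] [Algebra k κ] (φ' : M'.A t →ₐ[k] κ) (i' : I') (i : I),
      0 < Θ' i' i → φ' ⟨M'.x t i', M'.xA t i'⟩ = 0 →
      (φ'.comp (Subalgebra.inclusion (hO.le t))) ⟨M.x (π' t) i, M.xA (π' t) i⟩ = 0 := by
    intro t κ _ _ φ' i' i hΘi h0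
    exact Pool.Agent.W32.WT.zero_pull (L := K) (K := K) (ovr_to hOv) t φ' i' i hΘi h0
  refine ⟨fun t => hO.le t (hZ.yA (π' t)), ?_, ?_, ?_, ?_, ?_⟩
  · intro i'
    exact Finset.sum_nonpos fun i _ => mul_nonpos_of_nonneg_of_nonpos (hΘ i' i) (hZ.m0 i)
  · intro t
    obtain ⟨d, hd⟩ := hZ.zq (π' t)
    refine ⟨d, ?_⟩
    have h1 := Pool.Agent.W32.WT.mon_pull (L := K) (K := K) (ovr_to hOv) t μ
    rw [← h1]
    exact hd
  · rintro t κ _ _ φ' ⟨i', hi', hz⟩
    obtain ⟨i, _, hi⟩ := Finset.exists_lt_of_sum_lt (s := Finset.univ)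
      (f := fun i => Θ' i' i * μ i) (g := fun _ => (0 : ℤ)) (by simpa using hi')
    have hμi : μ i < 0 := by
      rcases lt_or_eq_of_le (hZ.m0 i) with h1 | h1
      · exact h1
      · rw [h1, mul_zero] at hi
        exact absurd hi (lt_irrefl _)
    have hΘi : 0 < Θ' i' i := by
      rcases lt_or_eq_of_le (hΘ i' i) with h1 | h1
      · exact h1
      · rw [← h1, zero_mul] at hi
        exact absurd hi (lt_irrefl _)
    obtain ⟨v, hv1, hv2, hv3⟩ := hZ.vt (π' t) κ (φ'.comp (Subalgebra.inclusion (hO.le t)))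
      ⟨i, hμi, hpt t κ φ' i' i hΘi hz⟩
    obtain ⟨v', hv'1, hv'2⟩ := hO.lt t κ φ' v
    have hs : ∀ e : I → ℤ, ∑ i', ((∑ i, Θ' i' i * e i : ℤ) : κ) * v'.e i' =
        ∑ i, (e i : κ) * v.e i := by
      intro e
      have h2 : ∀ i', ((∑ i, Θ' i' i * e i : ℤ) : κ) * v'.e i' =
          ∑ i, (e i : κ) * ((Θ' i' i : κ) * v'.e i') := by
        intro i'
        push_cast
        rw [Finset.sum_mul]
        exact Finset.sum_congr rfl fun i _ => by ring
      rw [Finset.sum_congr rfl fun i' _ => h2 i', Finset.sum_comm]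
      refine Finset.sum_congr rfl fun i _ => ?_
      rw [← Finset.mul_sum, hv'2 i]
    refine ⟨v', ?_, ?_, ?_⟩
    · intro a ha
      exact (hv'1 _ (ho.le (π' t) a ha)).trans (hv1 a ha)
    · intro i0
      rw [hs (fun i => Θ i i0)]
      exact hv2 i0
    · unfold om
      rw [hs μ]
      have h3 : v'.D.D ⟨y (π' t), hO.le t (hZ.yA (π' t))⟩ = v.D.D ⟨y (π' t), hZ.yA (π' t)⟩ :=
        hv'1 _ (hZ.yA (π' t))
      rw [h3]
      exact hv3
  · intro i' hi' hle t κ _ _ φ' hz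
    rw [sum_comp] at hle
    have hnn' : ∀ i, ∑ i0, Θ i i0 * nn i0 ≤ 0 := fun i =>
      Finset.sum_nonpos fun i0 _ => mul_nonpos_of_nonneg_of_nonpos (ho.Θ0 i i0) (hnn i0)
    obtain ⟨i, hΘi, hμi, hi⟩ : ∃ i, 0 < Θ' i' i ∧ μ i < 0 ∧
        (m : ℤ) * μ i ≤ ∑ i0, Θ i i0 * nn i0 := by
      by_contra hcon
      push Not at hcon
      have h1 : ∑ i, Θ' i' i * (∑ i0, Θ i i0 * nn i0) < ∑ i, Θ' i' i * ((m : ℤ) * μ i) := by
        refine Finset.sum_lt_sum ?_ ?_
        · intro i _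
          rcases lt_or_eq_of_le (hΘ i' i) with h2 | h2
          · rcases lt_or_eq_of_le (hZ.m0 i) with h3 | h3
            · exact mul_le_mul_of_nonneg_left (hcon i h2 h3).le h2.le
            · rw [h3, mul_zero, mul_zero]
              exact mul_nonpos_of_nonneg_of_nonpos h2.le (hnn' i)
          · rw [← h2, zero_mul, zero_mul]
        · obtain ⟨i, _, hi⟩ := Finset.exists_lt_of_sum_lt (s := Finset.univ)
            (f := fun i => Θ' i' i * μ i) (g := fun _ => (0 : ℤ)) (by simpa using hi')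
          have hμi : μ i < 0 := by
            rcases lt_or_eq_of_le (hZ.m0 i) with h1 | h1
            · exact h1
            · rw [h1, mul_zero] at hi
              exact absurd hi (lt_irrefl _)
          have hΘi : 0 < Θ' i' i := by
            rcases lt_or_eq_of_le (hΘ i' i) with h1 | h1
            · exact h1
            · rw [← h1, zero_mul] at hi
              exact absurd hi (lt_irrefl _)
          exact ⟨i, Finset.mem_univ _, mul_lt_mul_of_pos_left (hcon i hΘi hμi) hΘi⟩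
      have h2 : ∑ i, Θ' i' i * ((m : ℤ) * μ i) = (m : ℤ) * ∑ i, Θ' i' i * μ i := by
        rw [Finset.mul_sum]
        exact Finset.sum_congr rfl fun i _ => by ring
      rw [h2] at h1
      exact absurd hle (not_le.2 h1)
    exact hZ.sy i hμi hi (π' t) κ (φ'.comp (Subalgebra.inclusion (hO.le t)))
      (hpt t κ φ' i' i hΘi hz)
  · intro t κ _ _ φ' hpole hh
    obtain ⟨h1, h2⟩ := hZ.dm (π' t) κ (φ'.comp (Subalgebra.inclusion (hO.le t))) hpole hh
    refine ⟨h1, ?_⟩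
    intro i' hz
    rw [sum_comp, Finset.mul_sum]
    refine Finset.sum_congr rfl fun i _ => ?_
    rcases lt_or_eq_of_le (hΘ i' i) with h3 | h3
    · rw [← h2 i (hpt t κ φ' i' i h3 hz)]
      ring
    · rw [← h3]
      ring

end comp

section zstep

variable {p : ℕ} [Fact p.Prime] {k L K : Type u} [Field k] [PerfectField k] [CharP k p] [Field L]
  [Field K] [Algebra k L] [Algebra k K] [Algebra L K] [IsScalarTower k L K] [CharP L p] [CharP K p]
  {T I G : Type} [Finite T] [Fintype I] {B : LM (⊥ : Subalgebra k L) ⊤ T I} {f : L} {n0 : I → ℤ}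
  {h0 : T → L} {g : G → L} {Γ : G → I → ℤ}

theorem zstep1 (hN : NAS p B f n0 (fun _ => 0) h0) (hR : Frc B) (hG : Fn B g Γ)
    (z : K) (hz : z ^ p - z = algebraMap L K f)
    (hgen0 : IntermediateField.adjoin L {z} = ⊤) (m : ℕ) (nn : I → ℤ) :
    ∃ (T' I' : Type) (_ : Finite T') (_ : Fintype I') (M' : LM (⊥ : Subalgebra k K) ⊤ T' I')
      (π : T' → T) (Θ : I' → I → ℤ) (y : T' → K) (μ : I' → ℤ) (Γ' : G → I' → ℤ)
      (ho : Pool.Agent.W558.Ovr B M' π Θ), AV (WP B n0 h0 hN.hA) M' π Θ ∧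
      Fn M' (fun b => algebraMap L K (g b)) Γ' ∧ Frc M' ∧ ZM p ho n0 h0 hN.hA z y μ m nn := by
  classical
  have hp : p.Prime := Fact.out
  by_cases hzL : ∃ b : L, b ^ p - b = f
  · obtain ⟨b0, hb0⟩ := hzL
    obtain ⟨hsurj, b, hb, hbz⟩ := surj_of_deg hb0 hz hgen0
    have hS := (AV.refl (WP B n0 h0 hN.hA)).surj K hsurj
    have hinv : ∀ t i, n0 i < 0 → (B.x t i)⁻¹ ∈ B.A t := by
      intro t i hi
      refine inv_of_no_zero t (B.xA t i) (B.x0 t i) ?_
      intro κ _ _ φ h0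
      exact no_pole hR hN hb t κ φ ⟨i, hi, h0⟩
    have hbA : ∀ t, b ∈ B.A t := by
      intro t
      have h1 := hN.eq t
      rw [zero_pow hp.ne_zero, sub_zero, zero_add] at h1
      have hfA : f ∈ B.A t := by
        rw [h1]
        refine (B.A t).mul_mem (Pool.Agent.TH188.WP.mon_mem (B.xA t) _ fun i => ?_) (hN.hA t)
        rcases lt_or_eq_of_le (hN.n0 i) with h2 | h2
        · exact Or.inr (hinv t i h2)
        · exact Or.inl h2.ge
      refine as_mem (p := p) hR t (B.A t).one_mem hfA ?_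
      linear_combination hb
    refine ⟨T, I, inferInstance, inferInstance, mapLM (K := K) B, id, _, fun _ => z, fun _ => 0,
      Γ, ovr_to hS.ov, hS, fn_map hG, frc_map hR hsurj, ?_⟩
    refine ⟨?_, fun _ => le_rfl, ?_, ?_, ?_, ?_⟩
    · intro t
      exact ⟨b, hbA t, hbz⟩
    · intro t
      refine ⟨0, ?_⟩
      rw [map_zero, add_zero]
      simp
    · rintro t κ _ _ φ ⟨i, hi, -⟩
      exact absurd hi (lt_irrefl _)
    · intro i hi
      exact absurd hi (lt_irrefl _)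
    · rintro t κ _ _ φ ⟨i, hi, h0⟩
      exfalso
      have h1 := hinv t i hi
      have h2 : (algebraMap L K (B.x t i)) * algebraMap L K (B.x t i)⁻¹ = 1 := by
        rw [← map_mul, mul_inv_cancel₀ (B.x0 t i), map_one]
      have h3 : algebraMap L K (B.x t i)⁻¹ ∈ (mapLM (K := K) B).A t := ⟨_, h1, rfl⟩
      have h4 := hS.ov.le t _ (B.xA t i)
      have h5 : (⟨_, h4⟩ : (mapLM (K := K) B).A t) * ⟨_, h3⟩ = 1 := Subtype.ext h2
      have h6 := congrArg φ h5
      rw [map_mul, map_one] at h6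
      have h7 : φ ⟨_, h4⟩ = 0 := h0
      rw [h7, zero_mul] at h6
      exact zero_ne_one h6
  · push Not at hzL
    obtain ⟨T', I', hT', hI', M', π, Θ, y, μ, Γ', ho, h1, h2, h3, h4⟩ :=
      zstep_nd hN hR hG hzL z hz hgen0 m nn
    exact ⟨T', I', hT', hI', M', π, Θ, y, μ, Γ', ho, AV.of_clift ho h1, h2, h3, h4⟩

/-- The model of an Artin-Schreier extension, on which the poles of `z ^ m` and those of the
monomial with the exponents `nn` are comparable. -/
theorem zstep (hN : NAS p B f n0 (fun _ => 0) h0) (hR : Frc B) (hG : Fn B g Γ)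
    (z : K) (hz : z ^ p - z = algebraMap L K f)
    (hgen0 : IntermediateField.adjoin L {z} = ⊤) (m : ℕ) (nn : I → ℤ) (hnn : ∀ i, nn i ≤ 0) :
    ∃ (T' I' : Type) (_ : Finite T') (_ : Fintype I') (M' : LM (⊥ : Subalgebra k K) ⊤ T' I')
      (π : T' → T) (Θ : I' → I → ℤ) (y : T' → K) (μ : I' → ℤ) (Γ' : G → I' → ℤ)
      (ho : Pool.Agent.W558.Ovr B M' π Θ), AV (WP B n0 h0 hN.hA) M' π Θ ∧
      Fn M' (fun b => algebraMap L K (g b)) Γ' ∧ Frc M' ∧ ZM p ho n0 h0 hN.hA z y μ m nn ∧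
      ∀ t, (∀ i, (m : ℤ) * μ i ≤ ∑ i0, Θ i i0 * nn i0 ∨ (M'.x t i)⁻¹ ∈ M'.A t) ∨
        (∀ i, ∑ i0, Θ i i0 * nn i0 ≤ (m : ℤ) * μ i ∨ (M'.x t i)⁻¹ ∈ M'.A t) := by
  classical
  obtain ⟨T1, I1, hT1, hI1, M1, π1, Θ1, y1, μ1, Γ1, ho1, h1, h2, h3, h4⟩ :=
    zstep1 hN hR hG z hz hgen0 m nn
  obtain ⟨T', I', iT, iI, M', π, Θ, hOv, hΘ, hC⟩ := wa_ovp k K ⊥ ⊤ T1 I1 Bool M1
    (fun b => cond b (fun i => (m : ℤ) * μ1 i) (fun i => ∑ i0, Θ1 i i0 * nn i0))
  have hS := h1.ov' hOv hΘ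
  refine ⟨T', I', iT, iI, M', fun t => π1 (π t), fun i' i0 => ∑ i, Θ i' i * Θ1 i i0,
    fun t => y1 (π t), fun i' => ∑ i, Θ i' i * μ1 i, _, ovr_to hS.ov, hS, h2.ov hOv, h3.ov hOv,
    h4.ov hnn hOv hΘ (ovr_to hS.ov), ?_⟩
  intro t
  have h5 := hC true false t
  simp only [cond_true, cond_false] at h5
  have h6 : ∀ i', ∑ i, Θ i' i * ((m : ℤ) * μ1 i) = (m : ℤ) * ∑ i, Θ i' i * μ1 i := by
    intro i'
    rw [Finset.mul_sum]
    exact Finset.sum_congr rfl fun i _ => by ring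
  simp only [h6] at h5
  simp only [sum_comp]
  exact h5

end zstep

end Pool.Agent.K3h19.Witt
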